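import Mathlib

/-!
# Module Arith (S-M): the final congruence

PROOF. Write `c = 2 * c'`, `l = 2 * l'` (`Even` gives `c = r + r`). `hE1` becomes
`1 = m * (a + 2 * (n - 2) * b + (n - 2) * (n - 3) * c' + 2 * f + (n - 2) * g)`, so `m = 1` or
`m = -1` (`Int.isUnit_iff`), and the second factor is `m`. `hE2` becomes
`1 = m * ((n - 1) * (h + (n - 2) * l') + d + (n - 1) * e)`, so that factor is `m` too.
Put `α = a + (n - 4) * b - (n - 3) * c`, `β = f - g`, `γ = h - l`, `δ = d - e`,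
`η = d + (n - 1) * e - 2 * f - (n - 2) * g`. Modulo `n` (explicit multiples of `n`, by `ring`):
`α + 2 * β = m - n * (b + (n - 3) * c' + g)`,
`δ - γ = m - n * (e + h + (n - 3) * l')`,
`η = δ - 2 * β + n * (e - g)`.
So, modulo `n`: `α = m - 2 * β`, `δ = m + γ`, `η = m + γ - 2 * β`, and
`α * δ - (n - 2) * β * γ = (m - 2 * β) * (m + γ) + 2 * β * γ = m * m + m * γ - 2 * m * β
 = m * η`. With `hη` and `hD`: `± κ ^ 2 = m * (± κ)` modulo `n`, so `n ∣ κ * (κ - 1)` or
`n ∣ κ * (κ + 1)`, and `IsCoprime κ n` (`IsCoprime.dvd_of_dvd_mul_left` for `n`, `κ`) gives the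
claim.
-/

namespace ProfArtin

theorem arith_B {n κ a b c h l f g d e m : ℤ} (hcop : IsCoprime κ n) (hc : Even c) (hl : Even l)
    (hE1 : 2 = m * (2 * a + 4 * (n - 2) * b + (n - 2) * (n - 3) * c + 4 * f + 2 * (n - 2) * g))
    (hE2 : 2 = m * ((n - 1) * (2 * h + (n - 2) * l) + 2 * (d + (n - 1) * e)))
    (hη : d + (n - 1) * e - 2 * f - (n - 2) * g = κ ∨ d + (n - 1) * e - 2 * f - (n - 2) * g = -κ)
    (hD : (a + (n - 4) * b - (n - 3) * c) * (d - e) - (n - 2) * (f - g) * (h - l) = κ ^ 2 ∨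
      (a + (n - 4) * b - (n - 3) * c) * (d - e) - (n - 2) * (f - g) * (h - l) = -κ ^ 2) :
    n ∣ κ - 1 ∨ n ∣ κ + 1 := by
  obtain ⟨c', rfl⟩ := hc
  obtain ⟨l', rfl⟩ := hl
  have h1 : m * (a + 2 * (n - 2) * b + (n - 2) * (n - 3) * c' + 2 * f + (n - 2) * g) = 1 := by
    have : (2 : ℤ) * (m * (a + 2 * (n - 2) * b + (n - 2) * (n - 3) * c' + 2 * f + (n - 2) * g))
        = 2 * 1 := by linear_combination -hE1
    exact mul_left_cancel₀ two_ne_zero this
  have h2 : m * ((n - 1) * (h + (n - 2) * l') + d + (n - 1) * e) = 1 := by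
    have : (2 : ℤ) * (m * ((n - 1) * (h + (n - 2) * l') + d + (n - 1) * e))
        = 2 * 1 := by linear_combination -hE2
    exact mul_left_cancel₀ two_ne_zero this
  have hm : m = 1 ∨ m = -1 := Int.isUnit_iff.mp (IsUnit.of_mul_eq_one _ h1)
  have mm : m * m = 1 := by rcases hm with rfl | rfl <;> norm_num
  have hX : a + 2 * (n - 2) * b + (n - 2) * (n - 3) * c' + 2 * f + (n - 2) * g = m := by
    linear_combination m * h1 - (a + 2 * (n - 2) * b + (n - 2) * (n - 3) * c' + 2 * f +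
      (n - 2) * g) * mm
  have hY : (n - 1) * (h + (n - 2) * l') + d + (n - 1) * e = m := by
    linear_combination m * h2 - ((n - 1) * (h + (n - 2) * l') + d + (n - 1) * e) * mm
  have hα : a + (n - 4) * b - (n - 3) * (c' + c') =
      m - 2 * (f - g) - n * (b + (n - 3) * c' + g) := by linear_combination hX
  have hδ : d - e = m + (h - (l' + l')) - n * (e + h + (n - 3) * l') := by linear_combination hY
  have hηe : d + (n - 1) * e - 2 * f - (n - 2) * g =
      m + (h - (l' + l')) - n * (e + h + (n - 3) * l') - 2 * (f - g) + n * (e - g) := by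
    linear_combination hδ
  obtain ⟨T, hT⟩ : ∃ T, (a + (n - 4) * b - (n - 3) * (c' + c')) * (d - e) -
      (n - 2) * (f - g) * (h - (l' + l')) =
      m * (d + (n - 1) * e - 2 * f - (n - 2) * g) + n * T := by
    refine ⟨m * (e + h + (n - 3) * l') - m * (e - g) - ((f - g) * (h - (l' + l')) +
      (m - 2 * (f - g)) * (e + h + (n - 3) * l') + (b + (n - 3) * c' + g) *
      (m + (h - (l' + l')) - n * (e + h + (n - 3) * l'))), ?_⟩
    rw [hηe, hα, hδ]
    ring
  have fin1 : n ∣ κ * (κ - 1) → n ∣ κ - 1 := fun hh => hcop.symm.dvd_of_dvd_mul_left hh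
  have fin2 : n ∣ κ * (κ + 1) → n ∣ κ + 1 := fun hh => hcop.symm.dvd_of_dvd_mul_left hh
  rcases hη with e1 | e1 <;> rcases hD with e2 | e2 <;> rw [e1, e2] at hT <;>
    rcases hm with rfl | rfl
  · exact Or.inl (fin1 ⟨T, by linear_combination hT⟩)
  · exact Or.inr (fin2 ⟨T, by linear_combination hT⟩)
  · exact Or.inr (fin2 ⟨-T, by linear_combination -hT⟩)
  · exact Or.inl (fin1 ⟨-T, by linear_combination -hT⟩)
  · exact Or.inr (fin2 ⟨T, by linear_combination hT⟩)
  · exact Or.inl (fin1 ⟨T, by linear_combination hT⟩)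
  · exact Or.inl (fin1 ⟨-T, by linear_combination -hT⟩)
  · exact Or.inr (fin2 ⟨-T, by linear_combination -hT⟩)

/-- a multiplier which is not `± 1` modulo `n`: for odd `n` take `2`; for `n = 2 * r` with `r` even
(`r ≥ 4`) take `r - 1`; with `r` odd (`r ≥ 5`) take `r - 2`. -/
theorem kap_B {n : ℕ} (hn : n = 5 ∨ 7 ≤ n) :
    ∃ κ : ℕ, 1 ≤ κ ∧ IsCoprime (κ : ℤ) (n : ℤ) ∧ ¬ (n : ℤ) ∣ (κ : ℤ) - 1 ∧
      ¬ (n : ℤ) ∣ (κ : ℤ) + 1 := by
  rcases Nat.even_or_odd' n with ⟨r, hr | hr⟩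
  · rcases Nat.even_or_odd' r with ⟨s, hs | hs⟩
    · refine ⟨2 * s - 1, by omega, ?_, ?_, ?_⟩
      · refine ⟨2 * (s : ℤ) - 1, -((s : ℤ) - 1), ?_⟩
        have : ((2 * s - 1 : ℕ) : ℤ) = 2 * (s : ℤ) - 1 := by omega
        rw [this, hr, hs]
        push_cast
        ring
      · intro hh
        have := Int.le_of_dvd (by omega) hh
        omega
      · intro hh
        have := Int.le_of_dvd (by omega) hh
        omega
    · refine ⟨2 * s - 1, by omega, ?_, ?_, ?_⟩
      · refine ⟨(2 * (s : ℤ) - 1) + 2 * (s * (s - 1)), -((s : ℤ) * (s - 1)), ?_⟩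
        have : ((2 * s - 1 : ℕ) : ℤ) = 2 * (s : ℤ) - 1 := by omega
        rw [this, hr, hs]
        push_cast
        ring
      · intro hh
        have := Int.le_of_dvd (by omega) hh
        omega
      · intro hh
        have := Int.le_of_dvd (by omega) hh
        omega
  · refine ⟨2, by omega, ?_, ?_, ?_⟩
    · refine ⟨-(r : ℤ), 1, ?_⟩
      rw [hr]
      push_cast
      ring
    · intro hh
      have := Int.le_of_dvd (by norm_num) hh
      omega
    · intro hh
      have := Int.le_of_dvd (by norm_num) hh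
      omega

end ProfArtin
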