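import Pool.Agent.Work.MP_f6e909_al.TB.Base
import Pool.Agent.Work.MP_f6e909_al.FiveB

/-!
# Module HypB (M): the situation of a hypothetical isomorphism

PROOF. `phiB_symm`: `H.hrange` and `base_symm` (as `phi_symm` in HypFive.lean).
`phiB_surj`: `H.hrange` with `k = 0` and `base_surj`.
`phiB_even`: by `H.hrange` `Φ g = ⟨κ • (Θ g').v + (2 * k) • ones n, .., (Θ g').s⟩`, so
`(Θ g').s = 1` and `base_even` applies to `g'`.
`phiB_inv`: `(Φ g).s = 1` and the permutations of the elements commuting with `g` contain all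
permutations: then `(Φ g).v` is invariant under all permutations (`gb_comm_inv`), hence
`(Φ g).v = p • ones n` (`inv_ones`, `phiB_symm`), and `(Φ g).u = q • c1 n`.
`phiB_perm`: the images `X`, `Y` of `closure (x '' .. ∪ {y})` and of `B` in the symmetric group
commute and generate it (`phiB_surj`); `sym_commuting` (FiveB.lean) gives `X = ⊥` or `Y = ⊥`. In the
second case done. Suppose `X = ⊥`. Then the permutations of `Φ b'`, `b' ∈ B`, are all permutations
(every `g` is `g₁ * b'`; or: `Y = ⊤`), and `B` commutes with `x k`, `y`, so by `phiB_inv`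
`Φ (x k) = ⟨p k • ones n, .., 1⟩`, `Φ y = ⟨q • ones n, .., 1⟩`; `p k = p 0` because `x k` is conjugate
to `x 0` (`chain_conj`, or from the braid relation). Put `A = tot (Φ (x 0)).v = p 0 * n * (n - 1)`,
`A' = tot (Φ y).v = q * n * (n - 1)`. By closure induction, for all
`g ∈ closure (x '' .. ∪ {y})`: `2 * tot (Φ g).v = A * tot (Θ g).v + A' * ∑ i, (Θ g).u i`
(generators: `tot (E n k) = 2`, `∑ e2 = 2`; both sides are additive because `tot` and the sum are
invariant under `act`, `actU`). For `g = z` (`H.hzT`, `H.hΦz`, `H.hm`):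
`4 * n * (n - 1) = 2 * m * n * (n - 1) * A + 2 * m * n * A'
  = 2 * m * n * (n * (n - 1)) * ((n - 1) * p 0 + q)`, so `2 = m * n * (..)` and `n` divides `2`,
impossible for `n ≥ 5`.
-/

namespace ProfArtin

/-- `Φ` is the composition of an isomorphism from `G` onto its twist with the scaled homomorphism of
the twist; `z` is the preimage of the new central element. -/
structure HypB {G : Type} [Group G] (n : ℕ) (x : ℕ → G) (y : G) (B : Subgroup G)
    (Θ Φ : G →* Gb n) (κ : ℤ) (z : G) : Prop where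
  base : BaseB n x y B Θ
  hκ : κ ≠ 0
  hrange : ∀ w, w ∈ Φ.range ↔ ∃ (g : G) (k : ℤ),
    w = ⟨κ • (Θ g).v + (2 * k) • ones n, κ • (Θ g).u + (2 * k) • c1 n, (Θ g).s⟩
  hzc : z ∈ Subgroup.center G
  hzT : z ∈ Subgroup.closure (x '' {k | k + 1 < n} ∪ {y})
  hΦz : Φ z = ⟨(2 : ℤ) • ones n, (2 : ℤ) • c1 n, 1⟩
  hm : ∃ m : ℤ, Θ z = ⟨(2 * m) • ones n, (2 * m) • c1 n, 1⟩
  hret : ∃ r : G →* G, (∀ k, k + 1 < n → r (x k) = x k) ∧ r y = y ∧ ∀ b ∈ B, r b = 1

variable {G : Type} [Group G] {n : ℕ} {x : ℕ → G} {y : G} {B : Subgroup G} {Θ Φ : G →* Gb n}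
  {κ : ℤ} {z : G}

theorem phiB_symm (H : HypB n x y B Θ Φ κ z) (g : G) :
    (∀ i, (Φ g).v i i = 0) ∧ ∀ i j, (Φ g).v i j = (Φ g).v j i := by
  obtain ⟨g', k, hg⟩ := (H.hrange (Φ g)).1 ⟨g, rfl⟩
  obtain ⟨h1, h2⟩ := base_symm H.base g'
  rw [hg]
  refine ⟨fun i => ?_, fun i j => ?_⟩
  · simp [h1, ones]
  · simp only [Pi.add_apply, Pi.smul_apply, smul_eq_mul, ones]
    rw [h2 i j]
    simp only [eq_comm]

theorem phiB_surj (H : HypB n x y B Θ Φ κ z) (s : Equiv.Perm (Fin n)) : ∃ g, (Φ g).s = s := by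
  obtain ⟨g, _, hg⟩ := base_surj H.base s
  obtain ⟨g', hg'⟩ := (H.hrange ⟨κ • (Θ g).v + (2 * (0 : ℤ)) • ones n,
    κ • (Θ g).u + (2 * (0 : ℤ)) • c1 n, (Θ g).s⟩).2 ⟨g, 0, rfl⟩
  exact ⟨g', by rw [hg', hg]⟩

theorem phiB_even (H : HypB n x y B Θ Φ κ z) (g : G) (hg : (Φ g).s = 1) :
    ∃ (w : Fin n → Fin n → ℤ) (w' : Fin n → ℤ), (Φ g).v = (2 : ℤ) • w ∧ (Φ g).u = (2 : ℤ) • w' := by
  obtain ⟨g', k, hg'⟩ := (H.hrange (Φ g)).1 ⟨g, rfl⟩
  have h1 : (Θ g').s = 1 := by
    rw [← hg, hg']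
  obtain ⟨w, w', hw, hw'⟩ := base_even H.base g' h1
  refine ⟨κ • w + k • ones n, κ • w' + k • c1 n, ?_, ?_⟩
  · rw [hg', hw]
    funext i j
    simp only [Pi.add_apply, Pi.smul_apply, smul_eq_mul]
    ring
  · rw [hg', hw']
    funext i
    simp only [Pi.add_apply, Pi.smul_apply, smul_eq_mul]
    ring

theorem phiB_inv (H : HypB n x y B Θ Φ κ z) (g : G) (hg : (Φ g).s = 1)
    (h : ∀ s : Equiv.Perm (Fin n), ∃ g', g' * g = g * g' ∧ (Φ g').s = s) :
    ∃ p q : ℤ, Φ g = ⟨p • ones n, q • c1 n, 1⟩ := by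
  have hn := H.base.hn
  have hc : ∀ s : Equiv.Perm (Fin n), act s (Φ g).v = (Φ g).v ∧ actU s (Φ g).u = (Φ g).u := by
    intro s
    obtain ⟨g', h1, rfl⟩ := h s
    refine gb_comm_inv (Φ g') (Φ g) hg ?_
    rw [← map_mul, ← map_mul, h1]
  obtain ⟨p, hp⟩ := inv_ones (by omega) (Φ g).v (phiB_symm H g).1 (fun s => (hc s).1)
  refine ⟨p, (Φ g).u ⟨0, by omega⟩, ?_⟩
  refine Gb.ext hp ?_ hg
  funext i
  have h2 := congrFun (hc (Equiv.swap (⟨0, by omega⟩ : Fin n) i)).2 i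
  have h3 : (Equiv.swap (⟨0, by omega⟩ : Fin n) i).symm i = ⟨0, by omega⟩ := by
    rw [Equiv.symm_swap, Equiv.swap_apply_right]
  unfold actU at h2
  rw [h3] at h2
  show (Φ g).u i = (Φ g).u ⟨0, by omega⟩ * 1
  rw [mul_one, h2]

/-- the projection to the permutations -/
private def hypB_p (n : ℕ) : Gb n →* Equiv.Perm (Fin n) where
  toFun w := w.s
  map_one' := rfl
  map_mul' _ _ := rfl

private theorem hypB_tmul (w w' : Gb n) : tot (w * w').v = tot w.v + tot w'.v := by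
  rw [Gb.mul_v, tot_add, tot_act]

private theorem hypB_tone : tot (1 : Gb n).v = 0 := by
  rw [Gb.one_v]
  simp [tot]

private theorem hypB_tinv (w : Gb n) : tot (w⁻¹).v = -tot w.v := by
  rw [Gb.inv_v, tot_neg, tot_act]

private theorem hypB_usum (s : Equiv.Perm (Fin n)) (u : Fin n → ℤ) :
    ∑ i, actU s u i = ∑ i, u i :=
  Equiv.sum_comp s.symm u

private theorem hypB_e2 (hn : 1 ≤ n) : ∑ i, e2 n i = 2 := by
  have h1 : ∀ i : Fin n, e2 n i = if i = ⟨n - 1, by omega⟩ then 2 else 0 := by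
    intro i
    unfold e2
    simp only [Fin.ext_iff]
    congr 1
    apply propext
    omega
  simp only [h1]
  simp

private theorem hypB_tot (Θ Φ : G →* Gb n) (A A' : ℤ)
    (hx : ∀ k, k + 1 < n → 2 * tot (Φ (x k)).v = A * tot (Θ (x k)).v + A' * ∑ i, (Θ (x k)).u i)
    (hy : 2 * tot (Φ y).v = A * tot (Θ y).v + A' * ∑ i, (Θ y).u i) (g : G)
    (hg : g ∈ Subgroup.closure (x '' {k | k + 1 < n} ∪ {y})) :
    2 * tot (Φ g).v = A * tot (Θ g).v + A' * ∑ i, (Θ g).u i := by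
  induction hg using Subgroup.closure_induction with
  | mem g hg =>
    rcases hg with ⟨k, hk, rfl⟩ | hg
    · exact hx k hk
    · rw [Set.mem_singleton_iff.1 hg]
      exact hy
  | one =>
    rw [map_one, map_one, hypB_tone, Gb.one_u]
    simp
  | mul g g' _ _ h1 h2 =>
    rw [map_mul, map_mul, hypB_tmul, hypB_tmul, Gb.mul_u]
    simp only [Pi.add_apply, Finset.sum_add_distrib]
    rw [hypB_usum]
    linear_combination h1 + h2
  | inv g _ h1 =>
    rw [map_inv, map_inv, hypB_tinv, hypB_tinv, Gb.inv_u]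
    simp only [Pi.neg_apply, Finset.sum_neg_distrib]
    rw [hypB_usum]
    linear_combination -h1

theorem phiB_perm (H : HypB n x y B Θ Φ κ z) : ∀ b ∈ B, (Φ b).s = 1 := by
  have hn := H.base.hn
  obtain ⟨T, hT⟩ : ∃ T, T = Subgroup.closure (x '' {k | k + 1 < n} ∪ {y}) := ⟨_, rfl⟩
  have hgen : T ⊔ B = ⊤ := by
    rw [hT]
    exact H.base.hgen
  have hTB : ∀ t ∈ T, ∀ b ∈ B, t * b = b * t := by
    intro t ht b hb
    have h1 : T ≤ Subgroup.centralizer {b} := by
      rw [hT, Subgroup.closure_le]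
      rintro z (⟨k, hk, rfl⟩ | hz)
      · rw [SetLike.mem_coe, Subgroup.mem_centralizer_singleton_iff]
        exact (H.base.hBx b hb k hk).symm
      · rw [Set.mem_singleton_iff.1 hz, SetLike.mem_coe, Subgroup.mem_centralizer_singleton_iff]
        exact (H.base.hBy b hb).symm
    have h2 := h1 ht
    rw [Subgroup.mem_centralizer_singleton_iff] at h2
    exact h2
  obtain ⟨f, hf⟩ : ∃ f : G →* Equiv.Perm (Fin n), f = (hypB_p n).comp Φ := ⟨_, rfl⟩
  have hfa : ∀ g, f g = (Φ g).s := fun g => by rw [hf]; rfl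
  have hXY : ∀ s ∈ T.map f, ∀ s' ∈ B.map f, s * s' = s' * s := by
    rintro _ ⟨t, ht, rfl⟩ _ ⟨b, hb, rfl⟩
    rw [← map_mul, ← map_mul, hTB t ht b hb]
  have hg : T.map f ⊔ B.map f = ⊤ := by
    rw [← Subgroup.map_sup, hgen, eq_top_iff]
    intro s _
    obtain ⟨g, hg⟩ := phiB_surj H s
    exact ⟨g, Subgroup.mem_top g, by rw [hfa, hg]⟩
  rcases sym_commuting hn _ _ hXY hg with hX | hY
  · exfalso
    have hY : B.map f = ⊤ := by
      rw [← hg, hX, bot_sup_eq]
    have hBs : ∀ s : Equiv.Perm (Fin n), ∃ b ∈ B, (Φ b).s = s := by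
      intro s
      have h1 : s ∈ B.map f := by
        rw [hY]
        exact Subgroup.mem_top s
      obtain ⟨b, hb, hbs⟩ := h1
      exact ⟨b, hb, by rw [← hfa, hbs]⟩
    have hTs : ∀ t ∈ T, (Φ t).s = 1 := by
      intro t ht
      have h1 : f t ∈ T.map f := ⟨t, ht, rfl⟩
      rw [hX, Subgroup.mem_bot, hfa] at h1
      exact h1
    have hTinv : ∀ t ∈ T, ∃ p q : ℤ, Φ t = ⟨p • ones n, q • c1 n, 1⟩ := by
      intro t ht
      refine phiB_inv H t (hTs t ht) fun s => ?_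
      obtain ⟨b, hb, hbs⟩ := hBs s
      exact ⟨b, (hTB t ht b hb).symm, hbs⟩
    have hxT : ∀ k, k + 1 < n → x k ∈ T := by
      intro k hk
      rw [hT]
      exact Subgroup.subset_closure (Or.inl ⟨k, hk, rfl⟩)
    have hyT : y ∈ T := by
      rw [hT]
      exact Subgroup.subset_closure (Or.inr rfl)
    have htk : ∀ k, k + 1 < n → tot (Φ (x k)).v = tot (Φ (x 0)).v := by
      intro k
      induction k with
      | zero => intro _; rfl
      | succ k ih =>
        intro hk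
        rw [← ih (by omega)]
        have h1 := congrArg (fun g => tot (Φ g).v) (H.base.fam.chain.braid k (by omega))
        simp only [map_mul, hypB_tmul] at h1
        linarith
    obtain ⟨p, q', hp⟩ := hTinv (x 0) (hxT 0 (by omega))
    obtain ⟨q, q'', hq⟩ := hTinv y hyT
    have hA : tot (Φ (x 0)).v = p * ((n : ℤ) * (n - 1)) := by
      rw [hp, tot_smul, tot_ones]
    have hA' : tot (Φ y).v = q * ((n : ℤ) * (n - 1)) := by
      rw [hq, tot_smul, tot_ones]
    have hkey := hypB_tot (x := x) (y := y) Θ Φ (tot (Φ (x 0)).v) (tot (Φ y).v)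
      (fun k hk => by
        rw [htk k hk, H.base.hΘx k hk]
        show 2 * tot (Φ (x 0)).v = tot (Φ (x 0)).v * tot (E n k) + tot (Φ y).v * ∑ i : Fin n, 0
        rw [tot_E hk, Finset.sum_const_zero]
        ring)
      (by
        rw [H.base.hΘy]
        show 2 * tot (Φ y).v = tot (Φ (x 0)).v * tot (0 : Fin n → Fin n → ℤ) +
          tot (Φ y).v * ∑ i : Fin n, e2 n i
        rw [hypB_e2 (by omega)]
        have h0 : tot (0 : Fin n → Fin n → ℤ) = 0 := by simp [tot]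
        rw [h0]
        ring) z H.hzT
    obtain ⟨m, hm⟩ := H.hm
    rw [hA, hA', H.hΦz, hm] at hkey
    have e1 : tot ((2 : ℤ) • ones n) = 2 * ((n : ℤ) * (n - 1)) := by rw [tot_smul, tot_ones]
    have e2 : tot ((2 * m) • ones n) = 2 * m * ((n : ℤ) * (n - 1)) := by rw [tot_smul, tot_ones]
    have e3 : ∑ i : Fin n, ((2 * m) • c1 n) i = (n : ℤ) * (2 * m) := by
      simp [c1]
    change 2 * tot ((2 : ℤ) • ones n) = p * ((n : ℤ) * (n - 1)) * tot ((2 * m) • ones n) +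
      q * ((n : ℤ) * (n - 1)) * ∑ i : Fin n, ((2 * m) • c1 n) i at hkey
    rw [e1, e2, e3] at hkey
    have hn5 : (5 : ℤ) ≤ n := by exact_mod_cast hn
    have h5 : (2 : ℤ) * ((n : ℤ) * (n - 1)) ≠ 0 := by
      apply mul_ne_zero (by norm_num)
      apply mul_ne_zero <;> omega
    have h6 : (2 : ℤ) = (n : ℤ) * (m * (p * (n - 1) + q)) := by
      apply mul_left_cancel₀ h5
      linear_combination hkey
    have h7 : (n : ℤ) ∣ 2 := ⟨_, h6⟩
    have h8 := Int.le_of_dvd (by norm_num) h7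
    linarith
  · intro b hb
    have h1 : f b ∈ B.map f := ⟨b, hb, rfl⟩
    rw [hY, Subgroup.mem_bot, hfa] at h1
    exact h1

end ProfArtin
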