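import Pool.Agent.Work.MP_f6e909_al.TB.Om
import Pool.Agent.Work.MP_f6e909_al.TB.HypB

/-!
# Module BOnes (S-M): the values of `Φ` on `B`

PROOF. Let `b' ∈ B`. `(Φ b').s = 1` by `phiB_perm`. The permutations of the elements of
`closure (x '' .. ∪ {y})` under `Φ` are all permutations: given `s`, take `g` with `(Φ g).s = s`
(`phiB_surj`), write `g = g₁ * b''` with `g₁ ∈ closure ..`, `b'' ∈ B` (`Subgroup.mem_sup_of_normal_..`
or closure induction as `comp_prod` in Comp.lean, using that `B` commutes with the `x k` and `y`), then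
`(Φ g₁).s = s`; and `g₁` commutes with `b'`. So `phiB_inv` gives
`Φ b' = ⟨p • ones n, q • c1 n, 1⟩`. By `om_trivial` (`(Ω b').s = (Φ b').s = 1` for all of `B`)
`(Ω b').f i j = 1` for `i = n - 2`, `j = n - 1`, and `hlink` gives `0 = 2 * p - q - q`, `p = q`.
-/

namespace ProfArtin

variable {G : Type} [Group G] {n : ℕ} {x : ℕ → G} {y : G} {B : Subgroup G} {Θ Φ : G →* Gb n}
  {κ : ℤ} {z : G} {L : Type} [Group L] {a b : L} {d : L →* Multiplicative ℤ}

/-- the group is the product of the two commuting subgroups -/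
private theorem bo_prod (H : BaseB n x y B Θ) (g : G) :
    ∃ g₁ ∈ Subgroup.closure (x '' {k | k + 1 < n} ∪ {y}), ∃ b ∈ B, g = g₁ * b := by
  have hcomm : ∀ g₁ ∈ Subgroup.closure (x '' {k | k + 1 < n} ∪ {y}), ∀ b ∈ B,
      g₁ * b = b * g₁ := by
    intro g₁ hg₁ b hb
    have h1 : Subgroup.closure (x '' {k | k + 1 < n} ∪ {y}) ≤ Subgroup.centralizer {b} := by
      rw [Subgroup.closure_le]
      rintro _ (⟨k, hk, rfl⟩ | hy)
      · rw [SetLike.mem_coe, Subgroup.mem_centralizer_singleton_iff]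
        exact (H.hBx b hb k hk).symm
      · rw [Set.mem_singleton_iff] at hy
        rw [SetLike.mem_coe, Subgroup.mem_centralizer_singleton_iff, hy]
        exact (H.hBy b hb).symm
    exact Subgroup.mem_centralizer_singleton_iff.mp (h1 hg₁)
  let S : Subgroup G :=
    { carrier := {g | ∃ g₁ ∈ Subgroup.closure (x '' {k | k + 1 < n} ∪ {y}), ∃ b ∈ B, g = g₁ * b}
      one_mem' := ⟨1, one_mem _, 1, one_mem _, by rw [one_mul]⟩
      mul_mem' := by
        rintro _ _ ⟨g₁, h1, b₁, h2, rfl⟩ ⟨g₂, h3, b₂, h4, rfl⟩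
        refine ⟨g₁ * g₂, mul_mem h1 h3, b₁ * b₂, mul_mem h2 h4, ?_⟩
        have h5 := hcomm g₂ h3 b₁ h2
        calc g₁ * b₁ * (g₂ * b₂) = g₁ * (b₁ * g₂) * b₂ := by group
          _ = g₁ * (g₂ * b₁) * b₂ := by rw [h5]
          _ = g₁ * g₂ * (b₁ * b₂) := by group
      inv_mem' := by
        rintro _ ⟨g₁, h1, b₁, h2, rfl⟩
        refine ⟨g₁⁻¹, inv_mem h1, b₁⁻¹, inv_mem h2, ?_⟩
        rw [mul_inv_rev]
        exact (hcomm _ (inv_mem h1) _ (inv_mem h2)).symm }
  exact base_top H S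
    (fun k hk => ⟨x k, Subgroup.subset_closure (Or.inl ⟨k, hk, rfl⟩), 1, one_mem _,
      by rw [mul_one]⟩)
    ⟨y, Subgroup.subset_closure (Or.inr rfl), 1, one_mem _, by rw [mul_one]⟩
    (fun b hb => ⟨1, one_mem _, b, hb, by rw [one_mul]⟩) g

theorem phiB_ones (H : HypB n x y B Θ Φ κ z) (hL : LData L a b d) (Ψ : G →* Wl n L)
    (hx : ∀ k, k + 1 < n → Ψ (x k) = wlS n a k) (hy : Ψ y = wlT n b) (hB : ∀ b' ∈ B, Ψ b' = 1)
    (Ω : G →* Wl n L) (hr : Ω.range = Ψ.range) (hs : ∀ g, (Ω g).s = (Φ g).s)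
    (hlink : ∀ g, ∀ i j, i ≠ j → 2 * κ * Multiplicative.toAdd (d ((Ω g).f i j)) =
      2 * (Φ g).v i j - (Φ g).u i - (Φ g).u j) :
    ∀ b' ∈ B, ∃ c : ℤ, Φ b' = ⟨c • ones n, c • c1 n, 1⟩ := by
  intro b' hb'
  have hs1 := phiB_perm H b' hb'
  have hn := H.base.hn
  obtain ⟨p, q, hpq⟩ := phiB_inv H b' hs1 (by
    intro s
    obtain ⟨g, hg⟩ := phiB_surj H s
    obtain ⟨g₁, hg₁, b'', hb'', rfl⟩ := bo_prod H.base g
    refine ⟨g₁, ?_, ?_⟩
    · have h1 : Subgroup.closure (x '' {k | k + 1 < n} ∪ {y}) ≤ Subgroup.centralizer {b'} := by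
        rw [Subgroup.closure_le]
        rintro _ (⟨k, hk, rfl⟩ | hy')
        · rw [SetLike.mem_coe, Subgroup.mem_centralizer_singleton_iff]
          exact (H.base.hBx b' hb' k hk).symm
        · rw [Set.mem_singleton_iff] at hy'
          rw [SetLike.mem_coe, Subgroup.mem_centralizer_singleton_iff, hy']
          exact (H.base.hBy b' hb').symm
      exact Subgroup.mem_centralizer_singleton_iff.mp (h1 hg₁)
    · rw [map_mul, Gb.mul_s, phiB_perm H b'' hb'', mul_one] at hg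
      exact hg)
  have hi : (⟨n - 2, by omega⟩ : Fin n).1 + 2 = n := by
    show n - 2 + 2 = n
    omega
  have hj : (⟨n - 1, by omega⟩ : Fin n).1 + 1 = n := by
    show n - 1 + 1 = n
    omega
  have hij : (⟨n - 2, by omega⟩ : Fin n) ≠ ⟨n - 1, by omega⟩ := by
    simp only [ne_eq, Fin.mk.injEq]
    omega
  have h1 := om_trivial H.base hL Ψ hx hy hB Ω hr
    (fun c hc => by rw [hs]; exact phiB_perm H c hc) hb' _ _ hi hj
  have h2 := hlink b' _ _ hij
  rw [h1, map_one, hpq] at h2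
  have h3 : (p • ones n) (⟨n - 2, by omega⟩ : Fin n) ⟨n - 1, by omega⟩ = p := by
    show p * ones n _ _ = p
    unfold ones
    rw [if_neg hij, mul_one]
  have h4 : ∀ i : Fin n, (q • c1 n) i = q := by
    intro i
    show q * 1 = q
    rw [mul_one]
  simp only at h2
  rw [h3, h4, h4, toAdd_one] at h2
  have h5 : p = q := by linarith
  exact ⟨p, by rw [hpq, ← h5]⟩

end ProfArtin
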