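import Pool.Agent.Work.MP_f6e909_al.TB.Defs
import Pool.Agent.Work.MP_f6e909_al.SnPres
import Pool.Agent.Work.MP_f6e909_al.FiveAux

/-!
# Module Base (M): elementary facts in the base situation

PROOF (models: `theta_symm`, `theta_surj`, `theta_even` in HypFive.lean; closure induction over
`H.hgen`).
`base_top`: `S` contains `closure (x '' .. ∪ {y}) ⊔ B = ⊤`.
`base_symm`: the set of `w : Gb n` with `w.v` symmetric with zero diagonal is a subgroup; it contains
`thS n k` (`E n k` is symmetric with zero diagonal), `thT n`, `1`; use `base_top` with the comap.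
`base_surj`: the permutations of the `x k`, `k + 1 < n`, are the `sw n k`, which generate
(`sw_closure`); closure induction (as `theta_perm_surj` in Final.lean), the elements can be taken in
`closure (x '' {k | k + 1 < n})`.
`base_ker`: `ker_fold` (SnPres.lean) with `ι = Fin (n - 1)`, `a i = i.1`, `t i = x i.1` (this is a
`Fold n a t` by `H.fam.chain`; `fold` is vacuous), the subgroup `closure {y} ⊔ B` in place of `B`,
and `f g = (Θ g).s` (a homomorphism: projection of `Gb n` to the permutations composed with `Θ`; its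
values at `x k`, `y`, `b` are `sw n k`, `1`, `1`). It gives that `g` lies in the normal closure of
the `x k * x k`, the `t i * (t i)⁻¹ = 1` and `closure {y} ⊔ B`. All `x k * x k` are conjugate to
`x 0 * x 0` (`chain_conj`), hence in `P`.
`base_even`: `base_ker` with `P` = the set of `g` with `(Θ g).s = 1` and `(Θ g).v = 2 • w`,
`(Θ g).u = 2 • w'` for some `w, w'`; it is a normal subgroup (for conjugation use: if `(Θ g).s = 1`,
then `(Θ (h * g * h⁻¹)).v = act (Θ h).s (Θ g).v`, the same for `u`, and the permutation is `1`), and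
`Θ (x 0 * x 0) = ⟨2 • E n 0, 0, 1⟩` (`gam_sq`), `Θ y = ⟨0, e2 n, 1⟩` with `e2 n = 2 • (..)`.
-/

namespace ProfArtin

variable {G : Type} [Group G] {n : ℕ} {x : ℕ → G} {y : G} {B : Subgroup G} {Θ : G →* Gb n}

/-- conjugation of an element with trivial permutation -/
private theorem bs_actU_add (s : Equiv.Perm (Fin n)) (u w : Fin n → ℤ) :
    actU s (u + w) = actU s u + actU s w := rfl

private theorem bs_actU_neg (s : Equiv.Perm (Fin n)) (u : Fin n → ℤ) :
    actU s (-u) = -actU s u := rfl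

private theorem bs_actU_mul (s t : Equiv.Perm (Fin n)) (u : Fin n → ℤ) :
    actU (s * t) u = actU s (actU t u) := rfl

private theorem bs_actU_one (u : Fin n → ℤ) : actU 1 u = u := rfl

/-- the projection to the symmetric group -/
private def bsPrj (n : ℕ) : Gb n →* Equiv.Perm (Fin n) where
  toFun w := w.s
  map_one' := rfl
  map_mul' _ _ := rfl

theorem gb_conj (w g : Gb n) (hg : g.s = 1) :
    (w * g * w⁻¹).v = act w.s g.v ∧ (w * g * w⁻¹).u = actU w.s g.u ∧ (w * g * w⁻¹).s = 1 := by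
  refine ⟨?_, ?_, ?_⟩
  · rw [Gb.mul_v, Gb.mul_v, Gb.mul_s, hg, mul_one, Gb.inv_v, act_neg, ← act_mul, mul_inv_cancel,
      act_one]
    abel
  · rw [Gb.mul_u, Gb.mul_u, Gb.mul_s, hg, mul_one, Gb.inv_u, bs_actU_neg, ← bs_actU_mul,
      mul_inv_cancel, bs_actU_one]
    abel
  · rw [Gb.mul_s, Gb.mul_s, hg, mul_one, Gb.inv_s, mul_inv_cancel]

/-- an element with trivial permutation is invariant under the permutations of the elements it
commutes with -/
theorem gb_comm_inv (w g : Gb n) (hg : g.s = 1) (h : w * g = g * w) :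
    act w.s g.v = g.v ∧ actU w.s g.u = g.u := by
  have h1 : w * g * w⁻¹ = g := by rw [h, mul_inv_cancel_right]
  obtain ⟨h2, h3, -⟩ := gb_conj w g hg
  rw [h1] at h2 h3
  exact ⟨h2.symm, h3.symm⟩

theorem base_top (H : BaseB n x y B Θ) (S : Subgroup G) (hx : ∀ k, k + 1 < n → x k ∈ S)
    (hy : y ∈ S) (hB : ∀ b ∈ B, b ∈ S) (g : G) : g ∈ S := by
  have h : (⊤ : Subgroup G) ≤ S := by
    rw [← H.hgen]
    refine sup_le ?_ hB
    rw [Subgroup.closure_le]
    rintro _ (⟨k, hk, rfl⟩ | rfl)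
    · exact hx k hk
    · exact hy
  exact h (Subgroup.mem_top g)

/-- symmetric matrices with zero diagonal -/
private def bsSym (n : ℕ) : Subgroup (Gb n) where
  carrier := {w | (∀ i, w.v i i = 0) ∧ ∀ i j, w.v i j = w.v j i}
  one_mem' := ⟨fun _ => rfl, fun _ _ => rfl⟩
  mul_mem' := by
    rintro x y ⟨h1, h2⟩ ⟨h3, h4⟩
    refine ⟨fun i => ?_, fun i j => ?_⟩
    · simp [act, h1, h3]
    · simp only [Gb.mul_v, act, Pi.add_apply]
      rw [h2 i j, h4]
  inv_mem' := by
    rintro x ⟨h1, h2⟩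
    refine ⟨fun i => ?_, fun i j => ?_⟩
    · simp [act, h1]
    · simp only [Gb.inv_v, act, Pi.neg_apply]
      rw [h2]

private theorem bs_E_sym (n k : ℕ) : (∀ i, E n k i i = 0) ∧ ∀ i j, E n k i j = E n k j i := by
  refine ⟨fun i => ?_, fun i j => ?_⟩
  · unfold E
    rw [if_neg]
    omega
  · unfold E
    congr 1
    apply propext
    constructor <;> rintro (⟨h1, h2⟩ | ⟨h1, h2⟩) <;> simp [h1, h2]

theorem base_symm (H : BaseB n x y B Θ) (g : G) :
    (∀ i, (Θ g).v i i = 0) ∧ ∀ i j, (Θ g).v i j = (Θ g).v j i := by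
  have h := base_top H ((bsSym n).comap Θ) (fun k hk => ?_) ?_ (fun b hb => ?_) g
  · exact h
  · rw [Subgroup.mem_comap, H.hΘx k hk]
    exact bs_E_sym n k
  · rw [Subgroup.mem_comap, H.hΘy]
    exact ⟨fun _ => rfl, fun _ _ => rfl⟩
  · rw [Subgroup.mem_comap, H.hΘB b hb]
    exact one_mem _

theorem base_surj (H : BaseB n x y B Θ) (s : Equiv.Perm (Fin n)) :
    ∃ g ∈ Subgroup.closure (x '' {k | k + 1 < n}), (Θ g).s = s := by
  have h1 : (⊤ : Subgroup (Equiv.Perm (Fin n))) ≤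
      (Subgroup.closure (x '' {k | k + 1 < n})).map ((bsPrj n).comp Θ) := by
    rw [← sw_closure n, Subgroup.closure_le]
    rintro _ ⟨k, hk, rfl⟩
    refine ⟨x k, Subgroup.subset_closure ⟨k, hk, rfl⟩, ?_⟩
    change (Θ (x k)).s = sw n k
    rw [H.hΘx k hk]
    rfl
  obtain ⟨g, hg, hg2⟩ := h1 (Subgroup.mem_top s)
  exact ⟨g, hg, hg2⟩

private theorem bs_fold (H : BaseB n x y B Θ) :
    Fold n (fun i : Fin (n - 1) => i.1) (fun i : Fin (n - 1) => x i.1) := by
  have hc := H.fam.chain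
  refine ⟨fun i => ?_, fun k hk => ⟨⟨k, by omega⟩, rfl⟩, fun i j h1 h2 => ?_, fun i j h1 => ?_,
    fun i j h1 h2 => ?_⟩
  · have := i.2
    omega
  · have h1' : i.1 + 1 ≠ j.1 := h1
    have h2' : j.1 + 1 ≠ i.1 := h2
    show x i.1 * x j.1 = x j.1 * x i.1
    rcases Nat.lt_trichotomy i.1 j.1 with h3 | h3 | h3
    · exact hc.comm i.1 j.1 (by omega) j.2
    · rw [h3]
    · exact (hc.comm j.1 i.1 (by omega) i.2).symm
  · have h1' : i.1 + 1 = j.1 := h1
    show x i.1 * x j.1 * x i.1 = x j.1 * x i.1 * x j.1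
    have h2 := hc.braid i.1 (by have := j.2; omega)
    rw [h1'] at h2
    exact h2
  · exact absurd (Fin.ext h1) h2

theorem base_ker (H : BaseB n x y B Θ) (P : Subgroup G) (hP : P.Normal) (h0 : x 0 * x 0 ∈ P)
    (hy : y ∈ P) (hB : B ≤ P) (g : G) (hg : (Θ g).s = 1) : g ∈ P := by
  have hB' : ∀ b ∈ Subgroup.closure {y} ⊔ B, ((bsPrj n).comp Θ) b = 1 := by
    intro b hb
    have h1 : Subgroup.closure {y} ⊔ B ≤ ((bsPrj n).comp Θ).ker := by
      refine sup_le ?_ ?_
      · rw [Subgroup.closure_le]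
        rintro w hw
        rw [Set.mem_singleton_iff] at hw
        rw [SetLike.mem_coe, MonoidHom.mem_ker, hw]
        change (Θ y).s = 1
        rw [H.hΘy]
        rfl
      · intro b hb
        rw [MonoidHom.mem_ker]
        change (Θ b).s = 1
        rw [H.hΘB b hb]
        rfl
    exact h1 hb
  have hrange : Set.range (fun i : Fin (n - 1) => x i.1) = x '' {k | k + 1 < n} := by
    ext w
    constructor
    · rintro ⟨i, rfl⟩
      exact ⟨i.1, by have := i.2; show i.1 + 1 < n; omega, rfl⟩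
    · rintro ⟨k, hk, rfl⟩
      have hk' : k + 1 < n := hk
      exact ⟨⟨k, by omega⟩, rfl⟩
  have hgen : Subgroup.closure (Set.range (fun i : Fin (n - 1) => x i.1)) ⊔
      (Subgroup.closure {y} ⊔ B) = ⊤ := by
    rw [hrange, ← sup_assoc, ← Subgroup.closure_union]
    exact H.hgen
  have hk := ker_fold (bs_fold H) (Subgroup.closure {y} ⊔ B) hgen ((bsPrj n).comp Θ) (fun i => by
    change (Θ (x i.1)).s = sw n i.1
    rw [H.hΘx i.1 (by have := i.2; omega)]
    rfl) hB' g hg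
  have hle : Subgroup.normalClosure ({x' | ∃ i : Fin (n - 1), x' = x i.1 * x i.1} ∪
      {x' | ∃ i j : Fin (n - 1), i.1 = j.1 ∧ x' = x i.1 * (x j.1)⁻¹} ∪
      ((Subgroup.closure {y} ⊔ B : Subgroup G) : Set G)) ≤ P := by
    apply Subgroup.normalClosure_le_normal
    rintro w ((⟨i, rfl⟩ | ⟨i, j, hij, rfl⟩) | hw)
    · obtain ⟨c, -, hc⟩ := chain_conj H.fam.chain i.2
      have h1 : x i.1 * x i.1 = c * (x 0 * x 0) * c⁻¹ := by
        rw [hc]
        group
      rw [SetLike.mem_coe, h1]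
      exact hP.conj_mem _ h0 c
    · rw [SetLike.mem_coe, hij, mul_inv_cancel]
      exact one_mem P
    · have h1 : Subgroup.closure {y} ⊔ B ≤ P := by
        refine sup_le ?_ hB
        rw [Subgroup.closure_le]
        rintro w hw
        rw [Set.mem_singleton_iff] at hw
        rw [hw]
        exact hy
      exact h1 hw
  exact hle hk

/-- elements with trivial permutation and even entries -/
private def bsEven (n : ℕ) : Subgroup (Gb n) where
  carrier := {w | w.s = 1 ∧ (∃ v : Fin n → Fin n → ℤ, w.v = (2 : ℤ) • v) ∧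
    ∃ u : Fin n → ℤ, w.u = (2 : ℤ) • u}
  one_mem' := ⟨rfl, ⟨0, by simp⟩, ⟨0, by simp⟩⟩
  mul_mem' := by
    rintro x y ⟨h1, ⟨v, hv⟩, u, hu⟩ ⟨h2, ⟨v', hv'⟩, u', hu'⟩
    refine ⟨by rw [Gb.mul_s, h1, h2, one_mul], ⟨v + v', ?_⟩, u + u', ?_⟩
    · rw [Gb.mul_v, h1, act_one, hv, hv', smul_add]
    · rw [Gb.mul_u, h1, bs_actU_one, hu, hu', smul_add]
  inv_mem' := by
    rintro x ⟨h1, ⟨v, hv⟩, u, hu⟩
    refine ⟨by rw [Gb.inv_s, h1, inv_one], ⟨-v, ?_⟩, -u, ?_⟩
    · rw [Gb.inv_v, h1, inv_one, act_one, hv, smul_neg]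
    · rw [Gb.inv_u, h1, inv_one, bs_actU_one, hu, smul_neg]

private theorem bs_even_normal (n : ℕ) : (bsEven n).Normal := by
  constructor
  rintro w ⟨h1, ⟨v, hv⟩, u, hu⟩ z
  obtain ⟨h2, h3, h4⟩ := gb_conj z w h1
  exact ⟨h4, ⟨act z.s v, by rw [h2, hv]; rfl⟩, actU z.s u, by rw [h3, hu]; rfl⟩

theorem base_even (H : BaseB n x y B Θ) (g : G) (hg : (Θ g).s = 1) :
    ∃ (w : Fin n → Fin n → ℤ) (w' : Fin n → ℤ), (Θ g).v = (2 : ℤ) • w ∧ (Θ g).u = (2 : ℤ) • w' := by
  have hn2 : 0 + 1 < n := by have := H.hn; omega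
  have h := base_ker H ((bsEven n).comap Θ) ((bs_even_normal n).comap Θ) ?_ ?_ ?_ g hg
  · obtain ⟨-, ⟨v, hv⟩, u, hu⟩ := h
    exact ⟨v, u, hv, hu⟩
  · rw [Subgroup.mem_comap, map_mul, H.hΘx 0 hn2]
    have h1 := gam_sq (n := n) hn2
    refine ⟨?_, ⟨E n 0, ?_⟩, 0, ?_⟩
    · rw [Gb.mul_s]
      exact congrArg Gam.s h1
    · rw [Gb.mul_v]
      exact congrArg Gam.v h1
    · rw [Gb.mul_u, smul_zero]
      change (0 : Fin n → ℤ) + actU _ 0 = 0
      rw [zero_add]
      rfl
  · rw [Subgroup.mem_comap, H.hΘy]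
    refine ⟨rfl, ⟨0, by rw [smul_zero]; rfl⟩, fun i => if i.1 + 1 = n then 1 else 0, ?_⟩
    funext i
    change (if i.1 + 1 = n then (2 : ℤ) else 0) = (2 : ℤ) * (if i.1 + 1 = n then 1 else 0)
    split_ifs <;> rfl
  · intro b hb
    rw [Subgroup.mem_comap, H.hΘB b hb]
    exact one_mem _

end ProfArtin
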