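import Pool.Agent.Work.MP_f6e909_al.TB.Defs

/-!
# Module CenB (M): the central element in type `B n`

PROOF (model: `cen_chain` in Cen.lean). Put `c = x 0 * x 1 * ⋯ * x (n - 2)`, `δ = c * y`, and
`h = δ ^ n`.
(1) `c * x i = x (i + 1) * c` for `i + 2 < n` (braid relations), and
`c * (x 0 * ⋯ * x (n - 3)) = (x 1 * ⋯ * x (n - 2)) * c`, hence
`x 0 * c * (x 0 * ⋯ * x (n - 3)) = c * c`  (*).
(2) `δ * x i = x (i + 1) * δ` for `i + 2 < n`, since `y` commutes with `x i` for `i + 2 < n`.
(3) `y * c * y = (x 0 * ⋯ * x (n - 3)) * (y * x (n - 2) * y)`, so with `four`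
`δ ^ 2 * x (n - 2) = c * (x 0 * ⋯ * x (n - 3)) * (y * x (n - 2) * y * x (n - 2))
  = c * (x 0 * ⋯ * x (n - 3)) * x (n - 2) * y * x (n - 2) * y = c * c * y * x (n - 2) * y`, and
`x 0 * δ ^ 2 = x 0 * c * (x 0 * ⋯ * x (n - 3)) * (y * x (n - 2) * y) = c * c * y * x (n - 2) * y`
by (*). So `δ ^ 2 * x (n - 2) = x 0 * δ ^ 2`.
(4) `δ ^ (n - 2) * x 0 = x (n - 2) * δ ^ (n - 2)` by (2), so `δ ^ n * x 0 = x 0 * δ ^ n`; and
`x i = δ ^ i * x 0 * δ ^ (-i)`, so `δ ^ n` commutes with all `x i`, `i + 1 < n`, and with `δ`, hence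
with `y = c⁻¹ * δ`.
(5) `χ δ` has exponent `(n - 1) * p + q`, `χ h` has `n * ((n - 1) * p + q)`.
For `n = 2` the same (`c = x 0`, empty products, (*) reads `x 0 * x 0 = x 0 * x 0`).
-/

namespace ProfArtin

/-- partial products -/
private def cenB_pr {G : Type} [Group G] (x : ℕ → G) : ℕ → G
  | 0 => 1
  | k + 1 => cenB_pr x k * x k

private theorem cenB_mem {G : Type} [Group G] {x : ℕ → G} (S : Subgroup G) (k : ℕ)
    (h : ∀ i, i < k → x i ∈ S) : cenB_pr x k ∈ S := by
  induction k with
  | zero => exact S.one_mem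
  | succ k ih => exact S.mul_mem (ih fun i hi => h i (by omega)) (h k (by omega))

private theorem cenB_com {G : Type} [Group G] {x : ℕ → G} {z : G} (k : ℕ)
    (h : ∀ i, i < k → Commute z (x i)) : Commute z (cenB_pr x k) := by
  induction k with
  | zero => exact Commute.one_right _
  | succ k ih => exact (ih fun i hi => h i (by omega)).mul_right (h k (by omega))

private theorem cenB_shift {G : Type} [Group G] {m : ℕ} {x : ℕ → G} (hx : Chain m x) (i : ℕ)
    (d : ℕ) (h : i + 2 + d ≤ m) :
    cenB_pr x (i + 2 + d) * x i = x (i + 1) * cenB_pr x (i + 2 + d) := by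
  induction d with
  | zero =>
    show cenB_pr x i * x i * x (i + 1) * x i = x (i + 1) * (cenB_pr x i * x i * x (i + 1))
    have hc : Commute (x (i + 1)) (cenB_pr x i) :=
      cenB_com i fun j hj => (hx.comm j (i + 1) (by omega) (by omega)).symm
    calc cenB_pr x i * x i * x (i + 1) * x i = cenB_pr x i * (x i * x (i + 1) * x i) := by
          simp only [mul_assoc]
      _ = cenB_pr x i * (x (i + 1) * x i * x (i + 1)) := by rw [hx.braid i (by omega)]
      _ = cenB_pr x i * x (i + 1) * x i * x (i + 1) := by simp only [mul_assoc]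
      _ = x (i + 1) * cenB_pr x i * x i * x (i + 1) := by rw [hc.eq]
      _ = x (i + 1) * (cenB_pr x i * x i * x (i + 1)) := by simp only [mul_assoc]
  | succ d ih =>
    show cenB_pr x (i + 2 + d) * x (i + 2 + d) * x i =
      x (i + 1) * (cenB_pr x (i + 2 + d) * x (i + 2 + d))
    rw [mul_assoc, ← hx.comm i (i + 2 + d) (by omega) (by omega), ← mul_assoc, ih (by omega),
      mul_assoc]

theorem cen_B {G : Type} [Group G] {n : ℕ} (hn : 2 ≤ n) {x : ℕ → G} {y : G} (h : BFam n x y) :
    ∃ c ∈ Subgroup.closure (x '' {k | k + 1 < n} ∪ {y}),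
      (∀ k, k + 1 < n → c * x k = x k * c) ∧ c * y = y * c ∧
      ∀ (χ : G →* Multiplicative ℤ) (p q : ℤ),
        (∀ k, k + 1 < n → χ (x k) = Multiplicative.ofAdd p) → χ y = Multiplicative.ofAdd q →
        χ c = Multiplicative.ofAdd ((n : ℤ) * (((n : ℤ) - 1) * p + q)) := by
  obtain ⟨m', rfl⟩ : ∃ m', n = m' + 2 := ⟨n - 2, by omega⟩
  have hx : Chain (m' + 1) x := h.chain
  have hs : ∀ i, i + 1 < m' + 1 → cenB_pr x (m' + 1) * x i = x (i + 1) * cenB_pr x (m' + 1) := by
    intro i hi
    have := cenB_shift hx i (m' + 1 - (i + 2)) (by omega)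
    rwa [show i + 2 + (m' + 1 - (i + 2)) = m' + 1 by omega] at this
  have h0 : ∀ k, k < m' + 1 → x 0 * (cenB_pr x (m' + 1) * cenB_pr x k) =
      cenB_pr x (k + 1) * cenB_pr x (m' + 1) := by
    intro k
    induction k with
    | zero => intro _; simp [cenB_pr]
    | succ k ih =>
      intro hk
      calc x 0 * (cenB_pr x (m' + 1) * cenB_pr x (k + 1)) =
            x 0 * (cenB_pr x (m' + 1) * cenB_pr x k) * x k := by
            rw [show cenB_pr x (k + 1) = cenB_pr x k * x k from rfl]
            simp only [mul_assoc]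
        _ = cenB_pr x (k + 1) * (cenB_pr x (m' + 1) * x k) := by
            rw [ih (by omega)]; simp only [mul_assoc]
        _ = cenB_pr x (k + 1) * (x (k + 1) * cenB_pr x (m' + 1)) := by rw [hs k hk]
        _ = cenB_pr x (k + 1 + 1) * cenB_pr x (m' + 1) := by
            rw [show cenB_pr x (k + 1 + 1) = cenB_pr x (k + 1) * x (k + 1) from rfl]
            simp only [mul_assoc]
  obtain ⟨c, hc⟩ : ∃ c, c = cenB_pr x (m' + 1) := ⟨_, rfl⟩
  obtain ⟨P, hP⟩ : ∃ P, P = cenB_pr x m' := ⟨_, rfl⟩
  have hcP : c = P * x m' := by rw [hc, hP]; rfl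
  have e0 : x 0 * (c * P) = c * c := by
    have := h0 m' (by omega)
    rw [← hc, ← hP] at this
    exact this
  have hyP : Commute y P := by
    rw [hP]
    exact cenB_com m' fun i hi => h.comm i (by omega)
  have hfour : x m' * y * x m' * y = y * x m' * y * x m' := h.four
  obtain ⟨δ, hδ⟩ : ∃ δ, δ = c * y := ⟨_, rfl⟩
  have hsδ : ∀ i, i + 1 < m' + 1 → δ * x i = x (i + 1) * δ := by
    intro i hi
    have h1 := hs i hi
    rw [← hc] at h1
    rw [hδ, mul_assoc, h.comm i (by omega), ← mul_assoc, h1, mul_assoc]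
  have h1 : δ ^ 2 * x m' = x 0 * δ ^ 2 := by
    have a1 : δ ^ 2 * x m' = c * c * y * x m' * y := by
      calc δ ^ 2 * x m' = c * y * (c * y) * x m' := by rw [sq, hδ]
        _ = c * (y * P) * (x m' * y * x m') := by
            conv_lhs => rw [hcP]
            rw [hcP]
            simp only [mul_assoc]
        _ = c * (P * y) * (x m' * y * x m') := by rw [hyP.eq]
        _ = c * P * (y * x m' * y * x m') := by simp only [mul_assoc]
        _ = c * P * (x m' * y * x m' * y) := by rw [hfour]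
        _ = c * (P * x m') * y * x m' * y := by simp only [mul_assoc]
        _ = c * c * y * x m' * y := by rw [← hcP]
    have a2 : x 0 * δ ^ 2 = c * c * y * x m' * y := by
      calc x 0 * δ ^ 2 = x 0 * (c * y * (c * y)) := by rw [sq, hδ]
        _ = x 0 * (c * (y * P) * (x m' * y)) := by
            conv_lhs => rw [hcP]
            rw [hcP]
            simp only [mul_assoc]
        _ = x 0 * (c * (P * y) * (x m' * y)) := by rw [hyP.eq]
        _ = x 0 * (c * P) * (y * x m' * y) := by simp only [mul_assoc]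
        _ = c * c * y * x m' * y := by rw [e0]; simp only [mul_assoc]
    rw [a1, a2]
  have h2 : ∀ j k, k + j < m' + 1 → δ ^ j * x k = x (k + j) * δ ^ j := by
    intro j
    induction j with
    | zero => intro k _; simp
    | succ j ih =>
      intro k hk
      calc δ ^ (j + 1) * x k = δ * (δ ^ j * x k) := by rw [pow_succ']; simp only [mul_assoc]
        _ = δ * x (k + j) * δ ^ j := by rw [ih k (by omega)]; simp only [mul_assoc]
        _ = x (k + j + 1) * δ * δ ^ j := by rw [hsδ (k + j) (by omega)]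
        _ = x (k + (j + 1)) * δ ^ (j + 1) := by
            rw [pow_succ' δ j]; simp only [mul_assoc, add_assoc]
  have h3 : ∀ k, k < m' + 1 → δ ^ (m' + 2) * x k = x k * δ ^ (m' + 2) := by
    intro k hk
    have e1 := h2 (m' - k) k (by omega)
    rw [show k + (m' - k) = m' by omega] at e1
    have e2 := h2 k 0 (by omega)
    rw [zero_add] at e2
    have e3 : δ ^ (m' + 2) = δ ^ k * (δ ^ 2 * δ ^ (m' - k)) := by
      rw [← pow_add, ← pow_add]; congr 1; omega
    calc δ ^ (m' + 2) * x k = δ ^ k * (δ ^ 2 * (δ ^ (m' - k) * x k)) := by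
          rw [e3]; simp only [mul_assoc]
      _ = δ ^ k * (δ ^ 2 * x m' * δ ^ (m' - k)) := by rw [e1]; simp only [mul_assoc]
      _ = δ ^ k * x 0 * (δ ^ 2 * δ ^ (m' - k)) := by rw [h1]; simp only [mul_assoc]
      _ = x k * δ ^ (m' + 2) := by rw [e2, e3]; simp only [mul_assoc]
  refine ⟨δ ^ (m' + 2), ?_, fun k hk => h3 k (by omega), ?_, ?_⟩
  · refine Subgroup.pow_mem _ ?_ _
    rw [hδ, hc]
    refine Subgroup.mul_mem _ (cenB_mem _ _ fun i hi => ?_) ?_
    · exact Subgroup.subset_closure (Or.inl ⟨i, (by show i + 1 < m' + 2; omega), rfl⟩)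
    · exact Subgroup.subset_closure (Or.inr rfl)
  · have c1 : Commute (δ ^ (m' + 2)) c := by
      rw [hc]
      exact cenB_com _ fun i hi => h3 i hi
    have c2 : Commute (δ ^ (m' + 2)) δ := (Commute.refl δ).pow_left _
    have c3 : Commute (δ ^ (m' + 2)) (c⁻¹ * δ) := c1.inv_right.mul_right c2
    have c4 : c⁻¹ * δ = y := by rw [hδ, inv_mul_cancel_left]
    rw [c4] at c3
    exact c3.eq
  · intro χ p q hχ hχy
    have hk : ∀ k, k ≤ m' + 1 → χ (cenB_pr x k) = Multiplicative.ofAdd ((k : ℤ) * p) := by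
      intro k
      induction k with
      | zero => intro _; simp [cenB_pr]
      | succ k ih =>
        intro hk
        rw [show cenB_pr x (k + 1) = cenB_pr x k * x k from rfl, map_mul, ih (by omega),
          hχ k (by omega), ← ofAdd_add]
        congr 1
        push_cast
        ring
    rw [map_pow, hδ, map_mul, hχy, hc, hk _ le_rfl, ← ofAdd_add, ← ofAdd_nsmul]
    congr 1
    rw [nsmul_eq_mul]
    push_cast
    ring

end ProfArtin
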