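import Pool.Agent.Work.MP_f6e909_al.Art
import Pool.Agent.Work.MP_f6e909_al.Fun
import Pool.Agent.Work.MP_f6e909_al.ChainA

/-!
# Type `B n`: definitions

`Gb n`: crossing numbers of strands (`v`), winding numbers around the axis (`u`), permutation (`s`).
`Wl n L`: the wreath type product of functions on pairs with values in a group `L` by the symmetric
group.
-/

namespace ProfArtin

/-- A family `x 0, …, x (n - 2)`, `y` with the relations of the Artin group of type `B n`. -/
structure BFam {G : Type} [Group G] (n : ℕ) (x : ℕ → G) (y : G) : Prop where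
  chain : Chain (n - 1) x
  comm : ∀ k, k + 2 < n → y * x k = x k * y
  four : x (n - 2) * y * x (n - 2) * y = y * x (n - 2) * y * x (n - 2)

/-- action on vectors -/
def actU {n : ℕ} (s : Equiv.Perm (Fin n)) (u : Fin n → ℤ) : Fin n → ℤ := fun i => u (s.symm i)

/-- Matrices and vectors, extended by the symmetric group. -/
@[ext]
structure Gb (n : ℕ) where
  v : Fin n → Fin n → ℤ
  u : Fin n → ℤ
  s : Equiv.Perm (Fin n)

namespace Gb

variable {n : ℕ}

instance : Mul (Gb n) := ⟨fun x y => ⟨x.v + act x.s y.v, x.u + actU x.s y.u, x.s * y.s⟩⟩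
instance : One (Gb n) := ⟨⟨0, 0, 1⟩⟩
instance : Inv (Gb n) := ⟨fun x => ⟨-act x.s⁻¹ x.v, -actU x.s⁻¹ x.u, x.s⁻¹⟩⟩

@[simp] theorem mul_v (x y : Gb n) : (x * y).v = x.v + act x.s y.v := rfl
@[simp] theorem mul_u (x y : Gb n) : (x * y).u = x.u + actU x.s y.u := rfl
@[simp] theorem mul_s (x y : Gb n) : (x * y).s = x.s * y.s := rfl
@[simp] theorem one_v : (1 : Gb n).v = 0 := rfl
@[simp] theorem one_u : (1 : Gb n).u = 0 := rfl
@[simp] theorem one_s : (1 : Gb n).s = 1 := rfl
@[simp] theorem inv_v (x : Gb n) : x⁻¹.v = -act x.s⁻¹ x.v := rfl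
@[simp] theorem inv_u (x : Gb n) : x⁻¹.u = -actU x.s⁻¹ x.u := rfl
@[simp] theorem inv_s (x : Gb n) : x⁻¹.s = x.s⁻¹ := rfl

instance : Group (Gb n) where
  mul_assoc x y z := by
    ext
    · simp [act, add_assoc, Equiv.Perm.mul_def]
    · simp [actU, add_assoc, Equiv.Perm.mul_def]
    · simp
  one_mul x := by
    ext
    · simp [act]
      rfl
    · simp [actU]
      rfl
    · simp
  mul_one x := by
    ext
    · simp [act]
    · simp [actU]
    · simp
  inv_mul_cancel x := by
    ext
    · simp [act]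
    · simp [actU]
    · simp

end Gb

/-- the all-one vector -/
def c1 (n : ℕ) : Fin n → ℤ := fun _ => 1

/-- the vector with entry `2` at the last place -/
def e2 (n : ℕ) : Fin n → ℤ := fun i => if i.1 + 1 = n then 2 else 0

/-- image of `x k` -/
def thS (n k : ℕ) : Gb n := ⟨E n k, 0, sw n k⟩

/-- image of `y` -/
def thT (n : ℕ) : Gb n := ⟨0, e2 n, 1⟩

/-- Functions on pairs with values in `L`, extended by the symmetric group. -/
@[ext]
structure Wl (n : ℕ) (L : Type) where
  f : Fin n → Fin n → L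
  s : Equiv.Perm (Fin n)

namespace Wl

variable {n : ℕ} {L : Type} [Group L]

instance : Mul (Wl n L) :=
  ⟨fun x y => ⟨fun i j => x.f i j * y.f (x.s.symm i) (x.s.symm j), x.s * y.s⟩⟩
instance : One (Wl n L) := ⟨⟨fun _ _ => 1, 1⟩⟩
instance : Inv (Wl n L) := ⟨fun x => ⟨fun i j => (x.f (x.s i) (x.s j))⁻¹, x.s⁻¹⟩⟩

@[simp] theorem mul_f (x y : Wl n L) (i j : Fin n) :
    (x * y).f i j = x.f i j * y.f (x.s.symm i) (x.s.symm j) := rfl
@[simp] theorem mul_s (x y : Wl n L) : (x * y).s = x.s * y.s := rfl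
@[simp] theorem one_f (i j : Fin n) : (1 : Wl n L).f i j = 1 := rfl
@[simp] theorem one_s : (1 : Wl n L).s = 1 := rfl
@[simp] theorem inv_f (x : Wl n L) (i j : Fin n) : x⁻¹.f i j = (x.f (x.s i) (x.s j))⁻¹ := rfl
@[simp] theorem inv_s (x : Wl n L) : x⁻¹.s = x.s⁻¹ := rfl

instance : Group (Wl n L) where
  mul_assoc x y z := by
    ext
    · simp [mul_assoc, Equiv.Perm.mul_def]
    · simp
  one_mul x := by
    ext
    · simp
      rfl
    · simp
  mul_one x := by
    ext
    · simp
    · simp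
  inv_mul_cancel x := by
    ext
    · exact inv_mul_cancel _
    · simp

end Wl

/-- The coefficient group: `a b a b = b a b a`, centralizers of nontrivial elements are abelian,
`a` and `b` do not commute, and a homomorphism to the integers with values `1`, `-1`. -/
structure LData (L : Type) [Group L] (a b : L) (d : L →* Multiplicative ℤ) : Prop where
  four : a * b * a * b = b * a * b * a
  ct : ∀ x y z : L, x ≠ 1 → x * y = y * x → x * z = z * x → y * z = z * y
  nc : a * b ≠ b * a
  da : d a = Multiplicative.ofAdd 1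
  db : d b = Multiplicative.ofAdd (-1)

/-- image of `x k` -/
def wlS (n : ℕ) {L : Type} [Group L] (a : L) (k : ℕ) : Wl n L :=
  ⟨fun i j => if (i.1 = k ∧ j.1 = k + 1) ∨ (i.1 = k + 1 ∧ j.1 = k) then a else 1, sw n k⟩

/-- image of `y` -/
def wlT (n : ℕ) {L : Type} [Group L] (b : L) : Wl n L :=
  ⟨fun i j => if i ≠ j ∧ (i.1 + 1 = n ∨ j.1 + 1 = n) then b else 1, 1⟩

/-- Base situation: `G` is generated by a family of type `B n` and a subgroup `B` commuting with
it; `Θ` is the homomorphism of crossing and winding numbers. -/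
structure BaseB {G : Type} [Group G] (n : ℕ) (x : ℕ → G) (y : G) (B : Subgroup G)
    (Θ : G →* Gb n) : Prop where
  hn : 5 ≤ n
  fam : BFam n x y
  hBx : ∀ b ∈ B, ∀ k, k + 1 < n → b * x k = x k * b
  hBy : ∀ b ∈ B, b * y = y * b
  hgen : Subgroup.closure (x '' {k | k + 1 < n} ∪ {y}) ⊔ B = ⊤
  hΘx : ∀ k, k + 1 < n → Θ (x k) = thS n k
  hΘy : Θ y = thT n
  hΘB : ∀ b ∈ B, Θ b = 1

end ProfArtin
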