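import Pool.Agent.Work.MP_f6e909_al.TB.Shape

/-!
# Module Funct (M): values of the functionals

PROOF. All are direct computations of finite sums. `fD p q v` (Fun.lean) is the difference of the
row sums of `v` in the rows `p`, `q`; the row sum of `act σ v` in row `p` is the row sum of `v` in row
`σ.symm p` (`Equiv.sum_comp`). Row sums: `E n 0`: `1` if `i < 2`, else `0`; `tri1 n f g`: row `n - 1`:
`(n - 1) * f`, other rows: `f + (n - 2) * g`.
`fun_two`: both sides are `h - l` times (indicator of `σ.symm p < 2` minus indicator of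
`σ.symm q < 2`). `fun_tri1`: both sides are `2 * (n - 2) * (f - g)` times the difference of the
indicators of `σ.symm p = n - 1`, `σ.symm q = n - 1` (`e2 n` is `2` at `n - 1`); note
`(n - 1) * f - (f + (n - 2) * g) = (n - 2) * (f - g)`. `fun_lst`: similar.
`sum_two`, `tot_tri1`, `sum_lst`, `sum_e2`, `sum_c1`: clear. `fD_last`: rows `0` and `n - 1` of
`E n 0`: `1 - 0`.
-/

namespace ProfArtin

variable {n : ℕ}

private theorem rowact (σ : Equiv.Perm (Fin n)) (v : Fin n → Fin n → ℤ) (p : Fin n) :
    ∑ j, act σ v p j = ∑ j, v (σ.symm p) j := by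
  unfold act
  exact Equiv.sum_comp σ.symm (fun j => v (σ.symm p) j)

private theorem rowE (hn : 2 ≤ n) (i : Fin n) : ∑ j, E n 0 i j = if i.1 < 2 then 1 else 0 := by
  by_cases h0 : i.1 = 0
  · rw [Finset.sum_eq_single (⟨1, by omega⟩ : Fin n)]
    · simp [E, h0]
    · intro j _ hj
      have : j.1 ≠ 1 := fun h => hj (Fin.ext h)
      simp only [E, h0]
      rw [if_neg]
      omega
    · simp
  · by_cases h1 : i.1 = 1
    · rw [Finset.sum_eq_single (⟨0, by omega⟩ : Fin n)]
      · simp [E, h1]
      · intro j _ hj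
        have : j.1 ≠ 0 := fun h => hj (Fin.ext h)
        simp only [E, h1]
        rw [if_neg]
        omega
      · simp
    · rw [if_neg (by omega)]
      apply Finset.sum_eq_zero
      intro j _
      simp only [E]
      rw [if_neg]
      omega

private theorem rowtri1 (hn : 2 ≤ n) (f g : ℤ) (i : Fin n) :
    ∑ j, tri1 n f g i j = if i.1 + 1 = n then ((n : ℤ) - 1) * f else f + ((n : ℤ) - 2) * g := by
  by_cases hi : i.1 + 1 = n
  · rw [if_pos hi, ← Finset.add_sum_erase _ _ (Finset.mem_univ i)]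
    have h1 : tri1 n f g i i = 0 := by simp [tri1]
    have h2 : ∑ j ∈ Finset.univ.erase i, tri1 n f g i j = ∑ _j ∈ Finset.univ.erase i, f := by
      apply Finset.sum_congr rfl
      intro j hj
      have : i ≠ j := fun h => (Finset.mem_erase.mp hj).1 h.symm
      simp only [tri1]
      rw [if_neg this, if_pos (Or.inl hi)]
    rw [h1, h2, Finset.sum_const, Finset.card_erase_of_mem (Finset.mem_univ i),
      Finset.card_univ, Fintype.card_fin, nsmul_eq_mul, Nat.cast_sub (by omega)]
    push_cast
    ring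
  · have hl : n - 1 < n := by omega
    have hne : (⟨n - 1, hl⟩ : Fin n) ≠ i := by
      intro h
      apply hi
      rw [← h]
      show n - 1 + 1 = n
      omega
    rw [if_neg hi, ← Finset.add_sum_erase _ _ (Finset.mem_univ i),
      ← Finset.add_sum_erase (Finset.univ.erase i) _
        (Finset.mem_erase.mpr ⟨hne, Finset.mem_univ _⟩)]
    have h1 : tri1 n f g i i = 0 := by simp [tri1]
    have h3 : tri1 n f g i ⟨n - 1, hl⟩ = f := by
      simp only [tri1]
      rw [if_neg (fun h => hne h.symm), if_pos]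
      right
      omega
    have h2 : ∑ j ∈ (Finset.univ.erase i).erase ⟨n - 1, hl⟩, tri1 n f g i j =
        ∑ _j ∈ (Finset.univ.erase i).erase (⟨n - 1, hl⟩ : Fin n), g := by
      apply Finset.sum_congr rfl
      intro j hj
      have h4 := (Finset.mem_erase.mp hj).1
      have h5 := (Finset.mem_erase.mp (Finset.mem_erase.mp hj).2).1
      simp only [tri1]
      rw [if_neg (fun h => h5 h.symm), if_neg]
      rintro (h | h)
      · exact hi h
      · apply h4
        apply Fin.ext
        show j.1 = n - 1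
        omega
    rw [h1, h2, h3, Finset.sum_const, Finset.card_erase_of_mem
        (Finset.mem_erase.mpr ⟨hne, Finset.mem_univ _⟩),
      Finset.card_erase_of_mem (Finset.mem_univ i),
      Finset.card_univ, Fintype.card_fin, nsmul_eq_mul]
    have : ((n - 1 - 1 : ℕ) : ℤ) = (n : ℤ) - 2 := by omega
    rw [this]
    ring

private theorem sumlst' (hn : 1 ≤ n) (d e : ℤ) :
    ∑ i, lst n d e i = d + ((n : ℤ) - 1) * e := by
  obtain ⟨k, rfl⟩ : ∃ k, n = k + 1 := ⟨n - 1, by omega⟩
  rw [Fin.sum_univ_castSucc]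
  have : ∀ i : Fin k, lst (k + 1) d e i.castSucc = e := by
    intro i
    have := i.2
    simp only [lst, Fin.val_castSucc]
    rw [if_neg (by omega)]
  simp only [this]
  simp only [lst, Finset.sum_const, Finset.card_univ, Fintype.card_fin, nsmul_eq_mul]
  simp
  ring

theorem fun_two (hn : 4 ≤ n) (h l : ℤ) (σ : Equiv.Perm (Fin n)) (p q : Fin n) :
    actU σ (two n h l) p - actU σ (two n h l) q = (h - l) * fD p q (act σ (E n 0)) := by
  unfold fD
  rw [rowact, rowact, rowE (by omega), rowE (by omega)]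
  simp only [actU, two]
  split_ifs <;> ring

theorem fun_tri1 (hn : 4 ≤ n) (f g : ℤ) (σ : Equiv.Perm (Fin n)) (p q : Fin n) :
    2 * fD p q (act σ (tri1 n f g)) =
      ((n : ℤ) - 2) * (f - g) * (actU σ (e2 n) p - actU σ (e2 n) q) := by
  unfold fD
  rw [rowact, rowact, rowtri1 (by omega), rowtri1 (by omega)]
  simp only [actU, e2]
  split_ifs <;> ring

theorem fun_lst (d e : ℤ) (σ : Equiv.Perm (Fin n)) (p q : Fin n) :
    2 * (actU σ (lst n d e) p - actU σ (lst n d e) q) =
      (d - e) * (actU σ (e2 n) p - actU σ (e2 n) q) := by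
  simp only [actU, e2, lst]
  split_ifs <;> ring

theorem sum_two (hn : 2 ≤ n) (h l : ℤ) : ∑ i, two n h l i = 2 * h + ((n : ℤ) - 2) * l := by
  obtain ⟨k, rfl⟩ : ∃ k, n = k + 2 := ⟨n - 2, by omega⟩
  rw [Fin.sum_univ_succ, Fin.sum_univ_succ]
  have : ∀ i : Fin k, two (k + 2) h l i.succ.succ = l := by
    intro i
    simp [two]
  simp only [this]
  simp only [two, Finset.sum_const, Finset.card_univ, Fintype.card_fin, nsmul_eq_mul]
  simp
  ring

theorem tot_tri1 (hn : 2 ≤ n) (f g : ℤ) :
    tot (tri1 n f g) = 2 * ((n : ℤ) - 1) * f + ((n : ℤ) - 1) * (n - 2) * g := by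
  unfold tot
  have h : ∀ i : Fin n, ∑ j, tri1 n f g i j =
      lst n (((n : ℤ) - 1) * f) (f + ((n : ℤ) - 2) * g) i := by
    intro i
    rw [rowtri1 hn]
    rfl
  rw [Finset.sum_congr rfl (fun i _ => h i), sumlst' (by omega)]
  ring

theorem sum_lst (hn : 1 ≤ n) (d e : ℤ) : ∑ i, lst n d e i = d + ((n : ℤ) - 1) * e :=
  sumlst' hn d e

theorem sum_e2 (hn : 1 ≤ n) : ∑ i, e2 n i = 2 := by
  have := sumlst' hn 2 0
  rw [mul_zero, add_zero] at this
  exact this

theorem sum_c1 : ∑ i, c1 n i = (n : ℤ) := by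
  simp [c1]

theorem sum_actU (σ : Equiv.Perm (Fin n)) (u : Fin n → ℤ) : ∑ i, actU σ u i = ∑ i, u i := by
  unfold actU
  exact Equiv.sum_comp σ.symm u

/-- the value needed in the determinant relation -/
theorem fD_last (hn : 4 ≤ n) : fD (⟨0, by omega⟩ : Fin n) ⟨n - 1, by omega⟩ (E n 0) = 1 := by
  unfold fD
  rw [rowE (by omega), rowE (by omega), if_pos (by norm_num), if_neg]
  · norm_num
  · show ¬ n - 1 < 2
    omega

end ProfArtin
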