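import Pool.Agent.Work.MP_f6e909_al.TB.Defs

/-!
# Module LEx (S-M): a coefficient group

PROOF. `L` = the affine group of the line over the rationals: pairs `(r, c)` with `r : ℚˣ`, `c : ℚ`
and `(r, c) * (r', c') = (r * r', c + r * c')` (a structure of your own with a group instance, or
`Matrix`, or `ℚ ⋊ ℚˣ`), `a = (2, 0)`, `b = (-1/2, 1)`, `d (r, c) = padicValRat 2 r`
(a homomorphism: `padicValRat.mul`). Then `a * b = (-1, 2)` has square `1`, and `b * a` is a conjugate
of it, so also has square `1`: `four`. `d a = 1`, `d b = -1`. `a * b = (-1, 2)`, `b * a = (-1, 1)`: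
`nc`. `ct`: `(r, c)` and `(r', c')` commute iff `(r - 1) * c' = (r' - 1) * c`. Let
`x = (r, c) ≠ 1` commute with `y = (r', c')` and `z = (r'', c'')`. If `r ≠ 1`, then
`c' = (r' - 1) * c / (r - 1)`, `c'' = (r'' - 1) * c / (r - 1)`, so
`(r' - 1) * c'' = (r'' - 1) * c'`. If `r = 1`, then `c ≠ 0`, so `r' = 1 = r''` and both sides are `0`.
-/

namespace ProfArtin

/-- the affine group of the rational line -/
@[ext]
private structure LExA where
  r : ℚˣ
  c : ℚ

namespace LExA

private instance : Mul LExA := ⟨fun x y => ⟨x.r * y.r, x.c + x.r * y.c⟩⟩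
private instance : One LExA := ⟨⟨1, 0⟩⟩
private instance : Inv LExA := ⟨fun x => ⟨x.r⁻¹, -((x.r⁻¹ : ℚˣ) : ℚ) * x.c⟩⟩

private theorem mul_r (x y : LExA) : (x * y).r = x.r * y.r := rfl
private theorem mul_c (x y : LExA) : (x * y).c = x.c + x.r * y.c := rfl
private theorem one_r : (1 : LExA).r = 1 := rfl
private theorem one_c : (1 : LExA).c = 0 := rfl
private theorem inv_r (x : LExA) : x⁻¹.r = x.r⁻¹ := rfl
private theorem inv_c (x : LExA) : x⁻¹.c = -((x.r⁻¹ : ℚˣ) : ℚ) * x.c := rfl

private instance : Group LExA where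
  mul_assoc x y z := by
    refine LExA.ext ?_ ?_
    · simp only [mul_r, mul_assoc]
    · simp only [mul_r, mul_c, Units.val_mul]
      ring
  one_mul x := by
    refine LExA.ext ?_ ?_
    · simp only [mul_r, one_r, one_mul]
    · simp only [mul_c, one_r, one_c, Units.val_one]
      ring
  mul_one x := by
    refine LExA.ext ?_ ?_
    · simp only [mul_r, one_r, mul_one]
    · simp only [mul_c, one_c]
      ring
  inv_mul_cancel x := by
    refine LExA.ext ?_ ?_
    · simp only [mul_r, inv_r, one_r, inv_mul_cancel]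
    · simp only [mul_c, inv_r, inv_c, one_c]
      ring

private theorem comm_iff (x y : LExA) :
    x * y = y * x ↔ ((x.r : ℚ) - 1) * y.c = ((y.r : ℚ) - 1) * x.c := by
  constructor
  · intro h
    have h1 := congrArg LExA.c h
    rw [mul_c, mul_c] at h1
    linear_combination h1
  · intro h
    refine LExA.ext ?_ ?_
    · rw [mul_r, mul_r, mul_comm]
    · rw [mul_c, mul_c]
      linear_combination h

private theorem one_iff (x : LExA) : x = 1 ↔ (x.r : ℚ) = 1 ∧ x.c = 0 := by
  constructor
  · rintro rfl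
    exact ⟨by rw [one_r, Units.val_one], one_c⟩
  · rintro ⟨h1, h2⟩
    refine LExA.ext ?_ ?_
    · rw [one_r]
      exact Units.ext h1
    · rw [one_c, h2]

private theorem ct (x y z : LExA) (hx : x ≠ 1) (hxy : x * y = y * x) (hxz : x * z = z * x) :
    y * z = z * y := by
  rw [comm_iff] at hxy hxz ⊢
  by_cases hr : (x.r : ℚ) = 1
  · have hc : x.c ≠ 0 := fun h => hx ((one_iff x).2 ⟨hr, h⟩)
    rw [hr, sub_self, zero_mul] at hxy hxz
    have h1 : (y.r : ℚ) - 1 = 0 := (mul_eq_zero.1 hxy.symm).resolve_right hc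
    have h2 : (z.r : ℚ) - 1 = 0 := (mul_eq_zero.1 hxz.symm).resolve_right hc
    rw [h1, h2]
    ring
  · have h1 : (x.r : ℚ) - 1 ≠ 0 := sub_ne_zero.2 hr
    refine mul_left_cancel₀ h1 ?_
    linear_combination ((y.r : ℚ) - 1) * hxz - ((z.r : ℚ) - 1) * hxy

end LExA

theorem lData_exists : ∃ (L : Type) (_ : Group L) (a b : L) (d : L →* Multiplicative ℤ),
    LData L a b d := by
  have h2 : (2 : ℚ) ≠ 0 := by norm_num
  have h3 : (-1 / 2 : ℚ) ≠ 0 := by norm_num
  refine ⟨LExA, inferInstance, ⟨Units.mk0 2 h2, 0⟩, ⟨Units.mk0 (-1 / 2) h3, 1⟩,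
    MonoidHom.mk' (fun x => Multiplicative.ofAdd (padicValRat 2 (x.r : ℚ))) ?_, ?_⟩
  · intro x y
    rw [← ofAdd_add]
    congr 1
    rw [LExA.mul_r, Units.val_mul]
    exact padicValRat.mul (Units.ne_zero _) (Units.ne_zero _)
  · refine ⟨?_, LExA.ct, ?_, ?_, ?_⟩
    · refine LExA.ext ?_ ?_
      · simp only [LExA.mul_r]
        exact Units.ext (by norm_num)
      · simp only [LExA.mul_r, LExA.mul_c, Units.val_mul, Units.val_mk0]
        norm_num
    · intro h
      rw [LExA.comm_iff] at h
      simp only [Units.val_mk0] at h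
      norm_num at h
    · show Multiplicative.ofAdd (padicValRat 2 (2 : ℚ)) = _
      congr 1
      have := padicValRat.self (p := 2) (by norm_num)
      exact_mod_cast this
    · show Multiplicative.ofAdd (padicValRat 2 (-1 / 2 : ℚ)) = _
      congr 1
      have h4 : (-1 / 2 : ℚ) = -(2 : ℚ)⁻¹ := by norm_num
      have h5 := padicValRat.self (p := 2) (by norm_num)
      rw [h4, padicValRat.neg, padicValRat.inv]
      have h6 : padicValRat 2 (2 : ℚ) = 1 := by exact_mod_cast h5
      rw [h6]

end ProfArtin
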