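import Pool.Agent.Work.MP_f6e909_al.TB.Defs

/-!
# Module Lift (M): Artin groups with a component of type `B n`

PROOF. `b_fam`: as `fold_of_foldType` in Fam.lean: `art_rel` with the entries `3` (neighbours
`k, k + 1 < n - 1`), `2` (other pairs) and `4` (the pair `n - 2`, `n - 1`) of `CoxeterMatrix.B n`
(Mathlib: the entry is `4` if `{i, j} = {n - 1, n - 2}`, else `3` if `i`, `j` are consecutive, else
`2`); `alt_two`, `alt_three`, and `alt a b 4 = a * b * a * b` by `simp [alt, mul_assoc]`.
`b_lift`: `art_lift` with `f s = if hs : s ∈ T then (x or y at the index of e.symm ⟨s, hs⟩) else 1`,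
as `theta_exists` in Fam.lean. Pairs inside `T`: the relations `BFam` (symmetric in the two
generators: `alt` of length `2`, `3`, `4`); one generator in `T` and one outside: entry `2`
(`hcomm`, and `M.symmetric`) and one of the two images is `1`; both outside: `alt 1 1 m = 1`.
-/

namespace ProfArtin

variable {S : Type}

/-- the generator number `k` of the component of type `B n` (`1` if `k ≥ n`) -/
def bx (M : CoxeterMatrix S) (T : Set S) {n : ℕ} (e : Fin n ≃ T) (k : ℕ) : ArtinGroup M :=
  if h : k < n then gen M (e ⟨k, h⟩) else 1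

private theorem lift_alt_four {X : Type} [Monoid X] (a b : X) : alt a b 4 = a * b * a * b := by
  simp [alt, mul_assoc]

private theorem lift_ent {n i j : ℕ} (hi : i < n) (hj : j < n) (hij : i ≠ j) :
    CoxeterMatrix.B n ⟨i, hi⟩ ⟨j, hj⟩ =
      if i = n - 1 ∧ j = n - 2 ∨ j = n - 1 ∧ i = n - 2 then 4
      else if j + 1 = i ∨ i + 1 = j then 3 else 2 := by
  have h1 : (⟨i, hi⟩ : Fin n) ≠ ⟨j, hj⟩ := fun h => hij (Fin.mk.inj h)
  simp only [CoxeterMatrix.B, Matrix.of_apply, if_neg h1]

private theorem lift_rel (M : CoxeterMatrix S) (T : Set S) {n : ℕ} (e : Fin n ≃ T)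
    (he : ∀ i j, M (e i) (e j) = CoxeterMatrix.B n i j) {i j m : ℕ} (hi : i < n) (hj : j < n)
    (hij : i ≠ j) (hm : (if i = n - 1 ∧ j = n - 2 ∨ j = n - 1 ∧ i = n - 2 then 4
      else if j + 1 = i ∨ i + 1 = j then 3 else 2) = m) (hm0 : m ≠ 0) :
    alt (bx M T e i) (bx M T e j) m = alt (bx M T e j) (bx M T e i) m := by
  have h1 : ((e ⟨i, hi⟩ : T) : S) ≠ (e ⟨j, hj⟩ : T) := by
    intro h
    exact hij (Fin.mk.inj (e.injective (Subtype.ext h)))
  have h2 : M (e ⟨i, hi⟩) (e ⟨j, hj⟩) = m := by
    rw [he, lift_ent hi hj hij, hm]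
  have h3 := art_rel M h1 (by rw [h2]; exact hm0)
  rw [h2] at h3
  unfold bx
  rw [dif_pos hi, dif_pos hj]
  exact h3

theorem b_fam (M : CoxeterMatrix S) (T : Set S) {n : ℕ} (hn : 2 ≤ n) (e : Fin n ≃ T)
    (he : ∀ i j, M (e i) (e j) = CoxeterMatrix.B n i j) :
    BFam n (bx M T e) (bx M T e (n - 1)) := by
  refine ⟨⟨?_, ?_⟩, ?_, ?_⟩
  · intro i j hij hj
    have h1 := lift_rel M T e he (i := i) (j := j) (m := 2) (by omega) (by omega) (by omega)
      (by rw [if_neg (by omega), if_neg (by omega)]) (by norm_num)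
    rw [alt_two, alt_two] at h1
    exact h1
  · intro i hi
    have h1 := lift_rel M T e he (i := i) (j := i + 1) (m := 3) (by omega) (by omega) (by omega)
      (by rw [if_neg (by omega), if_pos (by omega)]) (by norm_num)
    rw [alt_three, alt_three] at h1
    exact h1
  · intro k hk
    have h1 := lift_rel M T e he (i := n - 1) (j := k) (m := 2) (by omega) (by omega) (by omega)
      (by rw [if_neg (by omega), if_neg (by omega)]) (by norm_num)
    rw [alt_two, alt_two] at h1
    exact h1
  · have h1 := lift_rel M T e he (i := n - 2) (j := n - 1) (m := 4) (by omega) (by omega)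
      (by omega) (by rw [if_pos (by omega)]) (by norm_num)
    rw [lift_alt_four, lift_alt_four] at h1
    exact h1

private theorem lift_lt {X : Type} [Group X] {n : ℕ} {x : ℕ → X} {y : X}
    (h : BFam n x y) {i j : ℕ} (hi : i < n) (hj : j < n) (hij : i < j) :
    alt (if i = n - 1 then y else x i) (if j = n - 1 then y else x j)
      (CoxeterMatrix.B n ⟨i, hi⟩ ⟨j, hj⟩) =
    alt (if j = n - 1 then y else x j) (if i = n - 1 then y else x i)
      (CoxeterMatrix.B n ⟨i, hi⟩ ⟨j, hj⟩) := by
  rw [lift_ent hi hj (by omega), if_neg (by omega : ¬ i = n - 1)]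
  by_cases h1 : j = n - 1
  · rw [if_pos h1]
    by_cases h2 : i = n - 2
    · rw [if_pos (by omega), lift_alt_four, lift_alt_four, h2]
      exact h.four
    · rw [if_neg (by omega), if_neg (by omega), alt_two, alt_two]
      exact (h.comm i (by omega)).symm
  · rw [if_neg h1, if_neg (by omega)]
    by_cases h2 : i + 1 = j
    · rw [if_pos (by omega), alt_three, alt_three, ← h2]
      exact h.chain.braid i (by omega)
    · rw [if_neg (by omega), alt_two, alt_two]
      exact h.chain.comm i j (by omega) (by omega)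

theorem b_lift {X : Type} [Group X] (M : CoxeterMatrix S) (T : Set S)
    (hcomm : ∀ s ∈ T, ∀ t ∉ T, M s t = 2) {n : ℕ} (hn : 2 ≤ n) (e : Fin n ≃ T)
    (he : ∀ i j, M (e i) (e j) = CoxeterMatrix.B n i j) {x : ℕ → X} {y : X}
    (h : BFam n x y) :
    ∃ F : ArtinGroup M →* X, (∀ k, k + 1 < n → F (bx M T e k) = x k) ∧
      F (bx M T e (n - 1)) = y ∧ ∀ s, s ∉ T → F (gen M s) = 1 := by
  classical
  set g : Fin n → X := fun i => if i.1 = n - 1 then y else x i.1 with hg
  set f : S → X := fun s => if hs : s ∈ T then g (e.symm ⟨s, hs⟩) else 1 with hf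
  have hfe : ∀ i, f (e i) = g i := by
    intro i
    simp only [hf]
    rw [dif_pos (e i).2]
    simp
  have hfn : ∀ s, s ∉ T → f s = 1 := by
    intro s hs
    simp only [hf]
    rw [dif_neg hs]
  obtain ⟨F, hF⟩ := art_lift (X := X) M f (by
    intro s t hst _
    by_cases hs : s ∈ T
    · by_cases ht : t ∈ T
      · obtain ⟨i, hi⟩ := e.surjective ⟨s, hs⟩
        obtain ⟨j, hj⟩ := e.surjective ⟨t, ht⟩
        have h3 : ((e i : T) : S) = s := by rw [hi]
        have h4 : ((e j : T) : S) = t := by rw [hj]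
        have hij : i ≠ j := by
          rintro rfl
          exact hst (h3.symm.trans h4)
        rw [← h3, ← h4, he, hfe, hfe]
        rcases Nat.lt_trichotomy i.1 j.1 with h5 | h5 | h5
        · exact lift_lt h i.2 j.2 h5
        · exact absurd (Fin.ext h5) hij
        · rw [(CoxeterMatrix.B n).symmetric]
          exact (lift_lt h j.2 i.2 h5).symm
      · rw [hcomm s hs t ht, alt_two, alt_two, hfn t ht, mul_one, one_mul]
    · by_cases ht : t ∈ T
      · rw [M.symmetric, hcomm t ht s hs, alt_two, alt_two, hfn s hs, mul_one, one_mul]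
      · rw [hfn s hs, hfn t ht])
  refine ⟨F, ?_, ?_, fun s hs => by rw [hF, hfn s hs]⟩
  · intro k hk
    unfold bx
    rw [dif_pos (by omega), hF, hfe]
    simp only [hg]
    rw [if_neg (by omega)]
  · unfold bx
    rw [dif_pos (by omega), hF, hfe]
    simp only [hg]
    rw [if_true]

end ProfArtin
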