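import Pool.Agent.Work.MP_f6e909_al.TB.Base

/-!
# Module Link (M): the homomorphism to `Wl n L` and the crossing numbers; central elements

PROOF. `base_link`: the set of `g` with the four properties is a subgroup (multiplication: with
`σ = (Ψ g).s = (Θ g).s`, `(Ψ (g * h)).f i j = (Ψ g).f i j * (Ψ h).f (σ.symm i) (σ.symm j)`,
`(Θ (g * h)).v i j = (Θ g).v i j + (Θ h).v (σ.symm i) (σ.symm j)`, the same for `u`; `d` is a
homomorphism to `Multiplicative ℤ`; `σ.symm i ≠ σ.symm j` if `i ≠ j`; inverse: similar). Generators: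
`x k`: at the pair `{k, k + 1}` the value is `a`, `2 * 1 = 2 * 1 - 0 - 0`, at other pairs
`0 = 0`; `y`: at pairs containing `n - 1` the value is `b`, `2 * (-1) = 0 - 2 - 0` (the vector `e2 n`
has entry `2` at `n - 1` and `0` elsewhere), at other pairs `0 = 0`; `b' ∈ B`: `0 = 0`.
Use `base_top`.
`base_center`: let `w` be central. (1) `(Θ w).s` commutes with all permutations (`base_surj`), so it
is `1` (as the private lemma `perm_center` of Final.lean, `n ≥ 3`). (2) `(Θ w).v` and `(Θ w).u` are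
invariant under all permutations (`gb_comm_inv`), so `(Θ w).v = p • ones n` (`inv_ones`,
`base_symm`) and `(Θ w).u = q • c1 n` (swap two points). By `base_even` the integer `q` is even,
`q = 2 * m`. (3) Let `i`, `j` be the points `n - 2`, `n - 1` and `F = (Ψ w).f`. Since `w` commutes with
`x (n - 2)`: `F i j * a = a * F j i = a * F i j`; with `y`: `F i j * b = b * F i j` (all with
`(Ψ w).s = 1`, `base_link`). If `F i j ≠ 1`, `hL.ct` gives `a * b = b * a`, against `hL.nc`. So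
`F i j = 1`, and `base_link` at `(i, j)` gives `0 = 2 * p - q - q`, `p = q = 2 * m`.
(4) `Ψ w = 1`: for `p' ≠ q'` take `g` with `(Θ g).s i = p'`, `(Θ g).s j = q'` (`base_surj`, a
permutation with these two values exists); evaluate `g * w = w * g` at `(p', q')`:
`(Ψ g).f p' q' * F i j = F p' q' * (Ψ g).f p' q'`, so `F p' q' = 1`; the diagonal by `base_link`.
-/

namespace ProfArtin

variable {G : Type} [Group G] {n : ℕ} {x : ℕ → G} {y : G} {B : Subgroup G} {Θ : G →* Gb n}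
  {L : Type} [Group L] {a b : L} {d : L →* Multiplicative ℤ}

private theorem link_perm_center {n : ℕ} (hn : 3 ≤ n) (s : Equiv.Perm (Fin n))
    (h : ∀ r, s * r = r * s) : s = 1 := by
  by_contra hs
  obtain ⟨p, hp⟩ : ∃ p, s p ≠ p := by
    by_contra hc
    push Not at hc
    exact hs (Equiv.ext hc)
  obtain ⟨q, hq1, hq2⟩ : ∃ q : Fin n, q ≠ p ∧ q ≠ s p := by
    by_contra hc
    push Not at hc
    have h1 : (Finset.univ : Finset (Fin n)) ⊆ {p, s p} := by
      intro q _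
      by_cases hq : q = p
      · simp [hq]
      · simp [hc q hq]
    have h2 := Finset.card_le_card h1
    have h3 := Finset.card_le_two (a := p) (b := s p)
    rw [Finset.card_univ, Fintype.card_fin] at h2
    omega
  have h1 := congrArg (fun r : Equiv.Perm (Fin n) => r p) (h (Equiv.swap (s p) q))
  simp only [Equiv.Perm.mul_apply] at h1
  rw [Equiv.swap_apply_of_ne_of_ne (Ne.symm hp) (Ne.symm hq1), Equiv.swap_apply_left] at h1
  exact hq2 h1.symm

private theorem link_perm_two {n : ℕ} {i j p q : Fin n} (hij : i ≠ j) (hpq : p ≠ q) :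
    ∃ r : Equiv.Perm (Fin n), r i = p ∧ r j = q := by
  have h1 : Equiv.swap i p j ≠ p := by
    intro h
    have h2 : Equiv.swap i p i = p := Equiv.swap_apply_left i p
    exact hij ((Equiv.swap i p).injective (h2.trans h.symm))
  refine ⟨Equiv.swap (Equiv.swap i p j) q * Equiv.swap i p, ?_, ?_⟩
  · rw [Equiv.Perm.mul_apply, Equiv.swap_apply_left,
      Equiv.swap_apply_of_ne_of_ne h1.symm hpq]
  · rw [Equiv.Perm.mul_apply, Equiv.swap_apply_left]

/-- the properties of Link -/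
private def LinkP (Θ : G →* Gb n) (Ψ : G →* Wl n L) (d : L →* Multiplicative ℤ) (g : G) : Prop :=
  (Ψ g).s = (Θ g).s ∧ (∀ i, (Ψ g).f i i = 1) ∧ (∀ i j, (Ψ g).f i j = (Ψ g).f j i) ∧
      ∀ i j, i ≠ j → 2 * Multiplicative.toAdd (d ((Ψ g).f i j)) =
        2 * (Θ g).v i j - (Θ g).u i - (Θ g).u j

private theorem link_one (Ψ : G →* Wl n L) (g : G) (h1 : Ψ g = 1) (h2 : Θ g = 1) :
    LinkP Θ Ψ d g := by
  refine ⟨by rw [h1, h2]; rfl, fun i => by rw [h1]; rfl, fun i j => by rw [h1]; rfl, ?_⟩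
  intro i j _
  rw [h1, h2, Wl.one_f, map_one, Gb.one_v, Gb.one_u]
  simp

private theorem link_mul (Ψ : G →* Wl n L) (g h : G) (hg : LinkP Θ Ψ d g) (hh : LinkP Θ Ψ d h) :
    LinkP Θ Ψ d (g * h) := by
  obtain ⟨g1, g2, g3, g4⟩ := hg
  obtain ⟨h1, h2, h3, h4⟩ := hh
  refine ⟨?_, ?_, ?_, ?_⟩
  · rw [map_mul, map_mul, Wl.mul_s, Gb.mul_s, g1, h1]
  · intro i
    rw [map_mul, Wl.mul_f, g2, h2, one_mul]
  · intro i j
    rw [map_mul, Wl.mul_f, Wl.mul_f, g3 i j, h3 _ _]
  · intro i j hij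
    rw [map_mul, map_mul, Wl.mul_f, map_mul, toAdd_mul, Gb.mul_v, Gb.mul_u, g1]
    have hne : (Θ g).s.symm i ≠ (Θ g).s.symm j := fun he => hij ((Θ g).s.symm.injective he)
    have e1 := g4 i j hij
    have e2 := h4 _ _ hne
    have e3 : ((Θ g).v + act (Θ g).s (Θ h).v) i j =
        (Θ g).v i j + (Θ h).v ((Θ g).s.symm i) ((Θ g).s.symm j) := rfl
    have e4 : ∀ i, ((Θ g).u + actU (Θ g).s (Θ h).u) i =
        (Θ g).u i + (Θ h).u ((Θ g).s.symm i) := fun _ => rfl
    rw [e3, e4, e4]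
    linarith

private theorem link_inv (Ψ : G →* Wl n L) (g : G) (hg : LinkP Θ Ψ d g) :
    LinkP Θ Ψ d g⁻¹ := by
  obtain ⟨g1, g2, g3, g4⟩ := hg
  refine ⟨?_, ?_, ?_, ?_⟩
  · rw [map_inv, map_inv, Wl.inv_s, Gb.inv_s, g1]
  · intro i
    rw [map_inv, Wl.inv_f, g2, inv_one]
  · intro i j
    rw [map_inv, Wl.inv_f, Wl.inv_f, g3 _ _]
  · intro i j hij
    rw [map_inv, map_inv, Wl.inv_f, map_inv, toAdd_inv, Gb.inv_v, Gb.inv_u, g1]
    have hne : (Θ g).s i ≠ (Θ g).s j := fun he => hij ((Θ g).s.injective he)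
    have e2 := g4 _ _ hne
    have e3 : (-act (Θ g).s⁻¹ (Θ g).v) i j = -(Θ g).v ((Θ g).s i) ((Θ g).s j) := rfl
    have e4 : ∀ i, (-actU (Θ g).s⁻¹ (Θ g).u) i = -(Θ g).u ((Θ g).s i) := fun _ => rfl
    rw [e3, e4, e4]
    linarith

private theorem link_x (hL : LData L a b d) (Ψ : G →* Wl n L) (g : G) (k : ℕ)
    (h1 : Ψ g = wlS n a k) (h2 : Θ g = thS n k) : LinkP Θ Ψ d g := by
  refine ⟨by rw [h1, h2]; rfl, ?_, ?_, ?_⟩
  · intro i
    rw [h1]
    show (if (i.1 = k ∧ i.1 = k + 1) ∨ (i.1 = k + 1 ∧ i.1 = k) then a else 1) = 1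
    rw [if_neg (by omega)]
  · intro i j
    rw [h1]
    show (if (i.1 = k ∧ j.1 = k + 1) ∨ (i.1 = k + 1 ∧ j.1 = k) then a else 1) =
      (if (j.1 = k ∧ i.1 = k + 1) ∨ (j.1 = k + 1 ∧ i.1 = k) then a else 1)
    by_cases h : (i.1 = k ∧ j.1 = k + 1) ∨ (i.1 = k + 1 ∧ j.1 = k)
    · rw [if_pos h, if_pos (by omega)]
    · rw [if_neg h, if_neg (by omega)]
  · intro i j hij
    rw [h1, h2]
    show 2 * Multiplicative.toAdd
        (d (if (i.1 = k ∧ j.1 = k + 1) ∨ (i.1 = k + 1 ∧ j.1 = k) then a else 1)) =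
      2 * (if (i.1 = k ∧ j.1 = k + 1) ∨ (i.1 = k + 1 ∧ j.1 = k) then 1 else 0) - 0 - 0
    by_cases h : (i.1 = k ∧ j.1 = k + 1) ∨ (i.1 = k + 1 ∧ j.1 = k)
    · rw [if_pos h, if_pos h, hL.da, toAdd_ofAdd]
      norm_num
    · rw [if_neg h, if_neg h, map_one, toAdd_one]
      norm_num

private theorem link_y (hL : LData L a b d) (Ψ : G →* Wl n L) (g : G)
    (h1 : Ψ g = wlT n b) (h2 : Θ g = thT n) : LinkP Θ Ψ d g := by
  refine ⟨by rw [h1, h2]; rfl, ?_, ?_, ?_⟩
  · intro i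
    rw [h1]
    show (if i ≠ i ∧ (i.1 + 1 = n ∨ i.1 + 1 = n) then b else 1) = 1
    rw [if_neg (fun h => h.1 rfl)]
  · intro i j
    rw [h1]
    show (if i ≠ j ∧ (i.1 + 1 = n ∨ j.1 + 1 = n) then b else 1) =
      (if j ≠ i ∧ (j.1 + 1 = n ∨ i.1 + 1 = n) then b else 1)
    by_cases h : i ≠ j ∧ (i.1 + 1 = n ∨ j.1 + 1 = n)
    · rw [if_pos h, if_pos ⟨h.1.symm, h.2.symm⟩]
    · rw [if_neg h, if_neg fun h' => h ⟨h'.1.symm, h'.2.symm⟩]
  · intro i j hij
    rw [h1, h2]
    show 2 * Multiplicative.toAdd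
        (d (if i ≠ j ∧ (i.1 + 1 = n ∨ j.1 + 1 = n) then b else 1)) =
      2 * 0 - (if i.1 + 1 = n then 2 else 0) - (if j.1 + 1 = n then 2 else 0)
    have hij' : i.1 ≠ j.1 := fun he => hij (Fin.ext he)
    by_cases hi : i.1 + 1 = n
    · have hj : ¬ (j.1 + 1 = n) := by omega
      rw [if_pos ⟨hij, Or.inl hi⟩, if_pos hi, if_neg hj, hL.db, toAdd_ofAdd]
      norm_num
    · by_cases hj : j.1 + 1 = n
      · rw [if_pos ⟨hij, Or.inr hj⟩, if_neg hi, if_pos hj, hL.db, toAdd_ofAdd]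
        norm_num
      · rw [if_neg (fun h => h.2.elim hi hj), if_neg hi, if_neg hj, map_one, toAdd_one]
        norm_num

theorem base_link (H : BaseB n x y B Θ) (hL : LData L a b d) (Ψ : G →* Wl n L)
    (hx : ∀ k, k + 1 < n → Ψ (x k) = wlS n a k) (hy : Ψ y = wlT n b) (hB : ∀ b' ∈ B, Ψ b' = 1)
    (g : G) :
    (Ψ g).s = (Θ g).s ∧ (∀ i, (Ψ g).f i i = 1) ∧ (∀ i j, (Ψ g).f i j = (Ψ g).f j i) ∧
      ∀ i j, i ≠ j → 2 * Multiplicative.toAdd (d ((Ψ g).f i j)) =
        2 * (Θ g).v i j - (Θ g).u i - (Θ g).u j := by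
  let S : Subgroup G :=
    { carrier := {g | LinkP Θ Ψ d g}
      one_mem' := link_one Ψ 1 (map_one _) (map_one _)
      mul_mem' := fun {g h} hg hh => link_mul Ψ g h hg hh
      inv_mem' := fun {g} hg => link_inv Ψ g hg }
  have hS : g ∈ S := base_top H S
    (fun k hk => link_x hL Ψ (x k) k (hx k hk) (H.hΘx k hk))
    (link_y hL Ψ y hy H.hΘy) (fun b' hb' => link_one Ψ b' (hB b' hb') (H.hΘB b' hb')) g
  exact hS

theorem base_center (H : BaseB n x y B Θ) (hL : LData L a b d) (Ψ : G →* Wl n L)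
    (hx : ∀ k, k + 1 < n → Ψ (x k) = wlS n a k) (hy : Ψ y = wlT n b) (hB : ∀ b' ∈ B, Ψ b' = 1)
    {w : G} (hw : w ∈ Subgroup.center G) :
    (∃ m : ℤ, Θ w = ⟨(2 * m) • ones n, (2 * m) • c1 n, 1⟩) ∧ Ψ w = 1 := by
  have hn := H.hn
  have hc : ∀ g, g * w = w * g := Subgroup.mem_center_iff.1 hw
  have hlink := base_link H hL Ψ hx hy hB
  have hs1 : (Θ w).s = 1 := by
    refine link_perm_center (by omega) _ fun r => ?_
    obtain ⟨g, -, hg⟩ := base_surj H r
    rw [← hg, ← Gb.mul_s, ← Gb.mul_s, ← map_mul, ← map_mul, hc g]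
  have hΨs : (Ψ w).s = 1 := (hlink w).1.trans hs1
  have hinv : ∀ r, act r (Θ w).v = (Θ w).v ∧ actU r (Θ w).u = (Θ w).u := by
    intro r
    obtain ⟨g, -, hg⟩ := base_surj H r
    have h1 := gb_comm_inv (Θ g) (Θ w) hs1 (by rw [← map_mul, ← map_mul, hc g])
    rwa [hg] at h1
  obtain ⟨p, hp⟩ := inv_ones (n := n) (by omega) (Θ w).v (base_symm H w).1 fun r => (hinv r).1
  set i : Fin n := ⟨n - 2, by omega⟩ with hi
  set j : Fin n := ⟨n - 1, by omega⟩ with hj
  have hij : i ≠ j := by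
    intro h
    have := congrArg Fin.val h
    simp only [hi, hj] at this
    omega
  have hu : ∀ k, (Θ w).u k = (Θ w).u i := by
    intro k
    have h1 := congrFun (hinv (Equiv.swap i k)).2 k
    have h2 : actU (Equiv.swap i k) (Θ w).u k = (Θ w).u ((Equiv.swap i k).symm k) := rfl
    rw [h2, Equiv.symm_swap, Equiv.swap_apply_right] at h1
    exact h1.symm
  obtain ⟨v', w', -, hw'⟩ := base_even H w hs1
  have hui : (Θ w).u i = 2 * w' i := by
    rw [hw']
    simp
  -- the value at the pair `(i, j)`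
  have hx2 : (Ψ w).f i j * a = a * (Ψ w).f i j := by
    have h1 : Ψ (x (n - 2)) * Ψ w = Ψ w * Ψ (x (n - 2)) := by
      rw [← map_mul, ← map_mul, hc]
    have h2 := congrArg (fun t : Wl n L => t.f i j) h1
    simp only [Wl.mul_f] at h2
    rw [hΨs, hx (n - 2) (by omega)] at h2
    have h3 : (wlS n a (n - 2)).f i j = a := by
      show (if (i.1 = n - 2 ∧ j.1 = n - 2 + 1) ∨ (i.1 = n - 2 + 1 ∧ j.1 = n - 2) then a else 1) = a
      rw [if_pos (Or.inl ⟨rfl, by show n - 1 = n - 2 + 1; omega⟩)]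
    have h4 : (wlS n a (n - 2)).s = Equiv.swap i j := by
      show sw n (n - 2) = _
      unfold sw
      rw [dif_pos (by omega : n - 2 + 1 < n)]
      congr 1
      apply Fin.ext
      simp only [hj]
      omega
    have h5 : (wlS n a (n - 2)).f ((1 : Equiv.Perm (Fin n)).symm i)
        ((1 : Equiv.Perm (Fin n)).symm j) = a := h3
    rw [h5, h3, h4, Equiv.symm_swap, Equiv.swap_apply_left, Equiv.swap_apply_right,
      (hlink w).2.2.1 j i] at h2
    exact h2.symm
  have hy2 : (Ψ w).f i j * b = b * (Ψ w).f i j := by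
    have h1 : Ψ y * Ψ w = Ψ w * Ψ y := by
      rw [← map_mul, ← map_mul, hc]
    have h2 := congrArg (fun t : Wl n L => t.f i j) h1
    simp only [Wl.mul_f] at h2
    rw [hΨs, hy] at h2
    have h3 : (wlT n b).f i j = b := by
      show (if i ≠ j ∧ (i.1 + 1 = n ∨ j.1 + 1 = n) then b else 1) = b
      rw [if_pos]
      refine ⟨hij, Or.inr ?_⟩
      simp only [hj]
      omega
    have h5 : (wlT n b).f ((1 : Equiv.Perm (Fin n)).symm i)
        ((1 : Equiv.Perm (Fin n)).symm j) = b := h3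
    have h6 : (Ψ w).f ((wlT n b).s.symm i) ((wlT n b).s.symm j) = (Ψ w).f i j := rfl
    rw [h5, h3, h6] at h2
    exact h2.symm
  have hF : (Ψ w).f i j = 1 := by
    by_contra hne
    exact hL.nc (hL.ct _ a b hne hx2 hy2)
  have hpq : p = 2 * w' i := by
    have h1 := (hlink w).2.2.2 i j hij
    rw [hF, map_one, toAdd_one, hp, hu j, hui] at h1
    have h2 : (p • ones n) i j = p := by
      simp [ones, hij]
    rw [h2] at h1
    linarith
  refine ⟨⟨w' i, ?_⟩, ?_⟩
  · ext1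
    · show (Θ w).v = (2 * w' i) • ones n
      rw [hp, hpq]
    · show (Θ w).u = (2 * w' i) • c1 n
      funext k
      rw [hu k, hui]
      simp [c1]
    · exact hs1
  · ext1
    · funext p' q'
      show (Ψ w).f p' q' = 1
      by_cases hpq' : p' = q'
      · rw [hpq']
        exact (hlink w).2.1 q'
      · obtain ⟨r, hr1, hr2⟩ := link_perm_two hij hpq'
        obtain ⟨g, -, hg⟩ := base_surj H r
        have h1 : Ψ g * Ψ w = Ψ w * Ψ g := by rw [← map_mul, ← map_mul, hc]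
        have h2 := congrArg (fun t : Wl n L => t.f p' q') h1
        simp only [Wl.mul_f] at h2
        have h3 : (Ψ g).s = r := (hlink g).1.trans hg
        have h4 : r.symm p' = i := by rw [← hr1, Equiv.symm_apply_apply]
        have h5 : r.symm q' = j := by rw [← hr2, Equiv.symm_apply_apply]
        have h6 : (Ψ g).f ((1 : Equiv.Perm (Fin n)).symm p') ((1 : Equiv.Perm (Fin n)).symm q') =
          (Ψ g).f p' q' := rfl
        rw [hΨs, h3, h4, h5, hF, mul_one, h6] at h2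
        have h7 : 1 * (Ψ g).f p' q' = (Ψ w).f p' q' * (Ψ g).f p' q' := by rw [one_mul]; exact h2
        exact (mul_right_cancel h7).symm
    · exact hΨs

end ProfArtin
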