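import Pool.Agent.Work.MP_f6e909_al.TB.Base

/-!
# Module Trans (M): the transfer principle

PROOF. `L₁ 0 0 = 0`, `L₁ (-v) (-u) = -L₁ v u` and the same for `L₂` follow from additivity. Let `P` be
the set of `g` with `(Θ g).s = 1`, `(Φ g).s = 1` and, for all `σ`,
`L₁ (act σ (Φ g).v) (actU σ (Φ g).u) = L₂ (act σ (Θ g).v) (actU σ (Θ g).u)`. It is a subgroup
(`act`, `actU` are additive and `act 1`, `actU 1` are the identity). It is normal: by `gb_conj`
`(Φ (h * g * h⁻¹)).v = act (Φ h).s (Φ g).v` etc., and `(Φ h).s = (Θ h).s` for all `h` (the two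
homomorphisms to the permutations agree on `x k`, `y` and `B`; `base_top` with the equalizer), so the
condition for `h * g * h⁻¹` at `σ` is the condition for `g` at `σ * (Θ h).s` (`act_mul`, the same
for `actU`). It contains `x 0 * x 0` (`h0`: `Θ (x 0 * x 0) = ⟨2 • E n 0, 0, 1⟩`, `gam_sq`), `y` (`h1`,
`act σ 0 = 0`) and `B` (`hB`: both sides are `0`). `base_ker` gives `g ∈ P`; take `σ = 1`.
(Model: `five_functional` in FiveA.lean.)
-/

namespace ProfArtin

variable {G : Type} [Group G] {n : ℕ} {x : ℕ → G} {y : G} {B : Subgroup G} {Θ Φ : G →* Gb n}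

/-- the projection to the permutations -/
private def transB_p (n : ℕ) : Gb n →* Equiv.Perm (Fin n) where
  toFun w := w.s
  map_one' := rfl
  map_mul' _ _ := rfl

private theorem transB_u0 (σ : Equiv.Perm (Fin n)) : actU σ (0 : Fin n → ℤ) = 0 := rfl

private theorem transB_v0 (σ : Equiv.Perm (Fin n)) : act σ (0 : Fin n → Fin n → ℤ) = 0 := rfl

private theorem transB_uadd (σ : Equiv.Perm (Fin n)) (u u' : Fin n → ℤ) :
    actU σ (u + u') = actU σ u + actU σ u' := rfl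

private theorem transB_uneg (σ : Equiv.Perm (Fin n)) (u : Fin n → ℤ) :
    actU σ (-u) = -actU σ u := rfl

private theorem transB_umul (σ τ : Equiv.Perm (Fin n)) (u : Fin n → ℤ) :
    actU (σ * τ) u = actU σ (actU τ u) := rfl

private theorem transB_uone (u : Fin n → ℤ) : actU 1 u = u := rfl

private theorem transB_zero (L : (Fin n → Fin n → ℤ) → (Fin n → ℤ) → ℤ)
    (ha : ∀ v v' u u', L (v + v') (u + u') = L v u + L v' u') : L 0 0 = 0 := by
  have h := ha 0 0 0 0
  rw [add_zero, add_zero] at h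
  linarith

private theorem transB_neg (L : (Fin n → Fin n → ℤ) → (Fin n → ℤ) → ℤ)
    (ha : ∀ v v' u u', L (v + v') (u + u') = L v u + L v' u') (v : Fin n → Fin n → ℤ)
    (u : Fin n → ℤ) : L (-v) (-u) = -L v u := by
  have h := ha v (-v) u (-u)
  rw [add_neg_cancel, add_neg_cancel, transB_zero L ha] at h
  linarith

theorem transB (H : BaseB n x y B Θ) (hsx : ∀ k, k + 1 < n → (Φ (x k)).s = sw n k)
    (hsy : (Φ y).s = 1) (L₁ L₂ : (Fin n → Fin n → ℤ) → (Fin n → ℤ) → ℤ)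
    (ha₁ : ∀ v v' u u', L₁ (v + v') (u + u') = L₁ v u + L₁ v' u')
    (ha₂ : ∀ v v' u u', L₂ (v + v') (u + u') = L₂ v u + L₂ v' u')
    (h0 : ∀ σ, L₁ (act σ (Φ (x 0 * x 0)).v) (actU σ (Φ (x 0 * x 0)).u) =
      L₂ (act σ ((2 : ℤ) • E n 0)) 0)
    (h1 : ∀ σ, L₁ (act σ (Φ y).v) (actU σ (Φ y).u) = L₂ 0 (actU σ (e2 n)))
    (hB : ∀ b ∈ B, (Φ b).s = 1 ∧ ∀ σ, L₁ (act σ (Φ b).v) (actU σ (Φ b).u) = 0)
    (g : G) (hg : (Θ g).s = 1) :
    (Φ g).s = 1 ∧ L₁ (Φ g).v (Φ g).u = L₂ (Θ g).v (Θ g).u := by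
  have hn := H.hn
  have hsame : ∀ h, (Φ h).s = (Θ h).s := by
    intro h
    refine base_top H (((transB_p n).comp Φ).eqLocus ((transB_p n).comp Θ)) ?_ ?_ ?_ h
    · intro k hk
      show (Φ (x k)).s = (Θ (x k)).s
      rw [hsx k hk, H.hΘx k hk]
      rfl
    · show (Φ y).s = (Θ y).s
      rw [hsy, H.hΘy]
      rfl
    · intro b hb
      show (Φ b).s = (Θ b).s
      rw [(hB b hb).1, H.hΘB b hb]
      rfl
  let P : Subgroup G :=
    { carrier := {g | (Φ g).s = 1 ∧ (Θ g).s = 1 ∧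
        ∀ σ, L₁ (act σ (Φ g).v) (actU σ (Φ g).u) = L₂ (act σ (Θ g).v) (actU σ (Θ g).u)}
      mul_mem' := by
        rintro g g' ⟨h1, h2, h3⟩ ⟨k1, k2, k3⟩
        refine ⟨by rw [map_mul, Gb.mul_s, h1, k1, one_mul],
          by rw [map_mul, Gb.mul_s, h2, k2, one_mul], ?_⟩
        intro σ
        rw [map_mul, map_mul, Gb.mul_v, Gb.mul_v, Gb.mul_u, Gb.mul_u, h1, h2, act_one, act_one,
          transB_uone, transB_uone, act_add, act_add, transB_uadd, transB_uadd, ha₁, ha₂, h3, k3]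
      one_mem' := by
        refine ⟨by rw [map_one]; rfl, by rw [map_one]; rfl, ?_⟩
        intro σ
        rw [map_one, map_one, Gb.one_v, Gb.one_u, transB_v0, transB_u0, transB_zero L₁ ha₁,
          transB_zero L₂ ha₂]
      inv_mem' := by
        rintro g ⟨h1, h2, h3⟩
        refine ⟨by rw [map_inv, Gb.inv_s, h1, inv_one],
          by rw [map_inv, Gb.inv_s, h2, inv_one], ?_⟩
        intro σ
        rw [map_inv, map_inv, Gb.inv_v, Gb.inv_v, Gb.inv_u, Gb.inv_u, h1, h2, inv_one, act_one,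
          act_one, transB_uone, transB_uone, act_neg, act_neg, transB_uneg, transB_uneg,
          transB_neg L₁ ha₁, transB_neg L₂ ha₂, h3] }
  have hPn : P.Normal := by
    constructor
    rintro g ⟨h1, h2, h3⟩ h
    obtain ⟨a1, a2, a3⟩ := gb_conj (Φ h) (Φ g) h1
    obtain ⟨b1, b2, b3⟩ := gb_conj (Θ h) (Θ g) h2
    refine ⟨?_, ?_, ?_⟩
    · rw [map_mul, map_mul, map_inv]
      exact a3
    · rw [map_mul, map_mul, map_inv]
      exact b3
    · intro σ
      rw [map_mul, map_mul, map_inv, map_mul, map_mul, map_inv, a1, a2, b1, b2, hsame h,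
        ← act_mul, ← act_mul, ← transB_umul, ← transB_umul]
      exact h3 _
  have hsw : sw n 0 * sw n 0 = 1 := by
    unfold sw
    rw [dif_pos (by omega)]
    exact Equiv.swap_mul_self _ _
  have m0 : x 0 * x 0 ∈ P := by
    have e1 : (Θ (x 0 * x 0)).v = (2 : ℤ) • E n 0 := by
      rw [map_mul, H.hΘx 0 (by omega)]
      exact congrArg Gam.v (gam_sq (n := n) (k := 0) (by omega))
    have e2 : (Θ (x 0 * x 0)).u = 0 := by
      rw [map_mul, H.hΘx 0 (by omega)]
      rfl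
    refine ⟨?_, ?_, ?_⟩
    · rw [map_mul, Gb.mul_s, hsx 0 (by omega), hsw]
    · rw [map_mul, Gb.mul_s, H.hΘx 0 (by omega)]
      exact hsw
    · intro σ
      rw [e1, e2, transB_u0]
      exact h0 σ
  have m1 : y ∈ P := by
    refine ⟨hsy, ?_, ?_⟩
    · rw [H.hΘy]
      rfl
    · intro σ
      rw [H.hΘy]
      exact h1 σ
  have m2 : B ≤ P := by
    intro b hb
    refine ⟨(hB b hb).1, ?_, ?_⟩
    · rw [H.hΘB b hb]
      rfl
    · intro σ
      rw [(hB b hb).2 σ, H.hΘB b hb, Gb.one_v, Gb.one_u, transB_v0, transB_u0,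
        transB_zero L₂ ha₂]
  obtain ⟨q1, _, q3⟩ := base_ker H P hPn m0 m1 m2 g hg
  refine ⟨q1, ?_⟩
  have := q3 1
  rwa [act_one, act_one, transB_uone, transB_uone] at this

end ProfArtin
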