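import Pool.Agent.Work.MP_f6e909_al.TB.Funct
import Pool.Agent.Work.MP_f6e909_al.TB.Trans

/-!
# Module RelD (M): the determinant relation

PROOF. Let `p = 0`, `q = n - 1` (as elements of `Fin n`) and, for `w : Gb n`, `X₁ w = fD p q w.v`,
`X₂ w = w.u p - w.u q`. Put `α = a + (n - 4) * b - (n - 3) * c`, `β = f - g`, `γ = h - l`,
`δ = d - e`. For all `g` with `(Θ g).s = 1` (`transB` for `Φ`):
(1) `X₁ (Φ g) = α * X₁ (Θ g) + (n - 2) * β * X₂ (Θ g)`: `L₁ v u = fD p q v`,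
`L₂ v u = α * fD p q v + (n - 2) * β * (u p - u q)`; `h0` is `fD_tri`, `h1` is `fun_tri1`;
(2) `X₂ (Φ g) = γ * X₁ (Θ g) + δ * X₂ (Θ g)`: `L₁ v u = u p - u q`,
`L₂ v u = γ * fD p q v + δ * (u p - u q)`; `h0` is `fun_two`, `h1` is `fun_lst`.
(`hB`: `fD p q (ones n) = 0` (`fD_ones`), `c1` is constant; `fD_add`, `fD_smul`.)
If `(Θ g).s = 1`, then `(Φ g).s = 1` and by `hrange` there is `g'` with `X i (Φ g) = κ * X i (Θ g')`
and `(Θ g').s = 1` (`ones n` and `c1 n` are killed); `X i (Θ g')` is even (`base_even`). Conversely,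
for `g'` with `(Θ g').s = 1` there is `g` with `X i (Φ g) = κ * X i (Θ g')` and `(Θ g).s =
(Φ g).s = 1` (`hypS_same`).
`g = x 0 * x 0`: `X (Θ g) = (2, 0)` (`fD_last`, `gam_sq`); so
`(2 * α, 2 * γ) = κ * (2 * w₁₁, 2 * w₁₂)`. `g = y`: `X (Θ g) = (0, -2)`; so
`(-2 * (n - 2) * β, -2 * δ) = κ * (2 * w₂₁, 2 * w₂₂)`. Hence `α = κ * w₁₁`, `γ = κ * w₁₂`,
`(n - 2) * β = κ * w'₂₁`, `δ = κ * w'₂₂`. Conversely with `g' = x 0 * x 0` and `g' = y` there are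
integers `r₁, r₂, s₁, s₂` (halves of `X (Θ g)`) with
`α * r₁ + (n - 2) * β * r₂ = κ`, `γ * r₁ + δ * r₂ = 0`,
`α * s₁ + (n - 2) * β * s₂ = 0`, `γ * s₁ + δ * s₂ = -κ`. Cancel `κ ≠ 0`: the integral matrices
`(w₁₁, w'₂₁; w₁₂, w'₂₂)` and `(r₁, s₁; r₂, s₂)` have product `diag (1, -1)`, so
`(w₁₁ * w'₂₂ - w'₂₁ * w₁₂) * (r₁ * s₂ - s₁ * r₂) = -1` and
`w₁₁ * w'₂₂ - w'₂₁ * w₁₂ = 1` or `-1`. Multiply by `κ ^ 2`.
-/

namespace ProfArtin

variable {G : Type} [Group G] {n : ℕ} {x : ℕ → G} {y : G} {B : Subgroup G} {Θ Φ : G →* Gb n}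
  {κ : ℤ} {z : G}

private theorem rd_zero (p q : Fin n) : fD p q (0 : Fin n → Fin n → ℤ) = 0 := by
  unfold fD
  simp

private theorem rd_actU (σ : Equiv.Perm (Fin n)) (c : ℤ) (u : Fin n → ℤ) (i : Fin n) :
    actU σ (c • u) i = c * actU σ u i := rfl

private theorem rd_sq (hn : 2 ≤ n) (H : BaseB n x y B Θ) :
    Θ (x 0 * x 0) = ⟨(2 : ℤ) • E n 0, 0, 1⟩ := by
  have h := gam_sq (n := n) (k := 0) (by omega)
  have h1 := congrArg Gam.v h
  have h2 := congrArg Gam.s h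
  rw [map_mul, H.hΘx 0 (by omega)]
  refine Gb.ext ?_ ?_ ?_
  · exact h1
  · rfl
  · exact h2

/-- the two linear relations -/
private theorem rd_lin (H : HypS n x y B Θ Φ κ z) {a b c h l f g d e : ℤ}
    (hW : Φ (x 0 * x 0) = ⟨(2 : ℤ) • tri n a b c, (2 : ℤ) • two n h l, 1⟩)
    (hV : Φ y = ⟨(2 : ℤ) • tri1 n f g, (2 : ℤ) • lst n d e, 1⟩) (p q : Fin n) (w : G)
    (hw : (Θ w).s = 1) :
    fD p q (Φ w).v = (a + ((n : ℤ) - 4) * b - ((n : ℤ) - 3) * c) * fD p q (Θ w).v +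
        ((n : ℤ) - 2) * (f - g) * ((Θ w).u p - (Θ w).u q) ∧
      (Φ w).u p - (Φ w).u q = (h - l) * fD p q (Θ w).v + (d - e) * ((Θ w).u p - (Θ w).u q) := by
  have hn := H.hyp.base.hn
  constructor
  · refine (transB H.hyp.base H.hsx H.hsy (fun v _ => fD p q v)
      (fun v u => (a + ((n : ℤ) - 4) * b - ((n : ℤ) - 3) * c) * fD p q v +
        ((n : ℤ) - 2) * (f - g) * (u p - u q)) ?_ ?_ ?_ ?_ ?_ w hw).2
    · intro v v' u u'
      exact fD_add p q v v'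
    · intro v v' u u'
      simp only [fD_add, Pi.add_apply]
      ring
    · intro σ
      rw [hW]
      simp only [act_smul, fD_smul, fD_tri (show 4 ≤ n by omega), Pi.zero_apply]
      ring
    · intro σ
      rw [hV]
      have h1 := fun_tri1 (show 4 ≤ n by omega) f g σ p q
      simp only [act_smul, fD_smul, rd_zero]
      rw [h1]
      ring
    · intro b' hb'
      obtain ⟨c', hc'⟩ := H.hsB b' hb'
      rw [hc']
      refine ⟨rfl, fun σ => ?_⟩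
      simp only [act_smul, fD_smul, act_ones, fD_ones, mul_zero]
  · refine (transB H.hyp.base H.hsx H.hsy (fun _ u => u p - u q)
      (fun v u => (h - l) * fD p q v + (d - e) * (u p - u q)) ?_ ?_ ?_ ?_ ?_ w hw).2
    · intro v v' u u'
      simp only [Pi.add_apply]
      ring
    · intro v v' u u'
      simp only [fD_add, Pi.add_apply]
      ring
    · intro σ
      rw [hW]
      have h1 := fun_two (show 4 ≤ n by omega) h l σ p q
      simp only [act_smul, fD_smul, rd_actU, Pi.zero_apply]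
      linear_combination 2 * h1
    · intro σ
      rw [hV]
      have h1 := fun_lst d e σ p q
      simp only [rd_actU, rd_zero]
      linear_combination h1
    · intro b' hb'
      obtain ⟨c', hc'⟩ := H.hsB b' hb'
      rw [hc']
      refine ⟨rfl, fun σ => ?_⟩
      simp only [rd_actU]
      show c' * 1 - c' * 1 = 0
      ring

/-- the values on the elements with trivial permutation are even -/
private theorem rd_even (H : BaseB n x y B Θ) (p q : Fin n) (w : G) (hw : (Θ w).s = 1) :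
    ∃ r₁ r₂ : ℤ, fD p q (Θ w).v = 2 * r₁ ∧ (Θ w).u p - (Θ w).u q = 2 * r₂ := by
  obtain ⟨v, u, hv, hu⟩ := base_even H w hw
  refine ⟨fD p q v, u p - u q, ?_, ?_⟩
  · rw [hv, fD_smul]
  · rw [hu]
    simp only [Pi.smul_apply, smul_eq_mul]
    ring

private theorem rd_to (H : HypS n x y B Θ Φ κ z) (p q : Fin n) (w : G) (hw : (Θ w).s = 1) :
    ∃ r₁ r₂ : ℤ, fD p q (Φ w).v = κ * (2 * r₁) ∧ (Φ w).u p - (Φ w).u q = κ * (2 * r₂) := by
  obtain ⟨w', k, hk⟩ := (H.hyp.hrange (Φ w)).1 ⟨w, rfl⟩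
  have hs : (Θ w').s = 1 := by
    have h1 := congrArg Gb.s hk
    rw [hypS_same H, hw] at h1
    exact h1.symm
  obtain ⟨r₁, r₂, h1, h2⟩ := rd_even H.hyp.base p q w' hs
  refine ⟨r₁, r₂, ?_, ?_⟩
  · rw [hk]
    simp only [fD_add, fD_smul, fD_ones, h1]
    ring
  · rw [hk, ← h2]
    simp only [Pi.add_apply, Pi.smul_apply, smul_eq_mul, c1]
    ring

private theorem rd_fro (H : HypS n x y B Θ Φ κ z) (p q : Fin n) (w : G) (hw : (Θ w).s = 1) :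
    ∃ w' : G, (Θ w').s = 1 ∧ fD p q (Φ w').v = κ * fD p q (Θ w).v ∧
      (Φ w').u p - (Φ w').u q = κ * ((Θ w).u p - (Θ w).u q) := by
  obtain ⟨w', hw'⟩ := (H.hyp.hrange _).2 ⟨w, 0, rfl⟩
  refine ⟨w', ?_, ?_, ?_⟩
  · rw [← hypS_same H, hw']
    exact hw
  · rw [hw']
    simp only [fD_add, fD_smul, fD_ones]
    ring
  · rw [hw']
    simp only [Pi.add_apply, Pi.smul_apply, smul_eq_mul, c1]
    ring

private theorem rd_alg {κ α β γ δ r₁ r₂ s₁ s₂ a₁ a₂ b₁ b₂ : ℤ} (hκ : κ ≠ 0)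
    (h1 : α * 2 = κ * (2 * a₁)) (h2 : γ * 2 = κ * (2 * a₂))
    (h3 : β * (-2) = κ * (2 * b₁)) (h4 : δ * (-2) = κ * (2 * b₂))
    (h5 : α * (2 * r₁) + β * (2 * r₂) = κ * 2) (h6 : γ * (2 * r₁) + δ * (2 * r₂) = 0)
    (h7 : α * (2 * s₁) + β * (2 * s₂) = 0) (h8 : γ * (2 * s₁) + δ * (2 * s₂) = κ * (-2)) :
    α * δ - β * γ = κ ^ 2 ∨ α * δ - β * γ = -κ ^ 2 := by
  have e1 : α = κ * a₁ := by linarith
  have e2 : γ = κ * a₂ := by linarith
  have e3 : β = κ * (-b₁) := by linarith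
  have e4 : δ = κ * (-b₂) := by linarith
  subst e1 e2 e3 e4
  have f5 : a₁ * r₁ + (-b₁) * r₂ = 1 := by
    apply mul_left_cancel₀ (mul_ne_zero hκ (two_ne_zero (α := ℤ)))
    linarith
  have f6 : a₂ * r₁ + (-b₂) * r₂ = 0 := by
    apply mul_left_cancel₀ (mul_ne_zero hκ (two_ne_zero (α := ℤ)))
    linarith
  have f7 : a₁ * s₁ + (-b₁) * s₂ = 0 := by
    apply mul_left_cancel₀ (mul_ne_zero hκ (two_ne_zero (α := ℤ)))
    linarith
  have f8 : a₂ * s₁ + (-b₂) * s₂ = -1 := by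
    apply mul_left_cancel₀ (mul_ne_zero hκ (two_ne_zero (α := ℤ)))
    linarith
  have f9 : (a₁ * (-b₂) - (-b₁) * a₂) * (r₁ * s₂ - s₁ * r₂) = -1 := by
    have : (a₁ * (-b₂) - (-b₁) * a₂) * (r₁ * s₂ - s₁ * r₂) =
        (a₁ * r₁ + (-b₁) * r₂) * (a₂ * s₁ + (-b₂) * s₂) -
          (a₁ * s₁ + (-b₁) * s₂) * (a₂ * r₁ + (-b₂) * r₂) := by ring
    rw [this, f5, f6, f7, f8]
    norm_num
  have f10 : (a₁ * (-b₂) - (-b₁) * a₂) * (-(r₁ * s₂ - s₁ * r₂)) = 1 := by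
    rw [mul_neg, f9, neg_neg]
  have f11 : κ * a₁ * (κ * (-b₂)) - κ * (-b₁) * (κ * a₂) =
      κ ^ 2 * (a₁ * (-b₂) - (-b₁) * a₂) := by ring
  rw [f11]
  rcases Int.eq_one_or_neg_one_of_mul_eq_one f10 with h | h
  · left
    rw [h, mul_one]
  · right
    rw [h]
    ring

theorem relD (H : HypS n x y B Θ Φ κ z) {a b c h l f g d e : ℤ}
    (hW : Φ (x 0 * x 0) = ⟨(2 : ℤ) • tri n a b c, (2 : ℤ) • two n h l, 1⟩)
    (hV : Φ y = ⟨(2 : ℤ) • tri1 n f g, (2 : ℤ) • lst n d e, 1⟩) :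
    (a + ((n : ℤ) - 4) * b - ((n : ℤ) - 3) * c) * (d - e) - ((n : ℤ) - 2) * (f - g) * (h - l) =
        κ ^ 2 ∨
      (a + ((n : ℤ) - 4) * b - ((n : ℤ) - 3) * c) * (d - e) - ((n : ℤ) - 2) * (f - g) * (h - l) =
        -κ ^ 2 := by
  have hn := H.hyp.base.hn
  have hsq := rd_sq (by omega) H.hyp.base
  have hx0 : (Θ (x 0 * x 0)).s = 1 := by rw [hsq]
  have hy0 : (Θ y).s = 1 := by
    rw [H.hyp.base.hΘy]
    rfl
  have hlast := fD_last (n := n) (by omega)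
  generalize hp : (⟨0, by omega⟩ : Fin n) = p at hlast
  generalize hq : (⟨n - 1, by omega⟩ : Fin n) = q at hlast
  have v1 : fD p q (Θ (x 0 * x 0)).v = 2 := by
    rw [hsq]
    show fD p q ((2 : ℤ) • E n 0) = 2
    rw [fD_smul, hlast, mul_one]
  have v2 : (Θ (x 0 * x 0)).u p - (Θ (x 0 * x 0)).u q = 0 := by
    rw [hsq]
    show (0 : ℤ) - 0 = 0
    ring
  have v3 : fD p q (Θ y).v = 0 := by
    rw [H.hyp.base.hΘy]
    exact rd_zero p q
  have v4 : (Θ y).u p - (Θ y).u q = -2 := by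
    rw [H.hyp.base.hΘy, ← hp, ← hq]
    show (if (0 : ℕ) + 1 = n then (2 : ℤ) else 0) - (if n - 1 + 1 = n then (2 : ℤ) else 0) = -2
    rw [if_neg (by omega), if_pos (by omega)]
    norm_num
  obtain ⟨a₁, a₂, g1, g2⟩ := rd_to H p q _ hx0
  obtain ⟨b₁, b₂, g3, g4⟩ := rd_to H p q _ hy0
  obtain ⟨w₁, hw₁, g5, g6⟩ := rd_fro H p q _ hx0
  obtain ⟨w₂, hw₂, g7, g8⟩ := rd_fro H p q _ hy0
  obtain ⟨r₁, r₂, k1, k2⟩ := rd_even H.hyp.base p q _ hw₁
  obtain ⟨s₁, s₂, k3, k4⟩ := rd_even H.hyp.base p q _ hw₂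
  obtain ⟨l1, l2⟩ := rd_lin H hW hV p q _ hx0
  obtain ⟨l3, l4⟩ := rd_lin H hW hV p q _ hy0
  obtain ⟨l5, l6⟩ := rd_lin H hW hV p q _ hw₁
  obtain ⟨l7, l8⟩ := rd_lin H hW hV p q _ hw₂
  rw [v1, v2] at l1 l2
  rw [v3, v4] at l3 l4
  rw [k1, k2] at l5 l6
  rw [k3, k4] at l7 l8
  rw [g1] at l1
  rw [g2] at l2
  rw [g3] at l3
  rw [g4] at l4
  rw [g5, v1] at l5
  rw [g6, v2] at l6
  rw [g7, v3] at l7
  rw [g8, v4] at l8
  have fin := rd_alg (κ := κ) (α := a + ((n : ℤ) - 4) * b - ((n : ℤ) - 3) * c)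
    (β := ((n : ℤ) - 2) * (f - g)) (γ := h - l) (δ := d - e) (r₁ := r₁) (r₂ := r₂) (s₁ := s₁)
    (s₂ := s₂) (a₁ := a₁) (a₂ := a₂) (b₁ := b₁) (b₂ := b₂) H.hyp.hκ
    (by linear_combination -l1) (by linear_combination -l2) (by linear_combination -l3)
    (by linear_combination -l4) (by linear_combination -l5) (by linear_combination -l6)
    (by linear_combination -l7) (by linear_combination -l8)
  exact fin

end ProfArtin
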