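import Pool.Agent.Work.MP_f6e909_al.TB.Funct
import Pool.Agent.Work.MP_f6e909_al.TB.Trans

/-!
# Module RelE (M): the relation from the central element

PROOF. Let `r` be the retraction (`H.hyp.hret`) and `Φ' = Φ.comp r`; it agrees with `Φ` on
`closure (x '' .. ∪ {y})`, in particular `Φ' z = Φ z = ⟨2 • ones n, 2 • c1 n, 1⟩`, and `Φ' b' = 1` for
`b' ∈ B`. Apply `transB` to `Φ'` and `g = z` (`(Θ z).s = 1` by `hm`) twice.
(1) `L₁ v u = 2 * tot v`,
`L₂ v u = (2 * a + 4 * (n - 2) * b + (n - 2) * (n - 3) * c) * tot v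
   + 2 * (2 * (n - 1) * f + (n - 1) * (n - 2) * g) * ∑ i, u i`.
`h0`: `2 * tot (2 • tri n a b c) = 4 * tot (tri ..)`, `tot (2 • E n 0) = 4`, `tot_tri`;
`h1`: `2 * tot (2 • tri1 n f g) = 4 * tot (tri1 ..)`, `∑ e2 = 2`, `tot_tri1`. (`tot_act`,
`sum_actU`.) At `z`: `4 * n * (n - 1) = (..) * (2 * m * n * (n - 1)) + 2 * (..) * (2 * m * n)`;
divide by `2 * n * (n - 1)`.
(2) `L₁ v u = 2 * ∑ i, u i`,
`L₂ v u = (2 * h + (n - 2) * l) * tot v + 2 * (d + (n - 1) * e) * ∑ i, u i` (`sum_two`, `sum_lst`).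
At `z`: `4 * n = (..) * (2 * m * n * (n - 1)) + 2 * (..) * (2 * m * n)`; divide by `2 * n`.
-/

namespace ProfArtin

variable {G : Type} [Group G] {n : ℕ} {x : ℕ → G} {y : G} {B : Subgroup G} {Θ Φ : G →* Gb n}
  {κ : ℤ} {z : G}

private theorem re_tot_zero : tot (0 : Fin n → Fin n → ℤ) = 0 := by simp [tot]

private theorem re_act_zero (s : Equiv.Perm (Fin n)) : act s (0 : Fin n → Fin n → ℤ) = 0 := rfl

private theorem re_actU_zero (s : Equiv.Perm (Fin n)) : actU s (0 : Fin n → ℤ) = 0 := rfl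

private theorem re_sum_smul (c : ℤ) (u : Fin n → ℤ) : ∑ i, (c • u) i = c * ∑ i, u i := by
  simp [Finset.mul_sum]

private theorem re_sum_add (u w : Fin n → ℤ) : ∑ i, (u + w) i = ∑ i, u i + ∑ i, w i := by
  simp [Finset.sum_add_distrib]

private theorem re_sum_zero : ∑ i, (0 : Fin n → ℤ) i = 0 := by simp

/-- the value of an affine functional at the central element -/
private theorem re_main (H : HypS n x y B Θ Φ κ z) {v₀ v₁ : Fin n → Fin n → ℤ}
    {u₀ u₁ : Fin n → ℤ} (hW : Φ (x 0 * x 0) = ⟨(2 : ℤ) • v₀, (2 : ℤ) • u₀, 1⟩)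
    (hV : Φ y = ⟨(2 : ℤ) • v₁, (2 : ℤ) • u₁, 1⟩) (m : ℤ)
    (hm : Θ z = ⟨(2 * m) • ones n, (2 * m) • c1 n, 1⟩) (α β P Q : ℤ)
    (h0 : 2 * (α * tot v₀ + β * ∑ i, u₀ i) = 4 * P)
    (h1 : 2 * (α * tot v₁ + β * ∑ i, u₁ i) = 2 * Q) :
    2 * (α * ((n : ℤ) * (n - 1)) + β * n) = 2 * m * (P * ((n : ℤ) * (n - 1)) + Q * n) := by
  obtain ⟨r, hrx, hry, hrB⟩ := H.hyp.hret
  have hn := H.hyp.base.hn
  have hrz : ∀ w ∈ Subgroup.closure (x '' {k | k + 1 < n} ∪ {y}), r w = w := by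
    intro w hw
    have h2 : Subgroup.closure (x '' {k | k + 1 < n} ∪ {y}) ≤ r.eqLocus (MonoidHom.id G) := by
      rw [Subgroup.closure_le]
      rintro _ (⟨k, hk, rfl⟩ | hy)
      · exact hrx k hk
      · rw [Set.mem_singleton_iff] at hy
        rw [hy]
        exact hry
    exact h2 hw
  have h2 := transB (Φ := Φ.comp r) H.hyp.base (fun k hk => by
      rw [MonoidHom.comp_apply, hrx k hk]
      exact H.hsx k hk) (by rw [MonoidHom.comp_apply, hry]; exact H.hsy)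
    (fun v u => α * tot v + β * ∑ i, u i) (fun v u => P * tot v + Q * ∑ i, u i)
    (fun v v' u u' => by simp only [tot_add, re_sum_add]; ring)
    (fun v v' u u' => by simp only [tot_add, re_sum_add]; ring)
    (fun σ => by
      have e : (Φ.comp r) (x 0 * x 0) = Φ (x 0 * x 0) := by
        rw [MonoidHom.comp_apply, map_mul, hrx 0 (by omega)]
      rw [e, hW]
      simp only [tot_act, sum_actU, tot_smul, re_sum_smul]
      rw [tot_E (by omega), re_sum_zero]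
      linarith)
    (fun σ => by
      have e : (Φ.comp r) y = Φ y := by rw [MonoidHom.comp_apply, hry]
      rw [e, hV]
      simp only [tot_act, sum_actU, tot_smul, re_sum_smul]
      rw [re_tot_zero, sum_e2 (by omega)]
      linarith)
    (fun b hb => by
      have e : (Φ.comp r) b = 1 := by rw [MonoidHom.comp_apply, hrB b hb, map_one]
      rw [e]
      refine ⟨rfl, fun σ => ?_⟩
      simp only [Gb.one_v, Gb.one_u, re_act_zero, re_actU_zero]
      rw [re_tot_zero, re_sum_zero]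
      ring)
    z (by rw [hm])
  have e : (Φ.comp r) z = Φ z := by rw [MonoidHom.comp_apply, hrz z H.hyp.hzT]
  have h3 := h2.2
  rw [e, H.hyp.hΦz, hm] at h3
  simp only [tot_smul, re_sum_smul, tot_ones, sum_c1] at h3
  linarith

theorem relE (H : HypS n x y B Θ Φ κ z) {a b c h l f g d e : ℤ}
    (hW : Φ (x 0 * x 0) = ⟨(2 : ℤ) • tri n a b c, (2 : ℤ) • two n h l, 1⟩)
    (hV : Φ y = ⟨(2 : ℤ) • tri1 n f g, (2 : ℤ) • lst n d e, 1⟩) :
    ∃ m : ℤ, 2 = m * (2 * a + 4 * ((n : ℤ) - 2) * b + ((n : ℤ) - 2) * (n - 3) * c + 4 * f +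
        2 * ((n : ℤ) - 2) * g) ∧
      2 = m * (((n : ℤ) - 1) * (2 * h + ((n : ℤ) - 2) * l) + 2 * (d + ((n : ℤ) - 1) * e)) := by
  have hn := H.hyp.base.hn
  obtain ⟨m, hm⟩ := H.hyp.hm
  have hn1 : (5 : ℤ) ≤ n := by exact_mod_cast hn
  refine ⟨m, ?_, ?_⟩
  · have h1 := re_main H hW hV m hm 2 0
      (2 * a + 4 * ((n : ℤ) - 2) * b + ((n : ℤ) - 2) * (n - 3) * c)
      (2 * (2 * ((n : ℤ) - 1) * f + ((n : ℤ) - 1) * (n - 2) * g))
      (by rw [tot_tri (by omega)]; ring) (by rw [tot_tri1 (by omega)]; ring)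
    have h2 : (2 * (n : ℤ) * (n - 1)) * 2 = (2 * (n : ℤ) * (n - 1)) *
        (m * (2 * a + 4 * ((n : ℤ) - 2) * b + ((n : ℤ) - 2) * (n - 3) * c + 4 * f +
        2 * ((n : ℤ) - 2) * g)) := by linear_combination h1
    have h3 : (2 * (n : ℤ) * (n - 1)) ≠ 0 := by
      have : (0 : ℤ) < 2 * (n : ℤ) * (n - 1) := by
        apply mul_pos <;> linarith
      exact this.ne'
    exact mul_left_cancel₀ h3 h2
  · have h1 := re_main H hW hV m hm 0 2 (2 * h + ((n : ℤ) - 2) * l)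
      (2 * (d + ((n : ℤ) - 1) * e))
      (by rw [sum_two (by omega)]; ring) (by rw [sum_lst (by omega)]; ring)
    have h2 : (2 * (n : ℤ)) * 2 = (2 * (n : ℤ)) *
        (m * (((n : ℤ) - 1) * (2 * h + ((n : ℤ) - 2) * l) + 2 * (d + ((n : ℤ) - 1) * e))) := by
      linear_combination h1
    have h3 : (2 * (n : ℤ)) ≠ 0 := by
      have : (0 : ℤ) < 2 * (n : ℤ) := by linarith
      exact this.ne'
    exact mul_left_cancel₀ h3 h2

end ProfArtin
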