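import Pool.Agent.Work.MP_f6e909_al.TB.Funct
import Pool.Agent.Work.MP_f6e909_al.TB.Trans

/-!
# Module RelEta (M): the relation for the trace functional

PROOF. Put `Q v u = (n - 1) * ∑ i, u i - tot v` (it is additive, invariant under `act σ`, `actU σ`,
and `Q (ones n) (c1 n) = (n - 1) * n - n * (n - 1) = 0`), and
`η = d + (n - 1) * e - 2 * f - (n - 2) * g`.
`transB` with `L₁ = Q`, `L₂ v u = η * Q v u` gives `Q (Φ g) = η * Q (Θ g)` for `(Θ g).s = 1`:
`h1`: `Q (2 • tri1 n f g) (2 • lst n d e) = 2 * ((n - 1) * (d + (n - 1) * e) - 2 * (n - 1) * f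
 - (n - 1) * (n - 2) * g) = 2 * (n - 1) * η = η * Q 0 (e2 n)` (`tot_tri1`, `sum_lst`, `sum_e2`);
`h0`: `Q (2 • tri n a b c) (2 • two n h l) = 2 * ((n - 1) * (2 * h + (n - 2) * l)
 - (2 * a + 4 * (n - 2) * b + (n - 2) * (n - 3) * c))` must be `η * Q (2 • E n 0) 0 = -4 * η`:
from `hE1`, `hE2`: `m` divides `2`; multiplying the difference `m * (first) = m * (second)` out
(`m ≠ 0`): `2 * a + 4 * (n - 2) * b + (n - 2) * (n - 3) * c + 4 * f + 2 * (n - 2) * g
 = (n - 1) * (2 * h + (n - 2) * l) + 2 * (d + (n - 1) * e)`, which is the required equation.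
Let `Λ` be the set of the integers `Q (Θ g)`, `(Θ g).s = 1`: an additive subgroup of `ℤ`
(`act 1`, `actU 1` are the identity), it contains `Q (Θ (x 0 * x 0)) = -4`. If `t ∈ Λ`,
`t = Q (Θ g)`, then `η * t = Q (Φ g) = κ * t'` with `t' ∈ Λ` (`hrange`; `(Φ g).s = 1`), and conversely
`κ * t = η * t'` for some `t' ∈ Λ` (`hypS_same`). `Λ` is generated by one element `t₀ ≠ 0`
(`Int.subgroup_cyclic` / `AddSubgroup` of `ℤ`, or take `t₀` of least absolute value). From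
`η * t₀ = κ * (r * t₀)` and `κ * t₀ = η * (s * t₀)`: `η = κ * r`, `κ = η * s`, so `η = κ` or
`η = -κ` (`Int.natAbs_dvd_natAbs`, as in `five_alpha` of FiveA.lean; `κ ≠ 0`).
-/

namespace ProfArtin

variable {G : Type} [Group G] {n : ℕ} {x : ℕ → G} {y : G} {B : Subgroup G} {Θ Φ : G →* Gb n}
  {κ : ℤ} {z : G}

/-- the trace functional -/
private def etQ (n : ℕ) (v : Fin n → Fin n → ℤ) (u : Fin n → ℤ) : ℤ :=
  ((n : ℤ) - 1) * ∑ i, u i - tot v

private theorem et_add (v v' : Fin n → Fin n → ℤ) (u u' : Fin n → ℤ) :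
    etQ n (v + v') (u + u') = etQ n v u + etQ n v' u' := by
  have h : ∑ i, (u + u') i = ∑ i, u i + ∑ i, u' i := by simp [Finset.sum_add_distrib]
  unfold etQ
  rw [tot_add, h]
  ring

private theorem et_smul (c : ℤ) (v : Fin n → Fin n → ℤ) (u : Fin n → ℤ) :
    etQ n (c • v) (c • u) = c * etQ n v u := by
  have h : ∑ i, (c • u) i = c * ∑ i, u i := by simp [Finset.mul_sum]
  unfold etQ
  rw [tot_smul, h]
  ring

private theorem et_act (σ : Equiv.Perm (Fin n)) (v : Fin n → Fin n → ℤ) (u : Fin n → ℤ) :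
    etQ n (act σ v) (actU σ u) = etQ n v u := by
  unfold etQ
  rw [tot_act, sum_actU]

private theorem et_ones : etQ n (ones n) (c1 n) = 0 := by
  unfold etQ
  rw [tot_ones, sum_c1]
  ring

private theorem et_zero : etQ n 0 0 = 0 := by
  have h := et_add (n := n) 0 0 0 0
  rw [add_zero, add_zero] at h
  linarith

private theorem et_int (Λ : AddSubgroup ℤ) {η κ t₁ : ℤ} (h1 : t₁ ∈ Λ) (h0 : t₁ ≠ 0) (hκ : κ ≠ 0)
    (h2 : ∀ t ∈ Λ, ∃ t' ∈ Λ, η * t = κ * t') (h3 : ∀ t ∈ Λ, ∃ t' ∈ Λ, κ * t = η * t') :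
    η = κ ∨ η = -κ := by
  obtain ⟨t₀, ht⟩ := Int.subgroup_cyclic Λ
  have hmem : t₀ ∈ Λ := by
    rw [ht]
    exact AddSubgroup.subset_closure rfl
  have hall : ∀ t ∈ Λ, ∃ r : ℤ, t = r * t₀ := by
    intro t h
    rw [ht, AddSubgroup.mem_closure_singleton] at h
    obtain ⟨r, hr⟩ := h
    exact ⟨r, by rw [← hr, smul_eq_mul]⟩
  have hne : t₀ ≠ 0 := by
    rintro rfl
    obtain ⟨r, hr⟩ := hall t₁ h1
    exact h0 (by rw [hr, mul_zero])
  obtain ⟨a, ha, ha2⟩ := h2 t₀ hmem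
  obtain ⟨r, rfl⟩ := hall a ha
  obtain ⟨b, hb, hb2⟩ := h3 t₀ hmem
  obtain ⟨s, rfl⟩ := hall b hb
  have e1 : η = κ * r := mul_right_cancel₀ hne (by linear_combination ha2)
  have e2 : κ = η * s := mul_right_cancel₀ hne (by linear_combination hb2)
  have e3 : r * s = 1 := by
    apply mul_left_cancel₀ hκ
    rw [mul_one]
    calc κ * (r * s) = κ * r * s := by ring
      _ = η * s := by rw [← e1]
      _ = κ := e2.symm
  rcases Int.eq_one_or_neg_one_of_mul_eq_one e3 with hr | hr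
  · left
    rw [e1, hr, mul_one]
  · right
    rw [e1, hr]
    ring

theorem relEta (H : HypS n x y B Θ Φ κ z) {a b c h l f g d e m : ℤ}
    (hW : Φ (x 0 * x 0) = ⟨(2 : ℤ) • tri n a b c, (2 : ℤ) • two n h l, 1⟩)
    (hV : Φ y = ⟨(2 : ℤ) • tri1 n f g, (2 : ℤ) • lst n d e, 1⟩)
    (hE1 : 2 = m * (2 * a + 4 * ((n : ℤ) - 2) * b + ((n : ℤ) - 2) * (n - 3) * c + 4 * f +
        2 * ((n : ℤ) - 2) * g))
    (hE2 : 2 = m * (((n : ℤ) - 1) * (2 * h + ((n : ℤ) - 2) * l) + 2 * (d + ((n : ℤ) - 1) * e))) :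
    d + ((n : ℤ) - 1) * e - 2 * f - ((n : ℤ) - 2) * g = κ ∨
      d + ((n : ℤ) - 1) * e - 2 * f - ((n : ℤ) - 2) * g = -κ := by
  have hn := H.hyp.base.hn
  have hn1 : (5 : ℤ) ≤ n := by exact_mod_cast hn
  have hm0 : m ≠ 0 := by
    rintro rfl
    rw [zero_mul] at hE1
    norm_num at hE1
  have hrel : 2 * a + 4 * ((n : ℤ) - 2) * b + ((n : ℤ) - 2) * (n - 3) * c + 4 * f +
      2 * ((n : ℤ) - 2) * g =
      ((n : ℤ) - 1) * (2 * h + ((n : ℤ) - 2) * l) + 2 * (d + ((n : ℤ) - 1) * e) :=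
    mul_left_cancel₀ hm0 (hE1.symm.trans hE2)
  obtain ⟨η, hη⟩ : ∃ η : ℤ, η = d + ((n : ℤ) - 1) * e - 2 * f - ((n : ℤ) - 2) * g := ⟨_, rfl⟩
  rw [← hη]
  have hsum0 : ∑ i, (0 : Fin n → ℤ) i = 0 := by simp
  have htot0 : tot (0 : Fin n → Fin n → ℤ) = 0 := by simp [tot]
  have key : ∀ w : G, (Θ w).s = 1 → (Φ w).s = 1 ∧
      etQ n (Φ w).v (Φ w).u = η * etQ n (Θ w).v (Θ w).u := by
    intro w hw
    refine transB (Φ := Φ) H.hyp.base H.hsx H.hsy (etQ n) (fun v u => η * etQ n v u)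
      et_add (fun v v' u u' => by simp only [et_add]; ring) ?_ ?_ ?_ w hw
    · intro σ
      rw [hW]
      simp only
      rw [et_act, et_smul]
      unfold etQ
      rw [tot_tri (by omega), sum_two (by omega), tot_act, tot_smul, tot_E (by omega), hsum0]
      linear_combination (-2 : ℤ) * hrel + 4 * hη
    · intro σ
      rw [hV]
      simp only
      rw [et_act, et_smul]
      unfold etQ
      rw [tot_tri1 (by omega), sum_lst (by omega), htot0, sum_actU, sum_e2 (by omega)]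
      linear_combination (-2 * ((n : ℤ) - 1)) * hη
    · intro b hb
      obtain ⟨c', hc'⟩ := H.hsB b hb
      rw [hc']
      refine ⟨rfl, fun σ => ?_⟩
      simp only
      rw [et_act, et_smul, et_ones, mul_zero]
  let Λ : AddSubgroup ℤ :=
    { carrier := {t | ∃ w : G, (Θ w).s = 1 ∧ etQ n (Θ w).v (Θ w).u = t}
      zero_mem' := ⟨1, by rw [map_one]; rfl, by rw [map_one]; exact et_zero⟩
      add_mem' := by
        rintro _ _ ⟨w, hw, rfl⟩ ⟨w', hw', rfl⟩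
        refine ⟨w * w', by rw [map_mul, Gb.mul_s, hw, hw', one_mul], ?_⟩
        rw [map_mul, Gb.mul_v, Gb.mul_u, hw]
        exact et_add _ _ _ _
      neg_mem' := by
        rintro _ ⟨w, hw, rfl⟩
        refine ⟨w⁻¹, by rw [map_inv, Gb.inv_s, hw, inv_one], ?_⟩
        rw [map_inv, Gb.inv_v, Gb.inv_u, hw, inv_one]
        have h1 := et_smul (n := n) (-1) (Θ w).v (Θ w).u
        rw [neg_one_smul, neg_one_smul, neg_one_mul] at h1
        exact h1 }
  refine et_int Λ (t₁ := -4) ⟨x 0 * x 0, ?_, ?_⟩ (by norm_num) H.hyp.hκ ?_ ?_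
  · rw [map_mul, H.hyp.base.hΘx 0 (by omega), Gb.mul_s]
    exact congrArg Gam.s (gam_sq (n := n) (k := 0) (by omega))
  · rw [map_mul, H.hyp.base.hΘx 0 (by omega), Gb.mul_v, Gb.mul_u]
    have h1 := congrArg Gam.v (gam_sq (n := n) (k := 0) (by omega))
    have h2 : (thS n 0).v + act (thS n 0).s (thS n 0).v = (2 : ℤ) • E n 0 := h1
    have h3 : (thS n 0).u + actU (thS n 0).s (thS n 0).u = 0 := by
      change (0 : Fin n → ℤ) + actU _ 0 = 0
      rw [zero_add]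
      rfl
    rw [h2, h3]
    unfold etQ
    rw [tot_smul, tot_E (by omega), hsum0]
    ring
  · rintro _ ⟨w, hw, rfl⟩
    obtain ⟨hs, hq⟩ := key w hw
    obtain ⟨w', k, hk⟩ := (H.hyp.hrange (Φ w)).1 ⟨w, rfl⟩
    have hs' : (Θ w').s = 1 := by
      have := congrArg Gb.s hk
      rw [hs] at this
      exact this.symm
    refine ⟨_, ⟨w', hs', rfl⟩, ?_⟩
    rw [← hq, hk]
    simp only
    rw [et_add, et_smul, et_smul, et_ones]
    ring
  · rintro _ ⟨w, hw, rfl⟩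
    obtain ⟨w', hw'⟩ := (H.hyp.hrange ⟨κ • (Θ w).v + (2 * (0 : ℤ)) • ones n,
      κ • (Θ w).u + (2 * (0 : ℤ)) • c1 n, (Θ w).s⟩).2 ⟨w, 0, rfl⟩
    have hs' : (Θ w').s = 1 := by
      rw [← hypS_same H w', hw']
      exact hw
    obtain ⟨-, hq⟩ := key w' hs'
    refine ⟨_, ⟨w', hs', rfl⟩, ?_⟩
    rw [← hq, hw']
    simp only
    rw [et_add, et_smul, et_smul, et_ones]
    ring

end ProfArtin
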