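import Pool.Agent.Work.MP_f6e909_al.TB.Defs

/-!
# Module RelW (M): the relations of type `B n` in `Wl n L`

PROOF. Write `S k i j` for the function of `wlS n a k` (value `a` if `{i, j} = {k, k + 1}`, else `1`)
and `T i j` for the function of `wlT n b`. A product `x * y` has
`f i j = x.f i j * y.f (x.s.symm i) (x.s.symm j)`, and `sw n k` is its own inverse. The permutations:
as in `gam_comm`, `gam_braid` of GamRel.lean (`congrArg Gam.s`).
* `comm i j` of the chain (`k + 2 ≤ l`): both sides have value `a` at the pairs `{k, k + 1}` and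
  `{l, l + 1}`, and `1` elsewhere (the transposition `sw n k` fixes `l`, `l + 1` and conversely).
* `braid`: both sides have value `a` at the three pairs inside `{k, k + 1, k + 2}` and `1` elsewhere.
* `comm` (`k + 2 < n`): `T` is invariant under `sw n k` (it fixes the last point), and at no pair
  both `S k` and `T` are different from `1`.
* `four` (`k = n - 2`, `σ = sw n k`): the values are
  `S i j * T (σ i) (σ j) * S (σ i) (σ j) * T i j` and
  `T i j * S i j * T (σ i) (σ j) * S (σ i) (σ j)`. At the pair `{n - 2, n - 1}`: `a * b * a * b` and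
  `b * a * b * a`. At the pairs `{i, n - 1}` and `{i, n - 2}`, `i < n - 2`: `b` on both sides.
  Elsewhere (also for `i = j`): `1`.
It is convenient to split according to `i.1, j.1 ∈ {k, k + 1, k + 2, other}` and to rewrite with
`Equiv.swap_apply_left`, `Equiv.swap_apply_right`, `Equiv.swap_apply_of_ne_of_ne`; or to use
functions `pr p q : Fin n → Fin n → L` (value `a` at the pair `{p, q}`) and their transport under a
permutation as in GamRel.lean (`act_pair`).
-/

namespace ProfArtin

private def relW_pr {n : ℕ} {L : Type} [Group L] (a : L) (p q : Fin n) : Fin n → Fin n → L :=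
  fun i j => if (i = p ∧ j = q) ∨ (i = q ∧ j = p) then a else 1

private theorem relW_symm {n : ℕ} {L : Type} [Group L] (a : L) (p q : Fin n) :
    relW_pr a p q = relW_pr a q p := by
  funext i j
  unfold relW_pr
  congr 1
  exact propext or_comm

private theorem relW_act {n : ℕ} {L : Type} [Group L] (a : L) (p q : Fin n)
    (s : Equiv.Perm (Fin n)) (i j : Fin n) :
    relW_pr a p q (s.symm i) (s.symm j) = relW_pr a (s p) (s q) i j := by
  simp only [relW_pr, Equiv.symm_apply_eq]

private theorem relW_com {n : ℕ} {L : Type} [Group L] (a : L) (p q p' q' i j i' j' : Fin n) :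
    relW_pr a p q i j * relW_pr a p' q' i' j' = relW_pr a p' q' i' j' * relW_pr a p q i j := by
  unfold relW_pr
  split_ifs <;> simp

private theorem relW_S {n : ℕ} {L : Type} [Group L] (a : L) {k : ℕ} (hk : k + 1 < n) :
    wlS n a k = ⟨relW_pr a ⟨k, by omega⟩ ⟨k + 1, hk⟩, Equiv.swap ⟨k, by omega⟩ ⟨k + 1, hk⟩⟩ := by
  refine Wl.ext ?_ ?_
  · funext i j
    simp only [wlS, relW_pr, Fin.ext_iff]
  · exact dif_pos hk

private theorem relW_T {n : ℕ} {L : Type} [Group L] (b : L) (i j i' j' : Fin n) :
    (wlT n b).f i j * (wlT n b).f i' j' = (wlT n b).f i' j' * (wlT n b).f i j := by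
  simp only [wlT]
  split_ifs <;> simp

private theorem relW_comm {n : ℕ} {L : Type} [Group L] (a : L) {k l : ℕ} (hkl : k + 2 ≤ l)
    (hl : l + 1 < n) : wlS n a k * wlS n a l = wlS n a l * wlS n a k := by
  have hk : k + 1 < n := by omega
  rw [relW_S a hk, relW_S a hl]
  refine Wl.ext ?_ ?_
  · funext i j
    rw [Wl.mul_f, Wl.mul_f]
    dsimp only
    rw [relW_act, relW_act, Equiv.swap_apply_of_ne_of_ne, Equiv.swap_apply_of_ne_of_ne,
      Equiv.swap_apply_of_ne_of_ne, Equiv.swap_apply_of_ne_of_ne, relW_com]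
    all_goals simp only [ne_eq, Fin.mk.injEq]; omega
  · rw [Wl.mul_s, Wl.mul_s]
    dsimp only
    refine (Equiv.Perm.disjoint_swap_swap ?_).commute.eq
    simp only [List.nodup_cons, List.mem_cons, Fin.mk.injEq, List.not_mem_nil, or_false,
      not_or, List.nodup_nil, and_true, not_false_eq_true]
    omega

private theorem relW_braid {n : ℕ} {L : Type} [Group L] (a : L) {k : ℕ} (hk : k + 2 < n) :
    wlS n a k * wlS n a (k + 1) * wlS n a k =
      wlS n a (k + 1) * wlS n a k * wlS n a (k + 1) := by
  have h1 : k + 1 < n := by omega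
  have h2 : k + 1 + 1 < n := by omega
  rw [relW_S a h1, relW_S a h2]
  set p : Fin n := ⟨k, by omega⟩ with hp
  set q : Fin n := ⟨k + 1, h1⟩ with hq
  set r : Fin n := ⟨k + 1 + 1, h2⟩ with hr
  have hpq : p ≠ q := by simp only [hp, hq, ne_eq, Fin.mk.injEq]; omega
  have hpr : p ≠ r := by simp only [hp, hr, ne_eq, Fin.mk.injEq]; omega
  have hqr : q ≠ r := by simp only [hq, hr, ne_eq, Fin.mk.injEq]; omega
  refine Wl.ext ?_ ?_
  · funext i j
    simp only [Wl.mul_f, Wl.mul_s]
    rw [relW_act, relW_act, relW_act, relW_act]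
    simp only [Equiv.Perm.mul_apply, Equiv.swap_apply_left,
      Equiv.swap_apply_right, Equiv.swap_apply_of_ne_of_ne hpq hpr,
      Equiv.swap_apply_of_ne_of_ne hpr.symm hqr.symm]
    rw [relW_com a q r p r, mul_assoc (relW_pr a p r i j), relW_com a q r p q, ← mul_assoc,
      relW_com a p r p q]
  · simp only [Wl.mul_s]
    rw [Equiv.swap_mul_swap_mul_swap hpq hpr]
    rw [Equiv.swap_comm p q, Equiv.swap_comm q r, Equiv.swap_mul_swap_mul_swap hqr.symm hpr.symm]
    exact Equiv.swap_comm _ _

private theorem relW_ct {n : ℕ} {L : Type} [Group L] (a b : L) {k : ℕ} (hk : k + 2 < n) :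
    wlT n b * wlS n a k = wlS n a k * wlT n b := by
  have h1 : k + 1 < n := by omega
  rw [relW_S a h1]
  set p : Fin n := ⟨k, by omega⟩ with hp
  set q : Fin n := ⟨k + 1, h1⟩ with hq
  have hfix : ∀ i : Fin n, ((Equiv.swap p q).symm i).1 + 1 = n ↔ i.1 + 1 = n := by
    intro i
    rw [Equiv.symm_swap]
    by_cases hi : i = p
    · rw [hi, Equiv.swap_apply_left]
      simp only [hp, hq]
      omega
    · by_cases hi' : i = q
      · rw [hi', Equiv.swap_apply_right]
        simp only [hp, hq]
        omega
      · rw [Equiv.swap_apply_of_ne_of_ne hi hi']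
  refine Wl.ext ?_ ?_
  · funext i j
    rw [Wl.mul_f, Wl.mul_f]
    have e1 : (wlT n b).f ((Equiv.swap p q).symm i) ((Equiv.swap p q).symm j) =
        (wlT n b).f i j := by
      simp only [wlT, hfix, ne_eq, EmbeddingLike.apply_eq_iff_eq]
    dsimp only
    rw [e1]
    have e2 : ∀ i j : Fin n, relW_pr a p q ((wlT n b).s.symm i) ((wlT n b).s.symm j) =
        relW_pr a p q i j := fun i j => rfl
    rw [e2]
    unfold relW_pr
    by_cases h : (i = p ∧ j = q) ∨ (i = q ∧ j = p)
    · have e3 : (wlT n b).f i j = 1 := by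
        simp only [wlT]
        rw [if_neg]
        rintro ⟨_, h3⟩
        rcases h with ⟨rfl, rfl⟩ | ⟨rfl, rfl⟩
        · simp only [hp, hq] at h3
          omega
        · simp only [hp, hq] at h3
          omega
      rw [e3, one_mul, mul_one]
    · rw [if_neg h, one_mul, mul_one]
  · rw [Wl.mul_s, Wl.mul_s]
    simp [wlT]

private theorem relW_four {n : ℕ} (hn : 2 ≤ n) {L : Type} [Group L] {a b : L}
    (h : a * b * a * b = b * a * b * a) :
    wlS n a (n - 2) * wlT n b * wlS n a (n - 2) * wlT n b =
      wlT n b * wlS n a (n - 2) * wlT n b * wlS n a (n - 2) := by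
  have h1 : n - 2 + 1 < n := by omega
  rw [relW_S a h1]
  set p : Fin n := ⟨n - 2, by omega⟩ with hp
  set q : Fin n := ⟨n - 2 + 1, h1⟩ with hq
  have hpq : p ≠ q := by simp only [hp, hq, ne_eq, Fin.mk.injEq]; omega
  refine Wl.ext ?_ ?_
  · funext i j
    simp only [Wl.mul_f, Wl.mul_s]
    have hTs : (wlT n b).s = 1 := rfl
    have e1 : ∀ x : Fin n, (Equiv.swap p q * (wlT n b).s * Equiv.swap p q).symm x = x := by
      intro x
      rw [hTs, mul_one, Equiv.swap_mul_self]
      rfl
    have e2 : ∀ x : Fin n, (wlT n b).s.symm x = x := fun x => rfl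
    have e3 : ∀ x : Fin n, (Equiv.swap p q * (wlT n b).s).symm x = (Equiv.swap p q).symm x :=
      fun x => rfl
    have e4 : ∀ x : Fin n, ((wlT n b).s * Equiv.swap p q).symm x = (Equiv.swap p q).symm x :=
      fun x => rfl
    have e5 : ∀ x : Fin n, ((wlT n b).s * Equiv.swap p q * (wlT n b).s).symm x =
      (Equiv.swap p q).symm x := fun x => rfl
    simp only [e1, e2, e3, e4, e5]
    rw [relW_act, Equiv.swap_apply_left, Equiv.swap_apply_right, relW_symm a q p]
    unfold relW_pr
    by_cases hc : (i = p ∧ j = q) ∨ (i = q ∧ j = p)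
    · rw [if_pos hc]
      have e6 : (wlT n b).f i j = b := by
        simp only [wlT]
        rw [if_pos]
        rcases hc with ⟨rfl, rfl⟩ | ⟨rfl, rfl⟩
        · refine ⟨hpq, Or.inr ?_⟩
          simp only [hq]
          omega
        · refine ⟨hpq.symm, Or.inl ?_⟩
          simp only [hq]
          omega
      have e7 : (wlT n b).f ((Equiv.swap p q).symm i) ((Equiv.swap p q).symm j) = b := by
        simp only [wlT]
        rw [if_pos]
        rw [Equiv.symm_swap]
        rcases hc with ⟨rfl, rfl⟩ | ⟨rfl, rfl⟩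
        · rw [Equiv.swap_apply_left, Equiv.swap_apply_right]
          refine ⟨hpq.symm, Or.inl ?_⟩
          simp only [hq]
          omega
        · rw [Equiv.swap_apply_left, Equiv.swap_apply_right]
          refine ⟨hpq, Or.inr ?_⟩
          simp only [hq]
          omega
      rw [e6, e7, h]
    · rw [if_neg hc, one_mul, mul_one, mul_one, mul_one]
      exact relW_T b _ _ _ _
  · simp only [Wl.mul_s, wlT, mul_one, one_mul]

theorem wl_fam {n : ℕ} (hn : 2 ≤ n) {L : Type} [Group L] {a b : L}
    (h : a * b * a * b = b * a * b * a) : BFam n (wlS n a) (wlT n b) := by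
  refine ⟨⟨fun i j hij hj => relW_comm a hij (by omega), fun i hi => relW_braid a (by omega)⟩,
    fun k hk => relW_ct a b hk, relW_four hn h⟩

end ProfArtin
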