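import Pool.Agent.Work.MP_f6e909_al.TB.Defs
import Pool.Agent.Work.MP_f6e909_al.PermMain
import Pool.Agent.Work.MP_f6e909_al.PermStd

/-!
# Module PermB (M-L): families of type `B n` which generate the symmetric group

PROOF. (1) `x 0 ≠ x 1`: otherwise `chain_adj` gives `x k = x 0` for all `k < n - 1`; `y` commutes
with `x 0` (`comm`, `0 + 2 < n`), so the group generated is abelian, but it is the symmetric group
of degree `n ≥ 5`.
(2) All `x k`, `k < n - 1`, are transpositions. It suffices to show it for `x 0` (`chain_conj`;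
a conjugate of a swap is a swap, see `perm_main`). `x 2 ≠ x 3` and `x 2`, `x 3` do not commute
(`chain_adj`, `chain_eq_of_comm`, as in `perm_main`), `x 0` commutes with both.
 * `n ≥ 7`: exactly as in the proof of `perm_main` (PermMain.lean, last part): `perm_step` with
   `l = n - 3` and `cycRes` gives at least `n - 2` fixed points of `x 0`; and `x 0 ≠ 1` because
   otherwise all `x k`, being conjugate to `x 0`, are `1`. No sign is needed.
 * `n = 5`: `perm_le_five` (PermKey.lean) for `x 0`, `x 2`, `x 3`: `x 0 = 1` is excluded as above;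
   it remains to exclude `x 0 * x 0 = 1` with support of size `4`. Then `x 2`, `x 3` have the same
   form (conjugate). Let `p` be the unique fixed point of `x 0`; `x 2` and `x 3` commute with `x 0`, so
   they fix `p`, and it is their unique fixed point. Choose `q ≠ p`, `r = x 0 q`. A fixed point free
   involution on the four points `≠ p` is determined by the image of `q`; and two such involutions
   commute (the three products of two disjoint transpositions on four points, together with `1`, form a
   group of exponent two). So `x 2` and `x 3` commute, a contradiction. (A finite check over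
   `Equiv.Perm (Fin 4)` by `decide` is possible as well: all `u, v` without fixed points and with
   `u * u = 1 = v * v` commute.)
   (`n = 6` is excluded by `h6`.)
(3) `swap_chain` gives `σ` with `x k = σ * sw n k * σ⁻¹` for `k < n - 1`.
(4) `y = 1`: `z = σ⁻¹ * y * σ` commutes with `sw n k` for `k + 2 < n`. Commuting with
`sw n k = swap k (k+1)` means that `z` preserves the set `{k, k + 1}` (`k ≤ n - 3`), so for
`1 ≤ k ≤ n - 3` it fixes `k` (intersection of `{k - 1, k}` and `{k, k + 1}`), then also `0` and
`n - 2` (since `n ≥ 5`), and finally `n - 1`. So `z = 1`.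
-/

namespace ProfArtin

private theorem permB_not_comm {n : ℕ} (hn : 3 ≤ n)
    (h : ∀ g g' : Equiv.Perm (Fin n), g * g' = g' * g) : False := by
  have h1 := h (Equiv.swap (⟨0, by omega⟩ : Fin n) ⟨1, by omega⟩)
    (Equiv.swap (⟨1, by omega⟩ : Fin n) ⟨2, by omega⟩)
  have h2 := congrArg (fun g : Equiv.Perm (Fin n) => g ⟨2, by omega⟩) h1
  simp only [Equiv.Perm.coe_mul, Function.comp_apply] at h2
  rw [Equiv.swap_apply_right, Equiv.swap_apply_right,
    Equiv.swap_apply_of_ne_of_ne (a := (⟨0, by omega⟩ : Fin n)) (b := ⟨1, by omega⟩)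
      (x := ⟨2, by omega⟩) (by simp) (by simp), Equiv.swap_apply_right] at h2
  simp at h2

private theorem permB_comm_of_gen {G : Type} [Group G] {X : Set G}
    (hX : Subgroup.closure X = ⊤) (hc : ∀ a ∈ X, ∀ b ∈ X, a * b = b * a) (g g' : G) :
    g * g' = g' * g := by
  have hA : Subgroup.closure X ≤ Subgroup.centralizer X := by
    rw [Subgroup.closure_le]
    intro a ha
    exact Subgroup.mem_centralizer_iff.2 fun b hb => hc b hb a ha
  have hB : ∀ g : G, Subgroup.closure X ≤ Subgroup.centralizer {g} := by
    intro g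
    rw [Subgroup.closure_le]
    intro a ha
    refine Subgroup.mem_centralizer_iff.2 fun g' hg' => ?_
    have h1 : g ∈ Subgroup.centralizer X := hA (by rw [hX]; exact Subgroup.mem_top g)
    rw [Set.mem_singleton_iff.1 hg']
    exact (Subgroup.mem_centralizer_iff.1 h1 a ha).symm
  have h2 : g' ∈ Subgroup.centralizer {g} := hB g (by rw [hX]; exact Subgroup.mem_top g')
  exact Subgroup.mem_centralizer_iff.1 h2 g rfl

private theorem permB_inv_comm (p : Fin 5) (u v : Equiv.Perm (Fin 5)) (hu : ∀ q, u (u q) = q)
    (hv : ∀ q, v (v q) = q) (hup : ∀ q, u q = q ↔ q = p) (hvp : ∀ q, v q = q ↔ q = p) :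
    u * v = v * u := by
  ext1 q
  show u (v q) = v (u q)
  have hu0 : u p = p := (hup p).2 rfl
  have hv0 : v p = p := (hvp p).2 rfl
  by_cases hq : q = p
  · rw [hq, hv0, hu0, hv0]
  by_cases huv : u q = v q
  · rw [← huv, hu, huv, hv]
  by_contra hne
  have n1 : u q ≠ p := fun h => hq (u.injective (h.trans hu0.symm))
  have n2 : v q ≠ p := fun h => hq (v.injective (h.trans hv0.symm))
  have n3 : u q ≠ q := fun h => hq ((hup q).1 h)
  have n4 : v q ≠ q := fun h => hq ((hvp q).1 h)
  have a1 : u (v q) ≠ p := fun h => n2 (u.injective (h.trans hu0.symm))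
  have a2 : u (v q) ≠ q := fun h => huv (u.injective (by rw [h, hu])) 
  have a3 : u (v q) ≠ u q := fun h => n4 (u.injective h)
  have a4 : u (v q) ≠ v q := fun h => n2 ((hup _).1 h)
  have b1 : v (u q) ≠ p := fun h => n1 (v.injective (h.trans hv0.symm))
  have b2 : v (u q) ≠ q := fun h => huv (v.injective (by rw [h, hv]))
  have b3 : v (u q) ≠ v q := fun h => n3 (v.injective h)
  have b4 : v (u q) ≠ u q := fun h => n1 ((hvp _).1 h)
  have hcard : ({u (v q), v (u q), u q, v q, q, p} : Finset (Fin 5)).card = 6 := by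
    rw [Finset.card_insert_of_notMem, Finset.card_insert_of_notMem,
      Finset.card_insert_of_notMem, Finset.card_insert_of_notMem,
      Finset.card_insert_of_notMem, Finset.card_singleton]
    all_goals simp only [Finset.mem_insert, Finset.mem_singleton, not_or]
    · exact hq
    · exact ⟨n4, n2⟩
    · exact ⟨huv, n3, n1⟩
    · exact ⟨b4, b3, b2, b1⟩
    · exact ⟨hne, a3, a4, a2, a1⟩
  have hle := Finset.card_le_univ ({u (v q), v (u q), u q, v q, q, p} : Finset (Fin 5))
  rw [hcard, Fintype.card_fin] at hle
  omega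

/-- a permutation commuting with a transposition preserves it -/
private theorem permB_swap {n : ℕ} {z : Equiv.Perm (Fin n)} {a b : Fin n} (hab : a ≠ b)
    (h : z * Equiv.swap a b = Equiv.swap a b * z) : (z a = a ∨ z a = b) ∧ (z b = a ∨ z b = b) := by
  have h1 : z b = Equiv.swap a b (z a) := by
    have h2 := congrArg (fun g : Equiv.Perm (Fin n) => g a) h
    simp only [Equiv.Perm.coe_mul, Function.comp_apply, Equiv.swap_apply_left] at h2
    exact h2
  by_cases ha : z a = a
  · rw [ha, Equiv.swap_apply_left] at h1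
    exact ⟨Or.inl ha, Or.inr h1⟩
  · by_cases hb : z a = b
    · rw [hb, Equiv.swap_apply_right] at h1
      exact ⟨Or.inr hb, Or.inl h1⟩
    · rw [Equiv.swap_apply_of_ne_of_ne ha hb] at h1
      exact absurd (z.injective h1).symm hab

private theorem permB_fix {n : ℕ} (hn : 5 ≤ n) {z : Equiv.Perm (Fin n)}
    (h : ∀ k, k + 2 < n → z * sw n k = sw n k * z) : z = 1 := by
  have hsw : ∀ k (h : k + 1 < n), sw n k = Equiv.swap ⟨k, by omega⟩ ⟨k + 1, h⟩ := by
    intro k h
    rw [sw, dif_pos h]
  have hp : ∀ k (hk : k + 2 < n), ((z ⟨k, by omega⟩).1 = k ∨ (z ⟨k, by omega⟩).1 = k + 1) ∧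
      ((z ⟨k + 1, by omega⟩).1 = k ∨ (z ⟨k + 1, by omega⟩).1 = k + 1) := by
    intro k hk
    have h1 := h k hk
    rw [hsw k (by omega)] at h1
    have h2 := permB_swap (a := ⟨k, by omega⟩) (b := ⟨k + 1, by omega⟩)
      (by intro h3; have := Fin.mk.inj h3; omega) h1
    exact ⟨h2.1.imp (congrArg Fin.val) (congrArg Fin.val),
      h2.2.imp (congrArg Fin.val) (congrArg Fin.val)⟩
  -- the interior points
  have hin : ∀ k (hk : k + 3 < n), (z ⟨k + 1, by omega⟩).1 = k + 1 := by
    intro k hk
    have h1 := (hp k (by omega)).2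
    have h2 := (hp (k + 1) (by omega)).1
    omega
  have h0 : (z ⟨0, by omega⟩).1 = 0 := by
    rcases (hp 0 (by omega)).1 with h1 | h1
    · exact h1
    · exfalso
      have h2 := hin 0 (by omega)
      have h3 : z ⟨0, by omega⟩ = z ⟨0 + 1, by omega⟩ := Fin.ext (h1.trans h2.symm)
      have h4 := Fin.mk.inj (z.injective h3)
      omega
  have hlt : ∀ k (hk : k + 1 < n), (z ⟨k, by omega⟩).1 = k := by
    intro k hk
    rcases Nat.eq_zero_or_pos k with rfl | hk0
    · exact h0
    · obtain ⟨j, rfl⟩ : ∃ j, k = j + 1 := ⟨k - 1, by omega⟩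
      by_cases hj : j + 3 < n
      · exact hin j hj
      · have h1 := (hp j (by omega)).2
        rcases h1 with h1 | h1
        · exfalso
          obtain ⟨i, rfl⟩ : ∃ i, j = i + 1 := ⟨j - 1, by omega⟩
          have h2 := hin i (by omega)
          have h3 : z ⟨i + 1 + 1, by omega⟩ = z ⟨i + 1, by omega⟩ := Fin.ext (h1.trans h2.symm)
          have h4 := Fin.mk.inj (z.injective h3)
          omega
        · exact h1
  ext q
  rw [Equiv.Perm.one_apply]
  by_cases hq : q.1 + 1 < n
  · exact hlt q.1 hq
  · by_contra hne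
    have h1 : (z q).1 + 1 < n := by
      have h2 := (z q).2
      have h3 := q.2
      omega
    have h2 := hlt (z q).1 h1
    have h3 : z ⟨(z q).1, by omega⟩ = z q := Fin.ext h2
    have h4 := congrArg Fin.val (z.injective h3)
    exact hne h4

theorem perm_B {n : ℕ} (hn : 5 ≤ n) (h6 : n ≠ 6) {x : ℕ → Equiv.Perm (Fin n)}
    {y : Equiv.Perm (Fin n)} (h : BFam n x y)
    (hgen : Subgroup.closure (x '' {k | k + 1 < n} ∪ {y}) = ⊤) :
    ∃ σ : Equiv.Perm (Fin n), (∀ k, k + 1 < n → x k = σ * sw n k * σ⁻¹) ∧ y = 1 := by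
  have hx := h.chain
  have hne : x 0 ≠ x 1 := by
    intro h01
    have hall : ∀ k, k < n - 1 → x k = x 0 := chain_adj hx (i := 0) (by omega) h01
    have hy0 : y * x 0 = x 0 * y := h.comm 0 (by omega)
    refine permB_not_comm (n := n) (by omega) (permB_comm_of_gen hgen ?_)
    rintro a (⟨i, hi, rfl⟩ | rfl) b (⟨j, hj, rfl⟩ | rfl)
    · have hi' : i + 1 < n := hi
      have hj' : j + 1 < n := hj
      rw [hall i (by omega), hall j (by omega)]
    · have hi' : i + 1 < n := hi
      rw [hall i (by omega)]
      exact hy0.symm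
    · have hj' : j + 1 < n := hj
      rw [hall j (by omega)]
      exact hy0
    · rfl
  have hconj : ∀ k, k < n - 1 → ∃ g, x k = g * x 0 * g⁻¹ := by
    intro k hk
    obtain ⟨g, -, hg⟩ := chain_conj hx hk
    exact ⟨g, hg⟩
  have h23 : x 2 ≠ x 3 := by
    intro h
    exact hne (chain_adj hx (i := 2) (by omega) h 1 (by omega)).symm
  have hnc : x 2 * x 3 ≠ x 3 * x 2 := by
    intro h
    exact h23 (chain_eq_of_comm hx (i := 2) (by omega) h)
  have h01 : x 0 ≠ 1 := by
    intro h1
    obtain ⟨g, hg⟩ := hconj 1 (by omega)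
    apply hne
    rw [hg, h1]
    group
  have hswap : (x 0).IsSwap → ∀ k, k < n - 1 → (x k).IsSwap := by
    intro h k hk
    obtain ⟨g, hg⟩ := hconj k hk
    rw [← Equiv.Perm.card_support_eq_two] at h ⊢
    rw [hg, Equiv.Perm.card_support_conj, h]
  have hs : ∀ k, k < n - 1 → (x k).IsSwap := by
    apply hswap
    rcases Nat.lt_or_ge n 7 with h7 | h7
    · have h5 : n = 5 := by omega
      subst h5
      have c02 := hx.comm 0 2 (by omega) (by omega)
      have c03 := hx.comm 0 3 (by omega) (by omega)
      rcases perm_le_five (by simp) (x 0) (x 2) (x 3) c02 c03 hnc with h1 | h1 | h1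
      · exact absurd h1 h01
      · exact h1.1
      · exfalso
        obtain ⟨h2, h3⟩ := h1
        have h4 := card_fix_add (x 0)
        rw [h3, Fintype.card_fin] at h4
        have h5 : (Finset.univ.filter fun p => x 0 p = p).card = 1 := by omega
        obtain ⟨p, hp⟩ := Finset.card_eq_one.1 h5
        have hfix : ∀ q, x 0 q = q ↔ q = p := by
          intro q
          have h6 : q ∈ Finset.univ.filter (fun p => x 0 p = p) ↔ q ∈ ({p} : Finset (Fin 5)) := by
            rw [hp]
          simpa using h6
        -- the elements commuting with x 0 and conjugate to it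
        have key : ∀ k, k < 5 - 1 → x 0 * x k = x k * x 0 →
            (∀ q, x k (x k q) = q) ∧ ∀ q, x k q = q ↔ q = p := by
          intro k hk hck
          obtain ⟨g, hg⟩ := hconj k hk
          have hsq : x k * x k = 1 := by
            rw [hg]
            have h7 : g * x 0 * g⁻¹ * (g * x 0 * g⁻¹) = g * (x 0 * x 0) * g⁻¹ := by group
            rw [h7, h2]
            simp
          have hkp : x k p = p := by
            rw [← hfix]
            have h8 := congrArg (fun u : Equiv.Perm (Fin 5) => u p) hck
            simp only [Equiv.Perm.coe_mul, Function.comp_apply] at h8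
            rw [h8, (hfix p).2 rfl]
          have hck' : (Finset.univ.filter fun q => x k q = q).card = 1 := by
            have h9 := card_fix_add (x k)
            rw [hg, Equiv.Perm.card_support_conj, h3, Fintype.card_fin, ← hg] at h9
            omega
          obtain ⟨p', hp'⟩ := Finset.card_eq_one.1 hck'
          have hfix' : ∀ q, x k q = q ↔ q = p' := by
            intro q
            have h6 : q ∈ Finset.univ.filter (fun q => x k q = q) ↔
                q ∈ ({p'} : Finset (Fin 5)) := by
              rw [hp']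
            simpa using h6
          have hpp : p = p' := (hfix' p).1 hkp
          refine ⟨fun q => ?_, fun q => by rw [hpp]; exact hfix' q⟩
          have h8 := congrArg (fun u : Equiv.Perm (Fin 5) => u q) hsq
          exact h8
        obtain ⟨a1, a2⟩ := key 2 (by omega) c02
        obtain ⟨b1, b2⟩ := key 3 (by omega) c03
        exact hnc (permB_inv_comm p (x 2) (x 3) a1 b1 a2 b2)
    · obtain ⟨l, rfl⟩ : ∃ l, n = l + 3 := ⟨n - 3, by omega⟩
      have hx' : Chain (l + 2) x := hx
      have h1 := perm_step (l := l) (by omega) (cycRes (by omega)) (by simp) (x 0)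
        (fun k => x (k + 2)) (perm_chain_shift_two hx')
        (fun k hk => hx.comm 0 (k + 2) (by omega) (by omega))
        ⟨1, by omega, fun h => h23 h.symm⟩
      have h2 := card_fix_add (x 0)
      rw [Fintype.card_fin] at h2
      rw [← Equiv.Perm.card_support_eq_two]
      have h5 := Equiv.Perm.two_le_card_support_of_ne_one h01
      omega
  obtain ⟨σ, hσ⟩ := swap_chain hn hx hne hs
  refine ⟨σ, fun k hk => hσ k (by omega), ?_⟩
  have hz : σ⁻¹ * y * σ = 1 := by
    refine permB_fix hn fun k hk => ?_
    have h1 := h.comm k hk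
    rw [hσ k (by omega)] at h1
    have h2 : σ⁻¹ * (y * (σ * sw n k * σ⁻¹)) * σ = σ⁻¹ * (σ * sw n k * σ⁻¹ * y) * σ := by
      rw [h1]
    have h3 : σ⁻¹ * (y * (σ * sw n k * σ⁻¹)) * σ = σ⁻¹ * y * σ * sw n k := by group
    have h4 : σ⁻¹ * (σ * sw n k * σ⁻¹ * y) * σ = sw n k * (σ⁻¹ * y * σ) := by group
    rw [h3, h4] at h2
    exact h2
  have h5 : y = σ * (σ⁻¹ * y * σ) * σ⁻¹ := by group
  rw [h5, hz]
  simp

end ProfArtin
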