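import Pool.Agent.Work.MP_f6e909_al.TB.HypB
import Pool.Agent.Work.MP_f6e909_al.TB.PermB

/-!
# Module StdB (M): reduction to the standard form

PROOF. The family `(Φ (x k)).s`, `(Φ y).s` is a `BFam` of permutations (images of the relations of
`H.base.fam` under `g ↦ (Φ g).s`; `chain_map` of ChainA.lean for the chain), and it generates the
symmetric group: `phiB_surj`, `H.base.hgen` and `(Φ b').s = 1` for `b' ∈ B` (`phiB_perm`) (the set of
`g` with `(Φ g).s ∈ closure ..` is a subgroup, `base_top`). `perm_B` gives `σ` with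
`(Φ (x k)).s = σ * sw n k * σ⁻¹` and `(Φ y).s = 1`. Take `g₀` with `(Φ g₀).s = σ⁻¹` and
`Φ' g = Φ (g₀ * g * g₀⁻¹) = Φ g₀ * Φ g * (Φ g₀)⁻¹` (`(MulAut.conj (Φ g₀)).toMonoidHom.comp Φ`, as in
`hypFive_conj` of HypFive.lean). `HypB` for `Φ'`: only `hrange` (same range) and `hΦz` (`z` is
central, `Φ' z = Φ z`) change. The values at `b' ∈ B` are `⟨c • ones n, c • c1 n, 1⟩`, central in
`Gb n`, so unchanged.
-/

namespace ProfArtin

variable {G : Type} [Group G] {n : ℕ} {x : ℕ → G} {y : G} {B : Subgroup G} {Θ Φ : G →* Gb n}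
  {κ : ℤ} {z : G}

/-- the standard form -/
structure HypS {G : Type} [Group G] (n : ℕ) (x : ℕ → G) (y : G) (B : Subgroup G)
    (Θ Φ : G →* Gb n) (κ : ℤ) (z : G) : Prop where
  hyp : HypB n x y B Θ Φ κ z
  hsx : ∀ k, k + 1 < n → (Φ (x k)).s = sw n k
  hsy : (Φ y).s = 1
  hsB : ∀ b ∈ B, ∃ c : ℤ, Φ b = ⟨c • ones n, c • c1 n, 1⟩

private def piB (n : ℕ) : Gb n →* Equiv.Perm (Fin n) := ⟨⟨Gb.s, rfl⟩, fun _ _ => rfl⟩

theorem hypS_exists (H : HypB n x y B Θ Φ κ z) (h6 : n ≠ 6)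
    (hB : ∀ b ∈ B, ∃ c : ℤ, Φ b = ⟨c • ones n, c • c1 n, 1⟩) :
    ∃ Φ' : G →* Gb n, HypS n x y B Θ Φ' κ z := by
  have hn := H.base.hn
  have hfam : BFam n (fun k => ((piB n).comp Φ) (x k)) (((piB n).comp Φ) y) := by
    refine ⟨chain_map H.base.fam.chain ((piB n).comp Φ), ?_, ?_⟩
    · intro k hk
      show ((piB n).comp Φ) y * ((piB n).comp Φ) (x k) = ((piB n).comp Φ) (x k) * ((piB n).comp Φ) y
      rw [← map_mul, ← map_mul, H.base.fam.comm k hk]
    · show ((piB n).comp Φ) (x (n - 2)) * ((piB n).comp Φ) y * ((piB n).comp Φ) (x (n - 2)) *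
          ((piB n).comp Φ) y =
        ((piB n).comp Φ) y * ((piB n).comp Φ) (x (n - 2)) * ((piB n).comp Φ) y *
          ((piB n).comp Φ) (x (n - 2))
      rw [← map_mul, ← map_mul, ← map_mul, ← map_mul, ← map_mul, ← map_mul, H.base.fam.four]
  have hgen : Subgroup.closure ((fun k => ((piB n).comp Φ) (x k)) '' {k | k + 1 < n} ∪
      {((piB n).comp Φ) y}) = ⊤ := by
    rw [eq_top_iff]
    intro s _
    obtain ⟨g, hg⟩ := phiB_surj H s
    have h1 : g ∈ (Subgroup.closure ((fun k => ((piB n).comp Φ) (x k)) '' {k | k + 1 < n} ∪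
      {((piB n).comp Φ) y})).comap ((piB n).comp Φ) := by
      refine base_top H.base _ ?_ ?_ ?_ g
      · intro k hk
        exact Subgroup.subset_closure (Or.inl ⟨k, hk, rfl⟩)
      · exact Subgroup.subset_closure (Or.inr rfl)
      · intro b hb
        rw [Subgroup.mem_comap]
        have h2 : ((piB n).comp Φ) b = 1 := phiB_perm H b hb
        rw [h2]
        exact Subgroup.one_mem _
    rw [Subgroup.mem_comap] at h1
    have h2 : ((piB n).comp Φ) g = s := hg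
    rwa [h2] at h1
  obtain ⟨σ, hσ, hy1⟩ := perm_B hn h6 hfam hgen
  obtain ⟨g₀, hg₀⟩ := phiB_surj H σ⁻¹
  have hval : ∀ g, ((MulAut.conj (Φ g₀)).toMonoidHom.comp Φ) g = Φ g₀ * Φ g * (Φ g₀)⁻¹ := by
    intro g
    rfl
  refine ⟨(MulAut.conj (Φ g₀)).toMonoidHom.comp Φ, ?_, ?_, ?_, ?_⟩
  · refine ⟨H.base, H.hκ, ?_, H.hzc, H.hzT, ?_, H.hm, H.hret⟩
    · intro w
      rw [← H.hrange w]
      constructor
      · rintro ⟨g, rfl⟩
        exact ⟨g₀ * g * g₀⁻¹, by rw [hval, map_mul, map_mul, map_inv]⟩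
      · rintro ⟨g, rfl⟩
        refine ⟨g₀⁻¹ * g * g₀, ?_⟩
        rw [hval, map_mul, map_mul, map_inv]
        group
    · have hcomm : g₀ * z = z * g₀ := (Subgroup.mem_center_iff.1 H.hzc g₀)
      rw [hval, ← map_mul, hcomm, map_mul, mul_inv_cancel_right, H.hΦz]
  · intro k hk
    rw [hval]
    have h1 : (Φ (x k)).s = σ * sw n k * σ⁻¹ := hσ k hk
    rw [Gb.mul_s, Gb.mul_s, Gb.inv_s, hg₀, h1]
    group
  · rw [hval]
    have h1 : (Φ y).s = 1 := hy1
    rw [Gb.mul_s, Gb.mul_s, Gb.inv_s, hg₀, h1]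
    group
  · intro b hb
    obtain ⟨c, hc⟩ := hB b hb
    refine ⟨c, ?_⟩
    rw [hval, hc]
    obtain ⟨h1, h2, h3⟩ := gb_conj (Φ g₀) (⟨c • ones n, c • c1 n, 1⟩ : Gb n) rfl
    refine Gb.ext ?_ ?_ h3
    · rw [h1]
      show act (Φ g₀).s (c • ones n) = c • ones n
      rw [act_smul, act_ones]
    · rw [h2]
      rfl

/-- in standard form the two permutations agree -/
theorem hypS_same (H : HypS n x y B Θ Φ κ z) (g : G) : (Φ g).s = (Θ g).s := by
  have h1 : g ∈ (((piB n).comp Φ).eqLocus ((piB n).comp Θ)) := by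
    refine base_top H.hyp.base _ ?_ ?_ ?_ g
    · intro k hk
      show (Φ (x k)).s = (Θ (x k)).s
      rw [H.hsx k hk, H.hyp.base.hΘx k hk]
      rfl
    · show (Φ y).s = (Θ y).s
      rw [H.hsy, H.hyp.base.hΘy]
      rfl
    · intro b hb
      show (Φ b).s = (Θ b).s
      obtain ⟨c, hc⟩ := H.hsB b hb
      rw [hc, H.hyp.base.hΘB b hb]
      rfl
  exact h1

end ProfArtin
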