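import Pool.Agent.Work.MP_f6e909_al.TB.RelG
import Pool.Agent.Work.MP_f6e909_al.TB.RelW
import Pool.Agent.Work.MP_f6e909_al.TB.LEx
import Pool.Agent.Work.MP_f6e909_al.TB.Lift
import Pool.Agent.Work.MP_f6e909_al.TB.CenB
import Pool.Agent.Work.MP_f6e909_al.TB.BOnes
import Pool.Agent.Work.MP_f6e909_al.TB.StdB
import Pool.Agent.Work.MP_f6e909_al.TB.RelE
import Pool.Agent.Work.MP_f6e909_al.TB.RelD
import Pool.Agent.Work.MP_f6e909_al.TB.RelEta
import Pool.Agent.Work.MP_f6e909_al.TB.Arith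
import Pool.Agent.Work.MP_f6e909_al.Final

/-! # Type `B n`: assembly -/

namespace ProfArtin

variable {S : Type}

/-- the arithmetic conclusion of a hypothetical isomorphism -/
theorem hypB_dvd {G : Type} [Group G] {n : ℕ} {x : ℕ → G} {y : G} {B : Subgroup G}
    {Θ Φ : G →* Gb n} {κ : ℤ} {z : G} (H : HypS n x y B Θ Φ κ z) (hco : IsCoprime κ (n : ℤ)) :
    (n : ℤ) ∣ κ - 1 ∨ (n : ℤ) ∣ κ + 1 := by
  obtain ⟨a, b, c, h, l, hc, hl, hW⟩ := shapeW H
  obtain ⟨f, g, d, e, hV⟩ := shapeV H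
  obtain ⟨m, hE1, hE2⟩ := relE H hW hV
  exact arith_B hco hc hl hE1 hE2 (relEta H hW hV hE1 hE2) (relD H hW hV)

private theorem gb_pow (n : ℕ) (c : ℤ) (κ : ℕ) :
    (⟨c • ones n, c • c1 n, 1⟩ : Gb n) ^ κ = ⟨((κ : ℤ) * c) • ones n, ((κ : ℤ) * c) • c1 n, 1⟩ := by
  induction κ with
  | zero =>
    refine Gb.ext ?_ ?_ ?_
    · simp
    · simp
    · simp
  | succ k ih =>
    rw [pow_succ, ih]
    refine Gb.ext ?_ ?_ ?_
    · rw [Gb.mul_v]
      simp only
      rw [act_smul, act_one, ← add_smul]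
      congr 1
      push_cast
      ring
    · rw [Gb.mul_u]
      simp only
      change _ + c • c1 n = _
      rw [← add_smul]
      congr 1
      push_cast
      ring
    · simp

private theorem gb_zpow (n : ℕ) (c k : ℤ) :
    (⟨c • ones n, c • c1 n, 1⟩ : Gb n) ^ k = ⟨(k * c) • ones n, (k * c) • c1 n, 1⟩ := by
  rcases Int.eq_nat_or_neg k with ⟨j, rfl | rfl⟩
  · rw [zpow_natCast, gb_pow]
  · rw [zpow_neg, zpow_natCast, gb_pow]
    refine Gb.ext ?_ ?_ ?_
    · rw [Gb.inv_v]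
      simp only
      rw [act_smul, inv_one, act_one, ← neg_smul]
      congr 1
      ring
    · rw [Gb.inv_u]
      simp only
      change -(((j : ℤ) * c) • c1 n) = _
      rw [← neg_smul]
      congr 1
      ring
    · simp

private theorem gb_central (n : ℕ) (c : ℤ) (w : Gb n) :
    w * ⟨c • ones n, c • c1 n, 1⟩ = ⟨c • ones n, c • c1 n, 1⟩ * w := by
  refine Gb.ext ?_ ?_ ?_
  · rw [Gb.mul_v, Gb.mul_v]
    simp only
    rw [act_smul, act_ones, act_one, add_comm]
  · rw [Gb.mul_u, Gb.mul_u]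
    change w.u + c • c1 n = c • c1 n + w.u
    rw [add_comm]
  · simp

/-- scaling of the abelian part is an endomorphism -/
private theorem gb_scale (n : ℕ) (c : ℤ) :
    ∃ F : Gb n →* Gb n, ∀ x, F x = ⟨c • x.v, c • x.u, x.s⟩ := by
  refine ⟨MonoidHom.mk' (fun x => ⟨c • x.v, c • x.u, x.s⟩) ?_, fun x => rfl⟩
  intro x y
  refine Gb.ext ?_ ?_ rfl
  · simp only [Gb.mul_v, smul_add, act_smul]
  · simp only [Gb.mul_u, smul_add]
    rfl

private theorem central_of_comm (M : CoxeterMatrix S) (T : Set S)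
    (hcomm : ∀ s ∈ T, ∀ t ∉ T, M s t = 2) (h : ArtinGroup M)
    (hh : ∀ s ∈ T, h * gen M s = gen M s * h) (hht : h ∈ Subgroup.closure (gen M '' T)) :
    h ∈ Subgroup.center (ArtinGroup M) := by
  have h1 : Subgroup.closure (gen M '' T) ≤ Subgroup.centralizer {h} := by
    rw [Subgroup.closure_le]
    rintro _ ⟨s, hs, rfl⟩
    rw [SetLike.mem_coe, Subgroup.mem_centralizer_iff]
    intro k hk
    rw [Set.mem_singleton_iff.1 hk]
    exact hh s hs
  have h2 : Subgroup.closure (gen M '' Tᶜ) ≤ Subgroup.centralizer {h} := by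
    intro b hb
    rw [Subgroup.mem_centralizer_iff]
    intro k hk
    rw [Set.mem_singleton_iff.1 hk]
    have h3 : Subgroup.closure (gen M '' T) ≤ Subgroup.centralizer {b} := by
      rw [Subgroup.closure_le]
      rintro _ ⟨s, hs, rfl⟩
      rw [SetLike.mem_coe, Subgroup.mem_centralizer_iff]
      intro k hk
      rw [Set.mem_singleton_iff.1 hk]
      exact comp_comm M T hcomm b hb s hs
    have h4 := Subgroup.mem_centralizer_iff.1 (h3 hht) b (Set.mem_singleton b)
    exact h4.symm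
  rw [Subgroup.mem_center_iff]
  intro g
  have h5 : g ∈ Subgroup.centralizer {h} := by
    have : (⊤ : Subgroup (ArtinGroup M)) ≤ Subgroup.centralizer {h} := by
      rw [← comp_gen M T]
      exact sup_le h1 h2
    exact this (Subgroup.mem_top g)
  exact (Subgroup.mem_centralizer_iff.1 h5 h (Set.mem_singleton h)).symm

private theorem bx_last (M : CoxeterMatrix S) (T : Set S) {n : ℕ} (hn : 2 ≤ n) (e : Fin n ≃ T) :
    bx M T e (n - 1) = gen M (e ⟨n - 1, by omega⟩) := by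
  unfold bx
  rw [dif_pos]

private theorem bx_of (M : CoxeterMatrix S) (T : Set S) {n : ℕ} (e : Fin n ≃ T) {k : ℕ}
    (hk : k + 1 < n) : bx M T e k = gen M (e ⟨k, by omega⟩) := by
  unfold bx
  rw [dif_pos]

/-- the generators -/
private theorem bx_image (M : CoxeterMatrix S) (T : Set S) {n : ℕ} (hn : 2 ≤ n) (e : Fin n ≃ T) :
    bx M T e '' {k | k + 1 < n} ∪ {bx M T e (n - 1)} = gen M '' T := by
  ext g
  constructor
  · rintro (⟨k, hk, rfl⟩ | hg)
    · rw [bx_of M T e hk]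
      exact ⟨_, (e _).2, rfl⟩
    · rw [Set.mem_singleton_iff.1 hg, bx_last M T hn e]
      exact ⟨_, (e _).2, rfl⟩
  · rintro ⟨s, hs, rfl⟩
    obtain ⟨i, hi⟩ := e.surjective ⟨s, hs⟩
    have h1 : ((e i : T) : S) = s := by rw [hi]
    by_cases h : i.1 + 1 < n
    · refine Or.inl ⟨i.1, h, ?_⟩
      rw [bx_of M T e h, ← h1]
    · refine Or.inr ?_
      rw [Set.mem_singleton_iff, bx_last M T hn e, ← h1]
      have h2 : (⟨n - 1, by omega⟩ : Fin n) = i := Fin.ext (by have := i.2; simp only; omega)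
      rw [h2]

/-- the type `B n` case -/
theorem not_rigid_B [Finite S] (M : CoxeterMatrix S) (T : Set S)
    (hcomm : ∀ s ∈ T, ∀ t ∉ T, M s t = 2)
    (hcen : Subgroup.center (ArtinGroup (restrict M Tᶜ)) = ⊥) {n : ℕ} (hn : n = 5 ∨ 7 ≤ n)
    (e : Fin n ≃ T) (he : ∀ i j, M (e i) (e j) = CoxeterMatrix.B n i j) :
    ¬ ProfinitelyRigid (ArtinGroup M) := by
  intro hr
  have hn5 : 5 ≤ n := by omega
  have hn2 : 2 ≤ n := by omega
  set x := bx M T e with hx
  set y := bx M T e (n - 1) with hy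
  set B := Subgroup.closure (gen M '' Tᶜ) with hB
  have hfam : BFam n x y := b_fam M T hn2 e he
  have himg : x '' {k | k + 1 < n} ∪ {y} = gen M '' T := bx_image M T hn2 e
  obtain ⟨Θ, hΘx, hΘy, hΘT⟩ := b_lift M T hcomm hn2 e he (gb_fam hn2)
  obtain ⟨L, hLg, a, b, d, hL⟩ := lData_exists
  obtain ⟨Ψ, hΨx, hΨy, hΨT⟩ := b_lift M T hcomm hn2 e he (wl_fam hn2 hL.four)
  obtain ⟨r, hrx, hry, hrT⟩ := b_lift M T hcomm hn2 e he hfam
  obtain ⟨χ, hχx, hχy, hχT⟩ := b_lift (X := Multiplicative ℤ) M T hcomm hn2 e he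
    (x := fun _ => 1) (y := Multiplicative.ofAdd 1)
    ⟨⟨fun i j _ _ => rfl, fun i _ => rfl⟩, fun k _ => by rw [mul_comm], by simp [mul_comm]⟩
  have hkill : ∀ {X : Type} [Group X] (F : ArtinGroup M →* X), (∀ s, s ∉ T → F (gen M s) = 1) →
      ∀ b' ∈ B, F b' = 1 := by
    intro X _ F hF b' hb'
    have : B ≤ F.ker := by
      rw [hB, Subgroup.closure_le]
      rintro _ ⟨s, hs, rfl⟩
      exact hF s hs
    exact this hb'
  have hBx : ∀ b' ∈ B, ∀ k, k + 1 < n → b' * x k = x k * b' := by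
    intro b' hb' k hk
    rw [hx, bx_of M T e hk]
    exact comp_comm M T hcomm b' hb' _ (e _).2
  have hBy : ∀ b' ∈ B, b' * y = y * b' := by
    intro b' hb'
    rw [hy, bx_last M T hn2 e]
    exact comp_comm M T hcomm b' hb' _ (e _).2
  have base : BaseB n x y B Θ := by
    refine ⟨hn5, hfam, hBx, hBy, ?_, hΘx, hΘy, hkill Θ hΘT⟩
    rw [himg, hB, comp_gen]
  obtain ⟨h, hht, hhx, hhy, hhχ⟩ := cen_B hn2 hfam
  rw [himg] at hht
  have hcentral : h ∈ Subgroup.center (ArtinGroup M) := by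
    refine central_of_comm M T hcomm h ?_ hht
    intro s hs
    have h1 : gen M s ∈ x '' {k | k + 1 < n} ∪ {y} := by
      rw [himg]
      exact ⟨s, hs, rfl⟩
    rcases h1 with ⟨k, hk, h2⟩ | h2
    · rw [← h2]
      exact hhx k hk
    · rw [Set.mem_singleton_iff.1 h2]
      exact hhy
  have hχh : χ h = Multiplicative.ofAdd (n : ℤ) := by
    have := hhχ χ 0 1 (fun k hk => by rw [hχx k hk]; rfl) hχy
    rw [this]
    congr 1
    ring
  -- the value of `Θ` at `h`
  obtain ⟨⟨m, hm⟩, hΨh⟩ := base_center base hL Ψ hΨx hΨy (hkill Ψ hΨT) hcentral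
  have hsum : ∀ g : ArtinGroup M, ∑ i, (Θ g).u i = 2 * Multiplicative.toAdd (χ g) := by
    intro g
    let P : Subgroup (ArtinGroup M) :=
      { carrier := {g | ∑ i, (Θ g).u i = 2 * Multiplicative.toAdd (χ g)}
        mul_mem' := by
          intro g g' h1 h2
          change ∑ i, (Θ (g * g')).u i = 2 * Multiplicative.toAdd (χ (g * g'))
          rw [map_mul, map_mul, Gb.mul_u, toAdd_mul]
          simp only [Pi.add_apply, Finset.sum_add_distrib]
          rw [sum_actU]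
          have e1 : ∑ i, (Θ g).u i = 2 * Multiplicative.toAdd (χ g) := h1
          have e2 : ∑ i, (Θ g').u i = 2 * Multiplicative.toAdd (χ g') := h2
          rw [e1, e2]
          ring
        one_mem' := by
          change ∑ i, (Θ 1).u i = 2 * Multiplicative.toAdd (χ 1)
          rw [map_one, map_one]
          simp
        inv_mem' := by
          intro g h1
          change ∑ i, (Θ g⁻¹).u i = 2 * Multiplicative.toAdd (χ g⁻¹)
          rw [map_inv, map_inv, Gb.inv_u, toAdd_inv]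
          simp only [Pi.neg_apply, Finset.sum_neg_distrib]
          rw [sum_actU]
          have e1 : ∑ i, (Θ g).u i = 2 * Multiplicative.toAdd (χ g) := h1
          rw [e1]
          ring }
    refine base_top base P ?_ ?_ ?_ g
    · intro k hk
      change ∑ i, (Θ (x k)).u i = 2 * Multiplicative.toAdd (χ (x k))
      rw [base.hΘx k hk, hx, hχx k hk]
      simp [thS]
    · change ∑ i, (Θ y).u i = 2 * Multiplicative.toAdd (χ y)
      rw [base.hΘy, hy, hχy]
      change ∑ i, e2 n i = _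
      rw [sum_e2 (by omega)]
      rfl
    · intro b' hb'
      change ∑ i, (Θ b').u i = 2 * Multiplicative.toAdd (χ b')
      rw [base.hΘB b' hb', hkill χ hχT b' hb']
      simp
  have hm1 : m = 1 := by
    have h1 := hsum h
    rw [hm, hχh] at h1
    simp only [Pi.smul_apply, smul_eq_mul, toAdd_ofAdd] at h1
    rw [← Finset.mul_sum, sum_c1] at h1
    have h2 : (n : ℤ) ≠ 0 := by
      have : (5 : ℤ) ≤ n := by exact_mod_cast hn5
      omega
    have h3 : (n : ℤ) * (m - 1) = 0 := by linarith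
    rcases mul_eq_zero.1 h3 with h4 | h4
    · exact absurd h4 h2
    · linarith
  subst hm1
  have hΘh : Θ h = ⟨(2 : ℤ) • ones n, (2 : ℤ) • c1 n, 1⟩ := by
    rw [hm]
    norm_num
  obtain ⟨κ, hκ1, hco, hd1, hd2⟩ := kap_B hn
  obtain ⟨φ⟩ := rigid_twist (art_fg M) hr hcentral hκ1 χ _ hχh hco
  -- the scaled homomorphism of the twist
  obtain ⟨F, hFs⟩ := gb_scale n (κ : ℤ)
  obtain ⟨Θκ, hΘκ, hΘκz⟩ := tw_lift h κ (F.comp Θ) (⟨(2 : ℤ) • ones n, (2 : ℤ) • c1 n, 1⟩ : Gb n)
    (fun g => gb_central n 2 _) (by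
      rw [MonoidHom.comp_apply, hFs, hΘh, gb_pow]
      refine Gb.ext ?_ ?_ rfl
      · simp only
        rw [smul_smul]
      · simp only
        rw [smul_smul])
  obtain ⟨Ψκ, hΨκ, hΨκz⟩ := tw_lift h κ Ψ (1 : Wl n L) (fun g => by rw [mul_one, one_mul])
    (by rw [hΨh, one_pow])
  set Φ : ArtinGroup M →* Gb n := Θκ.comp φ.symm.toMonoidHom with hΦ
  set Ω : ArtinGroup M →* Wl n L := Ψκ.comp φ.symm.toMonoidHom with hΩ
  have hΦval : ∀ g, ∃ (g' : ArtinGroup M) (k : ℤ),
      Φ g = ⟨(κ : ℤ) • (Θ g').v + (2 * k) • ones n, (κ : ℤ) • (Θ g').u + (2 * k) • c1 n,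
        (Θ g').s⟩ ∧ Ω g = Ψ g' := by
    intro g
    obtain ⟨g', k, hg'⟩ := tw_surj h κ (φ.symm g)
    refine ⟨g', k, ?_, ?_⟩
    · rw [hΦ, MonoidHom.comp_apply]
      change Θκ (φ.symm g) = _
      rw [hg', map_mul, map_zpow, hΘκ, hΘκz, MonoidHom.comp_apply, hFs, gb_zpow]
      refine Gb.ext ?_ ?_ ?_
      · rw [Gb.mul_v]
        simp only
        rw [act_smul, act_ones, mul_comm k 2]
      · rw [Gb.mul_u]
        simp only
        change (κ : ℤ) • (Θ g').u + (k * 2) • c1 n = _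
        rw [mul_comm k 2]
      · simp
    · rw [hΩ, MonoidHom.comp_apply]
      change Ψκ (φ.symm g) = _
      rw [hg', map_mul, map_zpow, hΨκ, hΨκz, one_zpow, mul_one]
  have hzc : φ (twZ h κ) ∈ Subgroup.center (ArtinGroup M) := by
    rw [Subgroup.mem_center_iff]
    intro g
    have h1 := tw_z_comm h κ (φ.symm g)
    have h2 := congrArg φ h1
    rw [map_mul, map_mul, MulEquiv.apply_symm_apply] at h2
    exact h2
  have hyp : HypB n x y B Θ Φ (κ : ℤ) (φ (twZ h κ)) := by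
    refine ⟨base, by omega, ?_, hzc, ?_, ?_, ?_, ⟨r, hrx, hry, hkill r hrT⟩⟩
    · intro w
      constructor
      · rintro ⟨g, rfl⟩
        obtain ⟨g', k, h1, -⟩ := hΦval g
        exact ⟨g', k, h1⟩
      · rintro ⟨g', k, rfl⟩
        refine ⟨φ (twOf h κ g' * twZ h κ ^ k), ?_⟩
        rw [hΦ, MonoidHom.comp_apply]
        change Θκ (φ.symm (φ _)) = _
        rw [MulEquiv.symm_apply_apply, map_mul, map_zpow, hΘκ, hΘκz, MonoidHom.comp_apply, hFs,
          gb_zpow]
        refine Gb.ext ?_ ?_ ?_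
        · rw [Gb.mul_v]
          simp only
          rw [act_smul, act_ones, mul_comm k 2]
        · rw [Gb.mul_u]
          simp only
          change (κ : ℤ) • (Θ g').u + (k * 2) • c1 n = _
          rw [mul_comm k 2]
        · simp
    · rw [himg]
      exact comp_center M T hcomm hcen _ hzc
    · rw [hΦ, MonoidHom.comp_apply]
      change Θκ (φ.symm (φ _)) = _
      rw [MulEquiv.symm_apply_apply, hΘκz]
    · exact (base_center base hL Ψ hΨx hΨy (hkill Ψ hΨT) hzc).1
  have hones : ∀ b' ∈ B, ∃ c : ℤ, Φ b' = ⟨c • ones n, c • c1 n, 1⟩ := by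
    refine phiB_ones hyp hL Ψ hΨx hΨy (hkill Ψ hΨT) Ω ?_ ?_ ?_
    · ext w
      constructor
      · rintro ⟨g, rfl⟩
        obtain ⟨g', k, -, h1⟩ := hΦval g
        exact ⟨g', h1.symm⟩
      · rintro ⟨g', rfl⟩
        refine ⟨φ (twOf h κ g'), ?_⟩
        rw [hΩ, MonoidHom.comp_apply]
        change Ψκ (φ.symm (φ _)) = _
        rw [MulEquiv.symm_apply_apply, hΨκ]
    · intro g
      obtain ⟨g', k, h1, h2⟩ := hΦval g
      rw [h1, h2]
      exact (base_link base hL Ψ hΨx hΨy (hkill Ψ hΨT) g').1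
    · intro g i j hij
      obtain ⟨g', k, h1, h2⟩ := hΦval g
      have h3 := (base_link base hL Ψ hΨx hΨy (hkill Ψ hΨT) g').2.2.2 i j hij
      rw [h1, h2]
      simp only [Pi.add_apply, Pi.smul_apply, smul_eq_mul, c1, ones, if_neg hij]
      linear_combination (κ : ℤ) * h3
  obtain ⟨Φ', hS⟩ := hypS_exists hyp (by omega) hones
  rcases hypB_dvd hS hco with h1 | h1
  · exact hd1 h1
  · exact hd2 h1

end ProfArtin
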