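import Pool.Agent.Work.MP_f6e909_al.TB.Link

/-!
# Module Om (M-L): a second homomorphism with the same image kills `B`

`Ω : G →* Wl n L` has the same image as `Ψ`, and the permutations of `Ω b'`, `b' ∈ B`, are trivial.
Then `(Ω b').f i j = 1` for `b' ∈ B` and `i = n - 2`, `j = n - 1`.

PROOF. Let `C = Ω (closure (x '' .. ∪ {y}))`, `D = Ω B`; they commute elementwise (`H.hBx`,
`H.hBy`), and every element of the image of `Ω` (= image of `Ψ`) is a product `c * e` with `c ∈ C`,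
`e ∈ D` (`H.hgen`; `Subgroup.mem_sup` for commuting subgroups, or closure induction). All elements of
the image of `Ψ` are symmetric with value `1` on the diagonal (`base_link`). Write `ev w = w.f i j`.
(1) If `c ∈ C` preserves the pair `{i, j}` (`c.s` maps `{i, j}` to itself) and `e ∈ D` (so `e.s = 1`),
then `c * e = e * c` at `(i, j)` gives `ev c * ev e = ev e * ev c` (symmetry of `e.f`).
(2) `Ψ (x (n - 2)) = c * e`: `c.s = sw n (n - 2)` preserves `{i, j}`, and `a = ev c * ev e`;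
`Ψ y = c' * e'`: `c'.s = 1`, `b = ev c' * ev e'`.
(3) Suppose `ev (Ω b') ≠ 1`. By `hL.ct` with `x := ev (Ω b')` all `ev c`, `c ∈ C` preserving
`{i, j}`, commute with each other. If `ev c₀ ≠ 1` for some such `c₀`, then by `hL.ct` all `ev e`,
`e ∈ D`, commute with each other, and with (1), (2) `a * b = b * a`, against `hL.nc`.
So `ev c = 1` for all `c ∈ C` preserving `{i, j}`.
(4) Let `u = Ψ (x (n - 2) * x (n - 2)) = c₁ * e₁`; `u.s = 1`, so `c₁.s = 1`. For `p ≠ q` there is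
`c ∈ C` with `c.s i = p`, `c.s j = q` (all permutations occur in the image of `Ψ` by `base_surj`, and
`e.s = 1` for `e ∈ D`). The element `c⁻¹ * c₁ * c ∈ C` has trivial permutation, so its value at
`(i, j)` is `1`; it is `(c.f p q)⁻¹ * c₁.f p q * c.f p q`; so `c₁.f p q = 1`. With the diagonal
`c₁ = 1` and `u = e₁ ∈ D` commutes with `C`.
(5) `u.f i j = a * a`, and `u.f p q = 1` for `p = 0`, `q = 1` (`n ≥ 4`; `wlS n a (n - 2)` has value `1`
there and `sw n (n - 2)` fixes `0`, `1`). With `c ∈ C`, `c.s i = p`, `c.s j = q`: `c * u = u * c` at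
`(p, q)` reads `c.f p q * (a * a) = 1 * c.f p q`, so `a * a = 1`, but `d (a * a)` is `2`.
-/

namespace ProfArtin

variable {G : Type} [Group G] {n : ℕ} {x : ℕ → G} {y : G} {B : Subgroup G} {Θ : G →* Gb n}
  {L : Type} [Group L] {a b : L} {d : L →* Multiplicative ℤ}

private theorem om_dec {G : Type} [Group G] (T B : Subgroup G)
    (hc : ∀ t ∈ T, ∀ b ∈ B, t * b = b * t) (ht : T ⊔ B = ⊤) (g : G) :
    ∃ t ∈ T, ∃ b ∈ B, g = t * b := by
  let S : Subgroup G :=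
    { carrier := {g | ∃ t ∈ T, ∃ b ∈ B, g = t * b}
      one_mem' := ⟨1, T.one_mem, 1, B.one_mem, (mul_one 1).symm⟩
      mul_mem' := by
        rintro _ _ ⟨t, ht, b, hb, rfl⟩ ⟨t', ht', b', hb', rfl⟩
        refine ⟨t * t', T.mul_mem ht ht', b * b', B.mul_mem hb hb', ?_⟩
        calc t * b * (t' * b') = t * (b * t') * b' := by group
          _ = t * (t' * b) * b' := by rw [hc t' ht' b hb]
          _ = t * t' * (b * b') := by group
      inv_mem' := by
        rintro _ ⟨t, ht, b, hb, rfl⟩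
        refine ⟨t⁻¹, T.inv_mem ht, b⁻¹, B.inv_mem hb, ?_⟩
        rw [mul_inv_rev, hc t⁻¹ (T.inv_mem ht) b⁻¹ (B.inv_mem hb)] }
  have h1 : T ⊔ B ≤ S := sup_le (fun t ht => ⟨t, ht, 1, B.one_mem, (mul_one t).symm⟩)
    (fun b hb => ⟨1, T.one_mem, b, hb, (one_mul b).symm⟩)
  rw [ht] at h1
  exact h1 (Subgroup.mem_top g)

private theorem om_two {n : ℕ} {i j p q : Fin n} (hij : i ≠ j) (hpq : p ≠ q) :
    ∃ s : Equiv.Perm (Fin n), s i = p ∧ s j = q := by
  have h1 : p ≠ Equiv.swap i p j := by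
    intro h
    have h2 : Equiv.swap i p i = Equiv.swap i p j := by rw [Equiv.swap_apply_left]; exact h
    exact hij ((Equiv.swap i p).injective h2)
  refine ⟨Equiv.swap (Equiv.swap i p j) q * Equiv.swap i p, ?_, ?_⟩
  · rw [Equiv.Perm.mul_apply, Equiv.swap_apply_left, Equiv.swap_apply_of_ne_of_ne h1 hpq]
  · rw [Equiv.Perm.mul_apply, Equiv.swap_apply_left]

private theorem om_comm4 {L : Type} [Group L] {c e c' e' : L}
    (h2 : c * c' = c' * c) (h3 : c * e' = e' * c) (h4 : e * c' = c' * e) (h5 : e * e' = e' * e) : c * e * (c' * e') = c' * e' * (c * e) := by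
  have a1 : Commute c (c' * e') := Commute.mul_right h2 h3
  have a2 : Commute e (c' * e') := Commute.mul_right h4 h5
  exact (a1.mul_left a2).eq

theorem om_trivial (H : BaseB n x y B Θ) (hL : LData L a b d) (Ψ : G →* Wl n L)
    (hx : ∀ k, k + 1 < n → Ψ (x k) = wlS n a k) (hy : Ψ y = wlT n b) (hB : ∀ b' ∈ B, Ψ b' = 1)
    (Ω : G →* Wl n L) (hr : Ω.range = Ψ.range) (hΩ : ∀ b' ∈ B, (Ω b').s = 1)
    {b' : G} (hb : b' ∈ B) (i j : Fin n) (hi : i.1 + 2 = n) (hj : j.1 + 1 = n) :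
    (Ω b').f i j = 1 := by
  classical
  have hn := H.hn
  have hij : i ≠ j := by
    intro h
    rw [h] at hi
    omega
  obtain ⟨T, hT⟩ : ∃ T, T = Subgroup.closure (x '' {k | k + 1 < n} ∪ {y}) := ⟨_, rfl⟩
  have hgen : T ⊔ B = ⊤ := by
    rw [hT]
    exact H.hgen
  have hTB : ∀ t ∈ T, ∀ b ∈ B, t * b = b * t := by
    intro t ht b hb
    have h1 : T ≤ Subgroup.centralizer {b} := by
      rw [hT, Subgroup.closure_le]
      rintro z (⟨k, hk, rfl⟩ | hz)
      · rw [SetLike.mem_coe, Subgroup.mem_centralizer_singleton_iff]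
        exact (H.hBx b hb k hk).symm
      · rw [Set.mem_singleton_iff.1 hz, SetLike.mem_coe, Subgroup.mem_centralizer_singleton_iff]
        exact (H.hBy b hb).symm
    have h2 := h1 ht
    rw [Subgroup.mem_centralizer_singleton_iff] at h2
    exact h2
  have hdec := om_dec T B hTB hgen
  have hlink := base_link H hL Ψ hx hy hB
  have hΩΨ : ∀ g, ∃ g', Ω g = Ψ g' := by
    intro g
    have h1 : Ω g ∈ Ψ.range := by
      rw [← hr]
      exact ⟨g, rfl⟩
    obtain ⟨g', hg'⟩ := h1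
    exact ⟨g', hg'.symm⟩
  have hΨΩ : ∀ g, ∃ g', Ψ g = Ω g' := by
    intro g
    have h1 : Ψ g ∈ Ω.range := by
      rw [hr]
      exact ⟨g, rfl⟩
    obtain ⟨g', hg'⟩ := h1
    exact ⟨g', hg'.symm⟩
  have hdiag : ∀ g p, (Ω g).f p p = 1 := by
    intro g p
    obtain ⟨g', hg'⟩ := hΩΨ g
    rw [hg']
    exact (hlink g').2.1 p
  have hsym : ∀ g p q, (Ω g).f p q = (Ω g).f q p := by
    intro g p q
    obtain ⟨g', hg'⟩ := hΩΨ g
    rw [hg']
    exact (hlink g').2.2.1 p q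
  have hsurj : ∀ s : Equiv.Perm (Fin n), ∃ t ∈ T, (Ω t).s = s := by
    intro s
    obtain ⟨g, _, hg⟩ := base_surj H s
    obtain ⟨g', hg'⟩ := hΨΩ g
    obtain ⟨t, ht, b, hb, rfl⟩ := hdec g'
    refine ⟨t, ht, ?_⟩
    rw [← hg, ← (hlink g).1, hg', map_mul, Wl.mul_s, hΩ b hb, mul_one]
  -- elements which preserve the pair
  have hpe : ∀ t b, b ∈ B → (((Ω t).s.symm i = i ∧ (Ω t).s.symm j = j) ∨
      ((Ω t).s.symm i = j ∧ (Ω t).s.symm j = i)) →
      (Ω (t * b)).f i j = (Ω t).f i j * (Ω b).f i j := by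
    intro t b _ hp
    rw [map_mul, Wl.mul_f]
    rcases hp with ⟨h1, h2⟩ | ⟨h1, h2⟩
    · rw [h1, h2]
    · rw [h1, h2, hsym b j i]
  have hce : ∀ t ∈ T, ∀ b ∈ B, (((Ω t).s.symm i = i ∧ (Ω t).s.symm j = j) ∨
      ((Ω t).s.symm i = j ∧ (Ω t).s.symm j = i)) →
      (Ω t).f i j * (Ω b).f i j = (Ω b).f i j * (Ω t).f i j := by
    intro t ht b hb hp
    rw [← hpe t b hb hp, hTB t ht b hb, map_mul, Wl.mul_f, hΩ b hb]
    rfl
  by_contra hne
  -- the decompositions of the generators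
  have hik : n - 2 + 1 < n := by omega
  have hSs : (wlS n a (n - 2)).s = sw n (n - 2) := rfl
  have hii : i = ⟨n - 2, by omega⟩ := Fin.ext (by show i.1 = n - 2; omega)
  have hjj : j = ⟨n - 2 + 1, hik⟩ := Fin.ext (by show j.1 = n - 2 + 1; omega)
  have hsw : sw n (n - 2) = Equiv.swap i j := by
    unfold sw
    rw [dif_pos hik]
    exact congrArg₂ Equiv.swap hii.symm hjj.symm
  have hswi : (sw n (n - 2)).symm i = j := by
    rw [hsw, Equiv.symm_swap, Equiv.swap_apply_left]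
  have hswj : (sw n (n - 2)).symm j = i := by
    rw [hsw, Equiv.symm_swap, Equiv.swap_apply_right]
  have hSij : (wlS n a (n - 2)).f i j = a := by
    show (if (i.1 = n - 2 ∧ j.1 = n - 2 + 1) ∨ (i.1 = n - 2 + 1 ∧ j.1 = n - 2) then a else 1) = a
    rw [if_pos]
    left
    omega
  have hSji : (wlS n a (n - 2)).f j i = a := by
    show (if (j.1 = n - 2 ∧ i.1 = n - 2 + 1) ∨ (j.1 = n - 2 + 1 ∧ i.1 = n - 2) then a else 1) = a
    rw [if_pos]
    right
    omega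
  have hTij : (wlT n b).f i j = b := by
    show (if i ≠ j ∧ (i.1 + 1 = n ∨ j.1 + 1 = n) then b else 1) = b
    rw [if_pos ⟨hij, Or.inr hj⟩]
  obtain ⟨g1, hg1⟩ := hΨΩ (x (n - 2))
  obtain ⟨c, hcT, e, heB, rfl⟩ := hdec g1
  obtain ⟨g2, hg2⟩ := hΨΩ y
  obtain ⟨c', hcT', e', heB', rfl⟩ := hdec g2
  rw [hx (n - 2) hik] at hg1
  rw [hy] at hg2
  have hcs : (Ω c).s = sw n (n - 2) := by
    have h1 := congrArg Wl.s hg1
    rw [map_mul, Wl.mul_s, hΩ e heB, mul_one] at h1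
    exact h1.symm
  have hcs' : (Ω c').s = 1 := by
    have h1 := congrArg Wl.s hg2
    rw [map_mul, Wl.mul_s, hΩ e' heB', mul_one] at h1
    exact h1.symm
  have hcp : ((Ω c).s.symm i = i ∧ (Ω c).s.symm j = j) ∨
      ((Ω c).s.symm i = j ∧ (Ω c).s.symm j = i) := by
    rw [hcs]
    exact Or.inr ⟨hswi, hswj⟩
  have hcp' : ((Ω c').s.symm i = i ∧ (Ω c').s.symm j = j) ∨
      ((Ω c').s.symm i = j ∧ (Ω c').s.symm j = i) := by
    rw [hcs']
    exact Or.inl ⟨rfl, rfl⟩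
  have ea : a = (Ω c).f i j * (Ω e).f i j := by
    rw [← hpe c e heB hcp, ← hg1, hSij]
  have eb : b = (Ω c').f i j * (Ω e').f i j := by
    rw [← hpe c' e' heB' hcp', ← hg2, hTij]
  have hcc : ∀ t ∈ T, ∀ t' ∈ T, (((Ω t).s.symm i = i ∧ (Ω t).s.symm j = j) ∨
      ((Ω t).s.symm i = j ∧ (Ω t).s.symm j = i)) →
      (((Ω t').s.symm i = i ∧ (Ω t').s.symm j = j) ∨
      ((Ω t').s.symm i = j ∧ (Ω t').s.symm j = i)) →
      (Ω t).f i j * (Ω t').f i j = (Ω t').f i j * (Ω t).f i j := by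
    intro t ht t' ht' hp hp'
    exact hL.ct _ _ _ hne (hce t ht b' hb hp).symm (hce t' ht' b' hb hp').symm
  -- (3)
  have hone : ∀ t ∈ T, (((Ω t).s.symm i = i ∧ (Ω t).s.symm j = j) ∨
      ((Ω t).s.symm i = j ∧ (Ω t).s.symm j = i)) → (Ω t).f i j = 1 := by
    intro t ht hp
    by_contra hne2
    have hee : ∀ e₁ ∈ B, ∀ e₂ ∈ B, (Ω e₁).f i j * (Ω e₂).f i j = (Ω e₂).f i j * (Ω e₁).f i j :=
      fun e₁ he₁ e₂ he₂ => hL.ct _ _ _ hne2 (hce t ht e₁ he₁ hp) (hce t ht e₂ he₂ hp)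
    apply hL.nc
    rw [ea, eb]
    exact om_comm4 (hcc c hcT c' hcT' hcp hcp') (hce c hcT e' heB' hcp)
      (hce c' hcT' e heB hcp').symm (hee e heB e' heB')
  -- (4)
  obtain ⟨g3, hg3⟩ := hΨΩ (x (n - 2) * x (n - 2))
  obtain ⟨t₁, ht₁, b₁, hb₁, rfl⟩ := hdec g3
  rw [map_mul, hx (n - 2) hik] at hg3
  have hsw2 : sw n (n - 2) * sw n (n - 2) = 1 := by
    rw [hsw]
    exact Equiv.swap_mul_self _ _
  have ht₁s : (Ω t₁).s = 1 := by
    have h1 := congrArg Wl.s hg3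
    rw [map_mul, Wl.mul_s, Wl.mul_s, hΩ b₁ hb₁, mul_one, hSs, hsw2] at h1
    exact h1.symm
  have hc1 : Ω t₁ = 1 := by
    refine Wl.ext ?_ ht₁s
    funext p q
    show (Ω t₁).f p q = 1
    by_cases hpq : p = q
    · rw [hpq, hdiag]
    · obtain ⟨s, hsi, hsj⟩ := om_two hij hpq
      obtain ⟨t, ht, hts⟩ := hsurj s
      have h1 := hone (t⁻¹ * t₁ * t) (T.mul_mem (T.mul_mem (T.inv_mem ht) ht₁) ht) (by
        left
        rw [map_mul, map_mul, map_inv, Wl.mul_s, Wl.mul_s, Wl.inv_s, ht₁s, mul_one,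
          inv_mul_cancel]
        exact ⟨rfl, rfl⟩)
      rw [map_mul, map_mul, map_inv, Wl.mul_f, Wl.mul_f, Wl.inv_f, Wl.mul_s, Wl.inv_s, ht₁s,
        mul_one, hts] at h1
      have e1 : (s⁻¹ : Equiv.Perm (Fin n)).symm i = p := hsi
      have e2 : (s⁻¹ : Equiv.Perm (Fin n)).symm j = q := hsj
      rw [e1, e2, hsi, hsj, mul_assoc, inv_mul_eq_one] at h1
      exact mul_eq_right.1 h1.symm
  have hcomm : ∀ t ∈ T, Ω t * (wlS n a (n - 2) * wlS n a (n - 2)) =
      wlS n a (n - 2) * wlS n a (n - 2) * Ω t := by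
    intro t ht
    rw [hg3, map_mul, hc1, one_mul, ← map_mul, ← map_mul, hTB t ht b₁ hb₁]
  -- (5)
  obtain ⟨p, hp⟩ : ∃ p : Fin n, p = ⟨0, by omega⟩ := ⟨_, rfl⟩
  obtain ⟨q, hq⟩ : ∃ q : Fin n, q = ⟨1, by omega⟩ := ⟨_, rfl⟩
  have hpq : p ≠ q := by
    rw [hp, hq]
    simp
  obtain ⟨s, hsi, hsj⟩ := om_two hij hpq
  obtain ⟨t, ht, hts⟩ := hsurj s
  have h1 := congrArg (fun w : Wl n L => w.f p q) (hcomm t ht)
  simp only [Wl.mul_f, Wl.mul_s, hSs, hsw2, hts] at h1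
  have e1 : s.symm p = i := by rw [← hsi, Equiv.symm_apply_apply]
  have e2 : s.symm q = j := by rw [← hsj, Equiv.symm_apply_apply]
  have hpi : p ≠ i := Fin.ne_of_val_ne (by
    rw [hp]
    show 0 ≠ i.1
    omega)
  have hpj : p ≠ j := Fin.ne_of_val_ne (by
    rw [hp]
    show 0 ≠ j.1
    omega)
  have hqi : q ≠ i := Fin.ne_of_val_ne (by
    rw [hq]
    show 1 ≠ i.1
    omega)
  have hqj : q ≠ j := Fin.ne_of_val_ne (by
    rw [hq]
    show 1 ≠ j.1
    omega)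
  have e3 : (sw n (n - 2)).symm p = p := by
    rw [hsw, Equiv.symm_swap, Equiv.swap_apply_of_ne_of_ne hpi hpj]
  have e4 : (sw n (n - 2)).symm q = q := by
    rw [hsw, Equiv.symm_swap, Equiv.swap_apply_of_ne_of_ne hqi hqj]
  have e5 : (wlS n a (n - 2)).f p q = 1 := by
    show (if (p.1 = n - 2 ∧ q.1 = n - 2 + 1) ∨ (p.1 = n - 2 + 1 ∧ q.1 = n - 2) then a else 1) = 1
    rw [if_neg]
    rw [hp, hq]
    simp only
    omega
  have e6 : ((1 : Equiv.Perm (Fin n)).symm p) = p := rfl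
  have e7 : ((1 : Equiv.Perm (Fin n)).symm q) = q := rfl
  rw [e1, e2, hswi, hswj, hSij, hSji, e3, e4, e5, e6, e7, one_mul, one_mul] at h1
  have h2 : a * a = 1 := mul_eq_left.1 h1
  have h3 : d (a * a) = 1 := by
    rw [h2]
    exact d.map_one
  rw [MonoidHom.map_mul, hL.da] at h3
  have h4 : Multiplicative.toAdd (Multiplicative.ofAdd (1 : ℤ) * Multiplicative.ofAdd (1 : ℤ)) =
      Multiplicative.toAdd (1 : Multiplicative ℤ) := by rw [h3]
  rw [toAdd_mul, toAdd_ofAdd, toAdd_one] at h4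
  norm_num at h4

end ProfArtin
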