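import Pool.Agent.Work.MP_f6e909_al.TB.Defs

/-!
# Module RelG (S): the relations of type `B n` in `Gb n`

PROOF. `chain.comm`, `chain.braid`: the components `v` and `s` are `gam_comm`, `gam_braid` of
GamRel.lean (apply `congrArg Gam.v`, `congrArg Gam.s` to them; the product of `Gb` has the same
`v` and `s` components as the product of `Gam`), the components `u` are all `0`.
`comm` (`k + 2 < n`): the `v` components are `E n k` on both sides; the `u` components are `e2 n` and
`actU (sw n k) (e2 n)`, equal because `sw n k` fixes the last point; `s` clear.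
`four` (`k = n - 2`, `σ = sw n (n - 2)`, `σ * σ = 1`): both `v` components are
`E n k + act σ (E n k)`, both `u` components are `e2 n + actU σ (e2 n)`.
-/

namespace ProfArtin

private theorem actU_zero {n : ℕ} (s : Equiv.Perm (Fin n)) : actU s 0 = 0 := rfl

private theorem actU_one {n : ℕ} (u : Fin n → ℤ) : actU 1 u = u := rfl

private theorem act_zero' {n : ℕ} (s : Equiv.Perm (Fin n)) : act s 0 = 0 := rfl

private theorem act_one' {n : ℕ} (u : Fin n → Fin n → ℤ) : act 1 u = u := rfl

private theorem sw_eq' {n k : ℕ} (hk : k + 1 < n) :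
    sw n k = Equiv.swap ⟨k, by omega⟩ ⟨k + 1, hk⟩ := dif_pos hk

theorem gb_fam {n : ℕ} (hn : 2 ≤ n) : BFam n (thS n) (thT n) := by
  refine ⟨⟨?_, ?_⟩, ?_, ?_⟩
  · intro i j hij hj
    have h := gam_comm (n := n) (k := i) (l := j) hij (by omega)
    refine Gb.ext ?_ ?_ ?_
    · exact congrArg Gam.v h
    · rfl
    · exact congrArg Gam.s h
  · intro i hi
    have h := gam_braid (n := n) (k := i) (by omega)
    refine Gb.ext ?_ ?_ ?_
    · exact congrArg Gam.v h
    · rfl
    · exact congrArg Gam.s h
  · intro k hk
    refine Gb.ext ?_ ?_ ?_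
    · show 0 + act 1 (E n k) = E n k + act (sw n k) 0
      rw [act_zero', act_one', zero_add, add_zero]
    · show e2 n + actU 1 0 = 0 + actU (sw n k) (e2 n)
      rw [actU_zero, zero_add, add_zero]
      funext i
      have h1 : (((sw n k).symm i).1 + 1 = n) ↔ (i.1 + 1 = n) := by
        rw [sw_eq' (show k + 1 < n by omega), Equiv.symm_swap, Equiv.swap_apply_def]
        split_ifs with h1 h2
        · rw [h1]
          dsimp only
          omega
        · rw [h2]
          dsimp only
          omega
        · exact Iff.rfl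
      unfold actU e2
      simp only [h1]
    · show 1 * sw n k = sw n k * 1
      rw [one_mul, mul_one]
  · have hσ : sw n (n - 2) * sw n (n - 2) = 1 := by
      rw [sw_eq' (show n - 2 + 1 < n by omega), Equiv.swap_mul_self]
    obtain ⟨σ, hσd⟩ : ∃ σ, σ = sw n (n - 2) := ⟨_, rfl⟩
    rw [← hσd] at hσ
    refine Gb.ext ?_ ?_ ?_
    · simp only [thS, thT, Gb.mul_v, Gb.mul_s, ← hσd, act_zero', act_one', mul_one, one_mul,
        zero_add, add_zero]
    · simp only [thS, thT, Gb.mul_u, Gb.mul_s, ← hσd, actU_zero, actU_one, mul_one, one_mul,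
        zero_add, add_zero, hσ]
      exact add_comm _ _
    · simp only [thS, thT, Gb.mul_s, ← hσd, mul_one, one_mul]

end ProfArtin
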