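import Pool.Agent.Work.MP_f6e909_al.TB.StdB

/-!
# Module Shape (M): the shape of `Φ (x 0 * x 0)` and `Φ y`

PROOF. Write `W = Φ (x 0 * x 0)`. `W.s = 1` (`sw n 0 * sw n 0 = 1`). `x 0 * x 0` commutes with `x 0`
and with `x k`, `k ≥ 2` (`comm` of the chain), whose permutations are `sw n 0`, `sw n k`; so
(`gb_comm_inv`) `W.v` and `W.u` are invariant under these. `W.v` is symmetric with zero diagonal
(`phiB_symm`), so `W.v = tri n A B' C` (`tri_of_inv`, Fun.lean), and `W.u = two n h' l'` (it is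
constant on `{0, 1}` and on `{2, .., n - 1}`: `u` invariant under `sw n k` means
`u k = u (k + 1)`). All entries are even (`phiB_even`), so
`W = ⟨2 • tri n a b c, 2 • two n h l, 1⟩` (`2 • tri n a b c = tri n (2a) (2b) (2c)`).
Parity of `c` and `l`: by `hrange` `Φ (x 0) = ⟨κ • (Θ g).v + (2 * k) • ones n,
κ • (Θ g).u + (2 * k) • c1 n, (Θ g).s⟩` with `(Θ g).s = sw n 0`. The element `g * (x 0)⁻¹` has
`(Θ (g * (x 0)⁻¹)).s = 1`, so by `base_even` `Θ (g * (x 0)⁻¹) = ⟨2 • w, 2 • w', 1⟩` and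
`Θ g = ⟨2 • w + E n 0, 2 • w', sw n 0⟩`. Hence, for `i = 2`, `j = 3` (fixed by `sw n 0`,
`E n 0 i j = 0`): `(Φ (x 0)).v i j = 2 * κ * w i j + 2 * k` is even, and
`W.v i j = 2 * (Φ (x 0)).v i j` (product formula), so `c = (Φ (x 0)).v i j` is even. The same for
`u` at `j = 2`: `l = (Φ (x 0)).u j = 2 * κ * w' j + 2 * k` is even.
`Φ y`: `(Φ y).s = 1`; `y` commutes with `x k` for `k + 2 < n`, so `(Φ y).v`, `(Φ y).u` are invariant
under `sw n k`, `k ≤ n - 3`, i.e. under all permutations of `{0, .., n - 2}`; so `(Φ y).u` is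
constant on `{0, .., n - 2}`, and `(Φ y).v` is constant on the pairs inside `{0, .., n - 2}` and on
the pairs `{i, n - 1}` (for the first: as `inv_ones` or `tri_of_inv`; e.g. invariance under
`sw n k` gives `v i j = v (i + 1) j` for `j ≠ i, i + 1`, and moving one index at a time every pair
`i < j ≤ n - 2` is reached from `(0, 1)`). All entries are even (`phiB_even`).
-/

namespace ProfArtin

/-- `h` at the places `0`, `1`, and `l` elsewhere -/
def two (n : ℕ) (h l : ℤ) : Fin n → ℤ := fun i => if i.1 < 2 then h else l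

/-- `f` at the pairs containing the last point, `g` at the other pairs -/
def tri1 (n : ℕ) (f g : ℤ) : Fin n → Fin n → ℤ := fun i j =>
  if i = j then 0 else if i.1 + 1 = n ∨ j.1 + 1 = n then f else g

/-- `d` at the last place, `e` elsewhere -/
def lst (n : ℕ) (d e : ℤ) : Fin n → ℤ := fun i => if i.1 + 1 = n then d else e

variable {G : Type} [Group G] {n : ℕ} {x : ℕ → G} {y : G} {B : Subgroup G} {Θ Φ : G →* Gb n}
  {κ : ℤ} {z : G}

private theorem sh_sw {k : ℕ} (hk : k + 1 < n) :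
    sw n k = Equiv.swap ⟨k, by omega⟩ ⟨k + 1, hk⟩ := dif_pos hk

private theorem sh_swap (P : Equiv.Perm (Fin n) → Prop) (h1 : P 1)
    (hm : ∀ s t, P s → P t → P (s * t)) (hs : ∀ k, k + 2 < n → P (sw n k)) :
    ∀ i j : Fin n, i.1 + 1 < n → j.1 + 1 < n → P (Equiv.swap i j) := by
  have key : ∀ (d a : ℕ) (h : a + d + 1 < n),
      P (Equiv.swap (⟨a, by omega⟩ : Fin n) ⟨a + d, by omega⟩) := by
    intro d
    induction d with
    | zero =>
      intro a h
      have e : (⟨a + 0, by omega⟩ : Fin n) = ⟨a, by omega⟩ := Fin.ext rfl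
      rw [e, Equiv.swap_self]
      exact h1
    | succ d ih =>
      intro a h
      rcases Nat.eq_zero_or_pos d with hd | hd
      · subst hd
        have h2 := hs a (by omega)
        rw [sh_sw (by omega)] at h2
        exact h2
      · have h2 := ih a (by omega)
        have h3 := hs (a + d) (by omega)
        rw [sh_sw (by omega)] at h3
        have h4 := Equiv.swap_mul_swap_mul_swap (x := (⟨a, by omega⟩ : Fin n))
          (y := ⟨a + d, by omega⟩) (z := ⟨a + d + 1, by omega⟩)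
          (by simp only [ne_eq, Fin.mk.injEq]; omega) (by simp only [ne_eq, Fin.mk.injEq]; omega)
        have h5 := hm _ _ (hm _ _ h3 h2) h3
        rw [h4, Equiv.swap_comm] at h5
        exact h5
  intro i j hi hj
  rcases le_total i.1 j.1 with h | h
  · have h2 := key (j.1 - i.1) i.1 (by omega)
    have e : (⟨i.1 + (j.1 - i.1), by omega⟩ : Fin n) = j := Fin.ext (by show i.1 + (j.1 - i.1) = j.1; omega)
    rw [e] at h2
    exact h2
  · have h2 := key (i.1 - j.1) j.1 (by omega)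
    have e : (⟨j.1 + (i.1 - j.1), by omega⟩ : Fin n) = i := Fin.ext (by show j.1 + (i.1 - j.1) = i.1; omega)
    rw [e, Equiv.swap_comm] at h2
    exact h2

private theorem sh_u {s : Equiv.Perm (Fin n)} {u : Fin n → ℤ} (h : actU s u = u) (i : Fin n) :
    u (s.symm i) = u i := congrFun h i

private theorem sh_v {s : Equiv.Perm (Fin n)} {v : Fin n → Fin n → ℤ} (h : act s v = v)
    (i j : Fin n) : v (s.symm i) (s.symm j) = v i j := congrFun (congrFun h i) j

theorem shapeW (H : HypS n x y B Θ Φ κ z) : ∃ a b c h l : ℤ, Even c ∧ Even l ∧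
    Φ (x 0 * x 0) = ⟨(2 : ℤ) • tri n a b c, (2 : ℤ) • two n h l, 1⟩ := by
  have hn := H.hyp.base.hn
  have hsx0 := H.hsx 0 (by omega)
  have hW : (Φ (x 0 * x 0)).s = 1 := by
    rw [map_mul, Gb.mul_s, hsx0, sh_sw (by omega)]
    exact Equiv.swap_mul_self _ _
  have hinv : ∀ k, k + 1 < n → (k = 0 ∨ 2 ≤ k) →
      act (sw n k) (Φ (x 0 * x 0)).v = (Φ (x 0 * x 0)).v ∧
      actU (sw n k) (Φ (x 0 * x 0)).u = (Φ (x 0 * x 0)).u := by
    intro k hk hk2
    have hc : x k * (x 0 * x 0) = (x 0 * x 0) * x k := by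
      rcases hk2 with rfl | hk2
      · rw [mul_assoc]
      · have h1 := H.hyp.base.fam.chain.comm 0 k (by omega) (by omega)
        rw [← mul_assoc, ← h1, mul_assoc, ← h1, mul_assoc]
    have h2 := gb_comm_inv (Φ (x k)) (Φ (x 0 * x 0)) hW (by rw [← map_mul, hc, map_mul])
    rw [H.hsx k hk] at h2
    exact h2
  obtain ⟨hd, hsym⟩ := phiB_symm H.hyp (x 0 * x 0)
  obtain ⟨A, B', C, hT⟩ := tri_of_inv (by omega) (Φ (x 0 * x 0)).v hd hsym
    (hinv 0 (by omega) (Or.inl rfl)).1 (fun k hk hk' => (hinv k hk' (Or.inr hk)).1)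
  obtain ⟨w, w', hw, hw'⟩ := phiB_even H.hyp _ hW
  set e0 : Fin n := ⟨0, by omega⟩ with he0
  set e1 : Fin n := ⟨1, by omega⟩ with he1
  set e2' : Fin n := ⟨2, by omega⟩ with he2
  set e3 : Fin n := ⟨3, by omega⟩ with he3
  -- entries of the matrix
  have hwe : ∀ i j, tri n A B' C i j = 2 * w i j := by
    intro i j
    rw [← hT, hw]
    rfl
  have hA : A = 2 * w e0 e1 := by
    rw [← hwe]
    simp [tri, he0, he1]
  have hB1 : B' = 2 * w e0 e2' := by
    rw [← hwe]
    simp [tri, he0, he2]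
  have hC : C = 2 * w e2' e3 := by
    rw [← hwe]
    simp [tri, he2, he3]
  -- entries of the vector
  have hu : ∀ k (hk : k + 1 < n), (k = 0 ∨ 2 ≤ k) →
      (Φ (x 0 * x 0)).u ⟨k + 1, hk⟩ = (Φ (x 0 * x 0)).u ⟨k, by omega⟩ := by
    intro k hk hk2
    have h1 := sh_u (hinv k hk hk2).2 ⟨k, by omega⟩
    rw [sh_sw hk, Equiv.symm_swap, Equiv.swap_apply_left] at h1
    exact h1
  have hu2 : ∀ d (hd : 2 + d < n), (Φ (x 0 * x 0)).u ⟨2 + d, hd⟩ = (Φ (x 0 * x 0)).u e2' := by
    intro d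
    induction d with
    | zero => intro _; rfl
    | succ d ih =>
      intro hd
      rw [← ih (by omega)]
      exact hu (2 + d) (by omega) (Or.inr (by omega))
  have hwu : ∀ i, (Φ (x 0 * x 0)).u i = 2 * w' i := by
    intro i
    rw [hw']
    rfl
  -- parity
  obtain ⟨g, k, hgk⟩ := (H.hyp.hrange (Φ (x 0))).1 ⟨x 0, rfl⟩
  have hgs : (Θ g).s = sw n 0 := by
    rw [← hsx0, hgk]
  have hΘ0 : Θ (x 0) = thS n 0 := H.hyp.base.hΘx 0 (by omega)
  have hgx : (Θ (g * (x 0)⁻¹)).s = 1 := by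
    rw [map_mul, map_inv, Gb.mul_s, Gb.inv_s, hΘ0, hgs]
    exact mul_inv_cancel _
  obtain ⟨w1, w1', hw1, hw1'⟩ := base_even H.hyp.base _ hgx
  have hΘg : Θ g = Θ (g * (x 0)⁻¹) * thS n 0 := by
    rw [← hΘ0, ← map_mul, inv_mul_cancel_right]
  have hgv : (Θ g).v = (2 : ℤ) • w1 + E n 0 := by
    rw [hΘg, Gb.mul_v, hgx, hw1]
    rfl
  have hgu : (Θ g).u = (2 : ℤ) • w1' := by
    rw [hΘg, Gb.mul_u, hgx, hw1']
    show (2 : ℤ) • w1' + actU 1 (0 : Fin n → ℤ) = (2 : ℤ) • w1'
    funext i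
    simp [actU]
  have hfix : ∀ i : Fin n, 2 ≤ i.1 → (sw n 0).symm i = i := by
    intro i hi
    rw [sh_sw (by omega), Equiv.symm_swap]
    refine Equiv.swap_apply_of_ne_of_ne ?_ ?_
    · intro h
      rw [h] at hi
      simp at hi
    · intro h
      rw [h] at hi
      simp at hi
  have hev : Even (w e2' e3) := by
    have h1 : (Φ (x 0 * x 0)).v e2' e3 = 2 * (Φ (x 0)).v e2' e3 := by
      rw [map_mul, Gb.mul_v, hsx0]
      show (Φ (x 0)).v e2' e3 + (Φ (x 0)).v ((sw n 0).symm e2') ((sw n 0).symm e3) = _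
      rw [hfix e2' (by simp [he2]), hfix e3 (by simp [he3])]
      ring
    have h2 : w e2' e3 = (Φ (x 0)).v e2' e3 := by
      have h3 : (Φ (x 0 * x 0)).v e2' e3 = 2 * w e2' e3 := by
        rw [hw]
        rfl
      linarith
    rw [h2, hgk]
    show Even (κ * (Θ g).v e2' e3 + (2 * k) * ones n e2' e3)
    rw [hgv]
    have h4 : ((2 : ℤ) • w1 + E n 0) e2' e3 = 2 * w1 e2' e3 := by
      show 2 * w1 e2' e3 + E n 0 e2' e3 = 2 * w1 e2' e3
      have h5 : E n 0 e2' e3 = 0 := by simp [E, he2, he3]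
      rw [h5, add_zero]
    rw [h4]
    refine ⟨κ * w1 e2' e3 + k * ones n e2' e3, ?_⟩
    ring
  have hev' : Even (w' e2') := by
    have h1 : (Φ (x 0 * x 0)).u e2' = 2 * (Φ (x 0)).u e2' := by
      rw [map_mul, Gb.mul_u, hsx0]
      show (Φ (x 0)).u e2' + (Φ (x 0)).u ((sw n 0).symm e2') = _
      rw [hfix e2' (by simp [he2])]
      ring
    have h2 : w' e2' = (Φ (x 0)).u e2' := by
      have h3 := hwu e2'
      linarith
    rw [h2, hgk]
    show Even (κ * (Θ g).u e2' + (2 * k) * c1 n e2')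
    rw [hgu]
    show Even (κ * (2 * w1' e2') + (2 * k) * c1 n e2')
    refine ⟨κ * w1' e2' + k * c1 n e2', ?_⟩
    ring
  refine ⟨w e0 e1, w e0 e2', w e2' e3, w' e0, w' e2', hev, hev', ?_⟩
  refine Gb.ext ?_ ?_ hW
  · rw [hT]
    funext i j
    show tri n A B' C i j = 2 * tri n (w e0 e1) (w e0 e2') (w e2' e3) i j
    unfold tri
    split_ifs
    · rfl
    · exact hA
    · exact hB1
    · exact hC
  · funext i
    show (Φ (x 0 * x 0)).u i = 2 * two n (w' e0) (w' e2') i
    unfold two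
    split_ifs with hi
    · rw [← hwu]
      have : i.1 = 0 ∨ i.1 = 1 := by omega
      rcases this with h | h
      · have e : i = e0 := Fin.ext h
        rw [e]
      · have e : i = e1 := Fin.ext h
        rw [e]
        exact hu 0 (by omega) (Or.inl rfl)
    · rw [← hwu]
      have h1 := i.2
      have h2 := hu2 (i.1 - 2) (by omega)
      have e : (⟨2 + (i.1 - 2), by omega⟩ : Fin n) = i :=
        Fin.ext (by show 2 + (i.1 - 2) = i.1; omega)
      rw [e] at h2
      exact h2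

theorem shapeV (H : HypS n x y B Θ Φ κ z) : ∃ f g d e : ℤ,
    Φ y = ⟨(2 : ℤ) • tri1 n f g, (2 : ℤ) • lst n d e, 1⟩ := by
  have hn := H.hyp.base.hn
  have hinv := sh_swap (n := n)
    (fun s => act s (Φ y).v = (Φ y).v ∧ actU s (Φ y).u = (Φ y).u) ⟨rfl, rfl⟩
    (fun s t hs ht => ⟨by rw [act_mul, ht.1, hs.1], by
      have h1 : actU (s * t) (Φ y).u = actU s (actU t (Φ y).u) := rfl
      rw [h1, ht.2, hs.2]⟩)
    (fun k hk => by
      have h1 := gb_comm_inv (Φ (x k)) (Φ y) H.hsy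
        (by rw [← map_mul, ← H.hyp.base.fam.comm k hk, map_mul])
      rw [H.hsx k (by omega)] at h1
      exact h1)
  obtain ⟨hd, hsym⟩ := phiB_symm H.hyp y
  obtain ⟨w, w', hw, hw'⟩ := phiB_even H.hyp _ H.hsy
  set e0 : Fin n := ⟨0, by omega⟩ with he0
  set e1 : Fin n := ⟨1, by omega⟩ with he1
  set eL : Fin n := ⟨n - 1, by omega⟩ with heL
  have hwv : ∀ i j, (Φ y).v i j = 2 * w i j := by
    intro i j
    rw [hw]
    rfl
  have hwu : ∀ i, (Φ y).u i = 2 * w' i := by
    intro i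
    rw [hw']
    rfl
  have h0n : e0.1 + 1 < n := by simp only [he0]; omega
  have h1n : e1.1 + 1 < n := by simp only [he1]; omega
  -- u
  have hu : ∀ i : Fin n, i.1 + 1 < n → (Φ y).u i = (Φ y).u e0 := by
    intro i hi
    have h1 := sh_u (hinv e0 i h0n hi).2 i
    rw [Equiv.symm_swap, Equiv.swap_apply_right] at h1
    exact h1.symm
  -- v
  have hvL : ∀ i : Fin n, i.1 + 1 < n → (Φ y).v i eL = (Φ y).v e0 eL := by
    intro i hi
    have h1 := sh_v (hinv e0 i h0n hi).1 i eL
    rw [Equiv.symm_swap, Equiv.swap_apply_right, Equiv.swap_apply_of_ne_of_ne] at h1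
    · exact h1.symm
    · intro h
      have := congrArg Fin.val h
      simp only [heL, he0] at this
      omega
    · intro h
      have := congrArg Fin.val h
      simp only [heL] at this
      omega
  have hv : ∀ i j : Fin n, i.1 + 1 < n → j.1 + 1 < n → i ≠ j → (Φ y).v i j = (Φ y).v e0 e1 := by
    intro i j hi hj hij
    have h3 := sh_v (hinv e0 i h0n hi).1 i j
    rw [Equiv.symm_swap, Equiv.swap_apply_right] at h3
    set j' := Equiv.swap e0 i j with hj'
    have hj2 : j'.1 + 1 < n ∧ j' ≠ e0 := by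
      by_cases hj2 : j = e0
      · rw [hj2, Equiv.swap_apply_left] at hj'
        rw [hj']
        exact ⟨hi, fun h4 => hij (h4.trans hj2.symm)⟩
      · rw [Equiv.swap_apply_of_ne_of_ne hj2 (Ne.symm hij)] at hj'
        rw [hj']
        exact ⟨hj, hj2⟩
    have h4 := sh_v (hinv e1 j' h1n hj2.1).1 e0 j'
    rw [Equiv.symm_swap, Equiv.swap_apply_right, Equiv.swap_apply_of_ne_of_ne _ hj2.2.symm] at h4
    · rw [← h3, ← h4]
    · simp [he0, he1]
  refine ⟨w e0 eL, w e0 e1, w' eL, w' e0, ?_⟩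
  refine Gb.ext ?_ ?_ H.hsy
  · funext i j
    show (Φ y).v i j = 2 * tri1 n (w e0 eL) (w e0 e1) i j
    unfold tri1
    split_ifs with h1 h2
    · rw [h1, hd]
      rfl
    · rw [← hwv]
      rcases h2 with h2 | h2
      · have e : i = eL := Fin.ext (by simp only [heL]; omega)
        have h3 : j.1 + 1 < n := by
          have h4 := j.2
          have h5 : j.1 ≠ i.1 := fun h6 => h1 (Fin.ext h6.symm)
          omega
        rw [e, hsym, hvL j h3]
      · have e : j = eL := Fin.ext (by simp only [heL]; omega)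
        have h3 : i.1 + 1 < n := by
          have h4 := i.2
          have h5 : i.1 ≠ j.1 := fun h6 => h1 (Fin.ext h6)
          omega
        rw [e, hvL i h3]
    · rw [← hwv]
      have h3 := i.2
      have h4 := j.2
      exact hv i j (by omega) (by omega) h1
  · funext i
    show (Φ y).u i = 2 * lst n (w' eL) (w' e0) i
    unfold lst
    split_ifs with h1
    · rw [← hwu]
      have e : i = eL := Fin.ext (by simp only [heL]; omega)
      rw [e]
    · rw [← hwu]
      have h3 := i.2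
      exact hu i (by omega)

end ProfArtin
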